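import Pool.Agent.U167.SA.All1
import Pool.Agent.U394.SA.RATE

set_option autoImplicit false

namespace Pool.Agent.U167.SA

theorem a_RATE : RateStm := Pool.Agent.U394.SA.t_RATE

end Pool.Agent.U167.SA
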