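import Pool.Agent.U167.SA.Fgen

/-! Project SA: the final theorems in terms of `PE`. -/

set_option autoImplicit false

namespace Pool.Agent.U167.SA

open H974 Finset Filter Topology

/-- **EX4**: the slit plane -/
def ExStm4 : Prop :=
    Tendsto (fun r : ℕ => PP Slt {((1:ℤ), (0:ℤ))} (1 + (r:ℤ)) * (r:ℝ)^((1:ℝ)/6)) atTop
      (𝓝 (√Real.pi / Real.Gamma (1/3)))

theorem keyG_Dm (h : KeyStm) (a b : ℤ) : KeyG (Dm a b) (a.natAbs + b.natAbs) Q := by
  intro s hs hs0 Gi Go Gm h1 h2 h3 A B hA hB n n' hn hn' F F' hQ hF hF'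
  exact h s a b hs (by rw [Int.abs_eq_natAbs]; exact_mod_cast (by omega : a.natAbs ≤ s))
    (by rw [Int.abs_eq_natAbs]; exact_mod_cast (by omega : b.natAbs ≤ s)) Gi Go Gm h1 h2 h3 A B
    hA hB n n' hn hn' F F' hQ hF hF'

theorem keyG_Slt (h : KeyStm2) : KeyG Slt 0 Q2 := by
  intro s hs _ Gi Go Gm h1 h2 h3 A B hA hB n n' hn hn' F F' hQ hF hF'
  exact h s hs Gi Go Gm h1 h2 h3 A B hA hB n n' hn hn' F F' hQ hF hF'

theorem PE_true (hPerc : PercStm) (G : Set Edg) (A : Set Vtx) (n : ℤ) :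
    PE 0 (fun _ => True) G A n = PP G A n := by
  rw [hPerc]
  unfold PE
  simp only [true_and]

theorem loc_self {m r : ℕ} (h : r ≤ m) {G D : Set Edg} (hG : ∀ e ∉ boxE r, (e ∈ G ↔ e ∈ D)) :
    G = loc m G D := by
  ext e
  by_cases he : e ∈ boxE m
  · exact (loc_in he).symm
  · rw [loc_out he]
    exact hG e (boxE_mono' h he)

/-- the positive x-axis -/
theorem axis_reach {a b : ℤ} {k : ℕ} (hk : b ≤ k) : ∀ j : ℕ,
    Reach (Dm a b) ((k:ℤ), 0) (((k + j : ℕ) : ℤ), 0) := by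
  intro j
  induction j with
  | zero => exact Reach.refl _ _
  | succ j ih =>
    refine ih.trans (Adj.reach ⟨(((k + j : ℕ) : ℤ), 0, true), ?_, Or.inl ⟨rfl, ?_⟩⟩)
    · unfold Dm DV col ht
      simp only [Set.mem_ofPred_eq, src_mk, tgt_true]
      push_cast
      refine ⟨⟨fun _ => ?_, fun _ => ?_⟩, fun _ => ?_, fun _ => ?_⟩ <;> omega
    · rw [tgt_true]
      push_cast
      ext <;> simp only <;> ring

section

variable (hSW : SWStm) (hB : PPBStm) (hE : ExStm)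

include hSW hB hE in
theorem F1 (hPerc : PercStm) (hP : PPMStm) (hL : LOCStm) (a b : ℤ) (hG0 : SWG (Dm a b))
    {G : Set Edg} {A : Set Vtx}
    (hG : Out a b G) (hA : ∃ r, ∀ v ∈ A, inB r v) (m : ℕ) (W : Finset Edg → Prop) :
    ∃ c : ℝ, 0 ≤ c ∧ Tendsto (fun n : ℕ => PE m W G A n * (n:ℝ)^((1:ℝ)/3)) atTop (𝓝 c) ∧
      ((∃ᶠ n : ℕ in atTop, 0 < PE m W G A n) → 0 < c) := by
  obtain ⟨k, hk⟩ : ∃ k : ℕ, k = b.natAbs + 1 := ⟨_, rfl⟩
  have hpos : ∀ᶠ n : ℕ in atTop, 0 < PP (Dm a b) {((k:ℤ), 0)} n := by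
    filter_upwards [eventually_ge_atTop k] with n hn
    obtain ⟨j, rfl⟩ := Nat.exists_eq_add_of_le hn
    refine hB.2.2.2.2.2.2 _ _ _ ⟨_, rfl, (((k + j : ℕ) : ℤ), 0), ?_, axis_reach (by omega) j⟩
    unfold col
    simp
  have hbd : ∃ r, ∀ v ∈ ({((k:ℤ), 0)} : Set Vtx), inB r v := by
    refine ⟨k, fun v hv => ?_⟩
    rw [Set.mem_singleton_iff] at hv
    subst hv
    unfold inB inR
    simp
  obtain ⟨c0, hc0, hT0⟩ := thmB hSW hB hE (G := Dm a b) ⟨0, fun e _ => Iff.rfl⟩ hbd hpos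
  obtain ⟨r, hr⟩ := hG
  obtain ⟨c, hc, hT, hcp⟩ := Fgen hG0 hP hL (l := (atTop : Filter ℕ)) (fun _ => Dm a b)
    (fun n => (n:ℤ)) (fun R => by
      filter_upwards [eventually_gt_atTop (2*R)] with n hn
      exact ⟨fun e _ => Iff.rfl, by exact_mod_cast hn⟩)
    (m := m) (m' := 0) (W := W) (W' := fun _ => True) (Gf := fun _ => G) (Gf' := fun _ => Dm a b)
    (A := A) (A' := {((k:ℤ), 0)})
    ⟨G, r, fun m1 hm1 => Eventually.of_forall fun _ => loc_self hm1 hr⟩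
    ⟨Dm a b, 0, fun m1 hm1 => Eventually.of_forall fun _ => loc_self hm1 fun e _ => Iff.rfl⟩ hA hbd
    (by
      filter_upwards [hpos] with n hn
      rw [PE_true hPerc]
      exact hn)
  refine ⟨c * c0, by positivity, ?_, fun h => mul_pos (hcp h) hc0⟩
  refine (hT.mul hT0).congr' ?_
  filter_upwards [hpos] with n hn
  rw [PE_true hPerc]
  field_simp

end

/-- the filter of the slit strips and of the slit plane -/
def slF : Filter ((ℕ × ℕ) ⊕ ℕ) := map Sum.inl atTop ⊔ map Sum.inr atTop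

instance : slF.NeBot := by
  unfold slF
  exact (inferInstance : (map Sum.inl (atTop : Filter (ℕ × ℕ))).NeBot).mono le_sup_left

/-- domains, targets and normalisation -/
def slO (G : Set Edg) : (ℕ × ℕ) ⊕ ℕ → Set Edg
  | .inl x => G ∩ Str x.1 x.2
  | .inr _ => G

def slN : (ℕ × ℕ) ⊕ ℕ → ℤ
  | .inl x => 1 + (x.2 : ℤ)
  | .inr r => 1 + (r : ℤ)

noncomputable def slK : (ℕ × ℕ) ⊕ ℕ → ℝ
  | .inl x => ((x.2 : ℝ) * (x.1 + x.2) / x.1)^((1:ℝ)/6)
  | .inr r => (r : ℝ)^((1:ℝ)/6)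

theorem mem_Str {R p r : ℕ} (hp : 2*R+2 ≤ p) (hr : 2*R+2 ≤ r) {e : Edg} (he : e ∈ boxE R) :
    e ∈ Str p r := by
  obtain ⟨x, y, _ | _⟩ := e
  · rw [mem_boxE_false] at he
    unfold Str col
    simp only [Set.mem_ofPred_eq, src_mk, tgt_false]
    omega
  · rw [mem_boxE_true] at he
    unfold Str col
    simp only [Set.mem_ofPred_eq, src_mk, tgt_true]
    omega

theorem slO_local (G : Set Edg) (R : ℕ) : ∀ᶠ i in slF, (∀ e ∈ boxE R, (e ∈ slO G i ↔ e ∈ G)) ∧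
    2 * (R:ℤ) < slN i := by
  unfold slF
  rw [eventually_sup, eventually_map, eventually_map]
  constructor
  · filter_upwards [eventually_ge_atTop ((2*R+2, 2*R+2) : ℕ × ℕ)] with x hx
    have h1 : 2*R+2 ≤ x.1 := hx.1
    have h2 : 2*R+2 ≤ x.2 := hx.2
    refine ⟨fun e he => ⟨fun h => h.1, fun h => ⟨h, mem_Str h1 h2 he⟩⟩, ?_⟩
    unfold slN
    simp only
    omega
  · filter_upwards [eventually_ge_atTop (2*R+2)] with r hr
    refine ⟨fun e _ => Iff.rfl, ?_⟩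
    unfold slN
    simp only
    omega

theorem slO_fam {G D : Set Edg} {r : ℕ} (hG : ∀ e ∉ boxE r, (e ∈ G ↔ e ∈ D)) :
    Fam slF (slO D) (slO G) := by
  refine ⟨G, r, fun m1 hm1 => ?_⟩
  filter_upwards [slO_local G m1] with i hi
  ext e
  by_cases he : e ∈ boxE m1
  · rw [loc_in he]
    exact hi.1 e he
  · rw [loc_out he]
    have h1 := hG e (boxE_mono' hm1 he)
    cases i with
    | inl x => exact and_congr h1 Iff.rfl
    | inr x => exact h1

theorem F2_ref (h2 : ExStm2) (h4 : ExStm4) :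
    Tendsto (fun i => PP (slO Slt i) {x0} (slN i) * slK i) slF
      (𝓝 (√Real.pi / Real.Gamma (1/3))) := by
  unfold slF
  rw [tendsto_sup, tendsto_map'_iff, tendsto_map'_iff]
  constructor
  · apply tendsto_of_seq_tendsto
    intro u hu
    rw [← prod_atTop_atTop_eq, tendsto_prod_iff'] at hu
    exact h2 (fun n => (u n).1) (fun n => (u n).2) hu.1 hu.2
  · exact h4

theorem F2 (hPerc : PercStm) (hP : PPMStm) (hL : LOCStm) (hS : SWG Slt) (h2 : ExStm2)
    (h4 : ExStm4) {G : Set Edg} {A : Set Vtx} (hG : ∃ r, ∀ e ∉ boxE r, (e ∈ G ↔ e ∈ Slt))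
    (hA : ∃ r, ∀ v ∈ A, inB r v) (m : ℕ) (W : Finset Edg → Prop) :
    ∃ c : ℝ, 0 ≤ c ∧ Tendsto (fun i => PE m W (slO G i) A (slN i) * slK i) slF (𝓝 c) ∧
      ((∃ᶠ i in slF, 0 < PE m W (slO G i) A (slN i)) → 0 < c) := by
  have hT0 := F2_ref h2 h4
  have hc0 : 0 < √Real.pi / Real.Gamma (1/3) := by
    have := Real.Gamma_pos_of_pos (show (0:ℝ) < 1/3 by norm_num)
    have := Real.pi_pos
    positivity
  have hpos : ∀ᶠ i in slF, 0 < PP (slO Slt i) {x0} (slN i) := by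
    filter_upwards [hT0.eventually (lt_mem_nhds hc0)] with i hi
    have hk : 0 ≤ slK i := by
      unfold slK
      split <;> positivity
    by_contra hcon
    push Not at hcon
    nlinarith
  obtain ⟨r, hr⟩ := hG
  obtain ⟨c, hc, hT, hcp⟩ := Fgen hS hP hL (l := slF) (slO Slt) slN (fun R => slO_local Slt R)
    (m := m) (m' := 0) (W := W) (W' := fun _ => True) (Gf := slO G) (Gf' := slO Slt)
    (A := A) (A' := {x0}) (slO_fam hr) (slO_fam (r := 0) fun e _ => Iff.rfl) hA x0_inB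
    (by
      filter_upwards [hpos] with n hn
      rw [PE_true hPerc]
      exact hn)
  refine ⟨c * (√Real.pi / Real.Gamma (1/3)), by positivity, ?_, fun h => mul_pos (hcp h) hc0⟩
  refine (hT.mul hT0).congr' ?_
  filter_upwards [hpos] with n hn
  rw [PE_true hPerc]
  field_simp

end Pool.Agent.U167.SA
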