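import Pool.Agent.U167.SA.Stm2

/-!
Project SA (helper167), third part: all local events (fixed configuration `η` in a box).
-/

set_option autoImplicit false

namespace Pool.Agent.U167.SA

open H974 Finset Filter Topology

/-- the configuration `F` with its part in the box of radius `m` replaced by `η` -/
noncomputable def md (m : ℕ) (η F : Finset Edg) : Finset Edg := (F \ boxE m) ∪ η

/-- finite volume probability of the arm, given the configuration `η` in the box of radius `m` -/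
noncomputable def PMm (m : ℕ) (η : Finset Edg) (G : Set Edg) (A : Set Vtx) (n : ℤ) (M : ℕ) : ℝ :=
  Pr (fun _ => (1/2 : ℝ)) (boxE M) (fun F => Hit G A n (md m η F))

/-- infinite volume -/
noncomputable def PPm (m : ℕ) (η : Finset Edg) (G : Set Edg) (A : Set Vtx) (n : ℤ) : ℝ :=
  ⨆ M : ℕ, PMm m η G A n M

/-- the key property of a domain `D` and events `Qe` -/
def KeyG (D : Set Edg) (s0 : ℕ) (Qe : ℕ → Finset Edg → Prop) : Prop :=
    ∀ (s : ℕ), 0 < s → s0 ≤ s → ∀ (Gi Go Gm : Set Edg),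
    (∀ e ∈ boxE (16*s), (e ∈ Gi ↔ e ∈ Gm)) → (∀ e ∉ boxE (16*s), (e ∈ Go ↔ e ∈ Gm)) →
    (∀ e ∈ boxE (80*s+1), e ∉ boxE (2*s-1) → (e ∈ Gm ↔ e ∈ D)) →
    ∀ (A B : Set Vtx), (∀ u ∈ A, inB (2*s) u) → (∀ u ∈ B, inB (2*s) u) →
    ∀ (n n' : ℤ), 160*s+2 < n → 160*s+2 < n' → ∀ (F F' : Finset Edg),
    Qe s (mix (boxE (16*s)) F F') → Hit Gi A n F → Hit Go B n' F' →
      Hit Gm A n' (mix (boxE (16*s)) F F')

/-- locality and probability of the events -/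
def QPG (Qe : ℕ → Finset Edg → Prop) : Prop := ∃ δ : ℝ, 0 < δ ∧ δ ≤ 1 ∧ ∀ s : ℕ, 0 < s →
    (∀ F, Qe s F ↔ Qe s (F ∩ Rg s)) ∧ (∀ F G, F ⊆ G → Qe s F → Qe s G) ∧
    ∀ S : Finset Edg, boxE (80*s+1) ⊆ S → δ ≤ Pr (fun _ => (1/2:ℝ)) S (Qe s)

/-- the swapping inequality for arms with fixed configurations in the box of radius `m` -/
def SWG (D : Set Edg) : Prop := ∃ (m0 : ℕ) (θ : ℝ), 0 ≤ θ ∧ θ < 1 ∧
    ∀ (K m R : ℕ) (η1 η2 : Finset Edg) (G11 G12 G21 G22 : Set Edg) (A1 A2 : Set Vtx) (n1 n2 : ℤ),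
    0 < m → m0 ≤ m → η1 ⊆ boxE m → η2 ⊆ boxE m → (∀ v ∈ A1, inB m v) → (∀ v ∈ A2, inB m v) →
    100 * 64^K * m ≤ R →
    (∀ e ∈ boxE R, (e ∈ G11 ↔ e ∈ G12) ∧ (e ∈ G21 ↔ e ∈ G22)) →
    (∀ e ∉ boxE m, (e ∈ G11 ↔ e ∈ G21) ∧ (e ∈ G12 ↔ e ∈ G22)) →
    (∀ e ∈ boxE R, e ∉ boxE m → (e ∈ G11 ↔ e ∈ D)) →
    2 * (R:ℤ) < n1 → 2 * (R:ℤ) < n2 →
    PPm m η1 G11 A1 n1 * PPm m η2 G22 A2 n2 ≤
      PPm m η1 G12 A1 n2 * PPm m η2 G21 A2 n1 + θ^K * (PPm m η1 G11 A1 n1 * PPm m η2 G22 A2 n2)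

/-- **ASMG**: as ASM, for a general domain and for fixed inner configurations. Note that
`md m η (mix I F F') = mix I (md m η F) (md m η' F')` if `η, η' ⊆ boxE m ⊆ I`, and that `Qe s` does
not look at `boxE m` (`m ≤ 2*s-1`). Prove the convergence of `PMm` on the way (`PPMStm`). -/
def ASMGStm : Prop := SwapStm → ∀ (D : Set Edg) (s0 : ℕ) (Qe : ℕ → Finset Edg → Prop),
    KeyG D s0 Qe → QPG Qe → SWG D

/-- **PPM**: elementary properties of `PPm`. -/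
def PPMStm : Prop :=
    (∀ m η G A n, 0 ≤ PPm m η G A n ∧ PPm m η G A n ≤ 1) ∧
    (∀ m η G A n, Monotone (PMm m η G A n)) ∧
    (∀ m η G A n, Tendsto (PMm m η G A n) atTop (𝓝 (PPm m η G A n))) ∧
    (∀ (m : ℕ) (η : Finset Edg) (G : Set Edg) (A : Set Vtx) (n n' : ℤ), (∀ v ∈ A, col v ≤ n) →
      n ≤ n' → PPm m η G A n' ≤ PPm m η G A n) ∧
    (∀ (m : ℕ) (η : Finset Edg) (G : Set Edg) (A : Set Vtx) (n : ℤ),
      (∃ u ∈ A, ∃ v, col v = n ∧ Reach (({e | e ∉ boxE m} ∪ ↑η) ∩ G) u v) → 0 < PPm m η G A n)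

open Classical in
/-- **LOC**: decomposition of the probability of the arm together with a local event `W` (a set of
configurations of the box of radius `m`). The case of `PP` itself is `W = all`. -/
def LOCStm : Prop := ∀ (m : ℕ) (W : Finset Edg → Prop) (G : Set Edg) (A : Set Vtx) (n : ℤ),
    percE.real {ω | W ((boxE m).filter (fun e => ω e = true)) ∧
      ∃ u ∈ A, ∃ v, col v = n ∧ Reach ({e | ω e = true} ∩ G) u v} =
    ∑ η ∈ (boxE m).powerset.filter W, (1/2 : ℝ)^(boxE m).card * PPm m η G A n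

end Pool.Agent.U167.SA
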