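import Pool.Agent.U167.SA.Bridge
import Pool.Agent.U167.SA.Ex4
import Pool.Agent.U396.SA.PPB
import Pool.Agent.U97.SA.PERC
import Pool.Agent.U363.SA.ASM
import Pool.Agent.U606.SA.EX
import Pool.Agent.U99.SA.SWAP
import Pool.Agent.U692.SA.UNI
import Pool.Agent.U408.SA.QP
import Pool.Agent.U578.SA.KEY
import Pool.Agent.U587.SA.KEY2
import Pool.Agent.U694.SA.QP2
import Pool.Agent.U789.SA.UNI2
import Pool.Agent.U312.SA.LOC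
import Pool.Agent.U891.SA.PPM
import Pool.Agent.U147.SA.ASMG
import Pool.Agent.U394.SA.KEYW

/-! Project SA: assembly of the packages. -/

set_option autoImplicit false

namespace Pool.Agent.U167.SA

open H974 Filter Topology

theorem a_KEY : KeyStm := Pool.Agent.U578.SA.t_KEY Pool.Agent.U692.SA.t_UNI

theorem a_SW : SWStm := Pool.Agent.U363.SA.t_ASM Pool.Agent.U99.SA.t_SWAP a_KEY
  Pool.Agent.U408.SA.t_QP Pool.Agent.U396.SA.t_PPB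

theorem a_PPB : PPBStm := Pool.Agent.U396.SA.t_PPB
theorem a_PERC : PercStm := Pool.Agent.U97.SA.t_PERC
theorem a_EX : ExStm := Pool.Agent.U606.SA.t_EX a_PERC a_PPB
theorem a_PPM : PPMStm := Pool.Agent.U891.SA.t_PPM
theorem a_LOC : LOCStm := Pool.Agent.U312.SA.t_LOC

theorem a_SWGD (a b : ℤ) : SWG (Dm a b) := Pool.Agent.U147.SA.t_ASMG Pool.Agent.U99.SA.t_SWAP _ _ Q
  (keyG_Dm a_KEY a b) Pool.Agent.U408.SA.t_QP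

theorem a_SWGS : SWG Slt := Pool.Agent.U147.SA.t_ASMG Pool.Agent.U99.SA.t_SWAP _ _ Q2
  (keyG_Slt (Pool.Agent.U587.SA.t_KEY2 Pool.Agent.U789.SA.t_UNI2)) Pool.Agent.U694.SA.t_QP2

theorem a_SWGW (hU : UniStmW) {w : ℤ → ℤ} {s0 : ℕ} (h1 : ∀ h, |w h| ≤ s0)
    (h2 : ∀ h : ℤ, (s0:ℤ) ≤ |h| → |w (h+1) - w h| ≤ 1) : SWG (Dw w) :=
  Pool.Agent.U147.SA.t_ASMG Pool.Agent.U99.SA.t_SWAP _ s0 Q
    (Pool.Agent.U394.SA.t_KEYW hU s0 w h1 h2) Pool.Agent.U408.SA.t_QP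

theorem a_F3 (hU : UniStmW) {w : ℤ → ℤ} {s0 : ℕ} (h1 : ∀ h, |w h| ≤ s0)
    (h2 : ∀ h : ℤ, (s0:ℤ) ≤ |h| → |w (h+1) - w h| ≤ 1) {G : Set Edg} {A : Set Vtx}
    (hG : ∃ r, ∀ e ∉ boxE r, (e ∈ G ↔ e ∈ Dw w)) (hA : ∃ r, ∀ v ∈ A, inB r v) (m : ℕ)
    (W : Finset Edg → Prop) :
    ∃ c : ℝ, 0 ≤ c ∧ Tendsto (fun n : ℕ => PE m W G A n * (n:ℝ)^((1:ℝ)/3)) atTop (𝓝 c) ∧
      ((∃ᶠ n : ℕ in atTop, 0 < PE m W G A n) → 0 < c) :=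
  F3 a_SW a_PPB a_EX a_PERC a_PPM a_LOC w s0 h1 (a_SWGW hU h1 h2) a_SWGD hG hA m W

theorem a_F2 {G : Set Edg} {A : Set Vtx} (hG : ∃ r, ∀ e ∉ boxE r, (e ∈ G ↔ e ∈ Slt))
    (hA : ∃ r, ∀ v ∈ A, inB r v) (m : ℕ) (W : Finset Edg → Prop) :
    ∃ c : ℝ, 0 ≤ c ∧ Tendsto (fun i => PE m W (slO G i) A (slN i) * slK i) slF (𝓝 c) ∧
      ((∃ᶠ i in slF, 0 < PE m W (slO G i) A (slN i)) → 0 < c) :=
  F2 a_PERC a_PPM a_LOC a_SWGS (Pool.Agent.U566.SA.t_EX2 a_PERC a_PPB).1 (t_EX4 a_PERC) hG hA m W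

theorem a_EX3 : ExStm3 := (Pool.Agent.U566.SA.t_EX2 a_PERC a_PPB).2

end Pool.Agent.U167.SA
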