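import Pool.Agent.U167.SA.All0
import Pool.Agent.U919.SA.UNIW

/-! Project SA: the slit, in the form used by the results file. -/

set_option autoImplicit false

namespace Pool.Agent.U167.SA

open H974 Filter Topology MeasureTheory

theorem a_UNIW : UniStmW := Pool.Agent.U919.SA.t_UNIW

theorem PE_nonneg (m : ℕ) (W : Finset Edg → Prop) (G : Set Edg) (A : Set Vtx) (n : ℤ) :
    0 ≤ PE m W G A n := by
  unfold PE
  exact measureReal_nonneg

theorem a_F2' {G : Set Edg} {A : Set Vtx} (hG : ∃ r, ∀ e ∉ boxE r, (e ∈ G ↔ e ∈ Slt))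
    (hA : ∃ r, ∀ v ∈ A, inB r v) (m : ℕ) (W : Finset Edg → Prop) :
    ∃ c : ℝ, 0 ≤ c ∧
      (∀ p r : ℕ → ℕ, Tendsto p atTop atTop → Tendsto r atTop atTop →
        Tendsto (fun n => PE m W (G ∩ Str (p n) (r n)) A (1 + (r n : ℤ)) *
          ((r n : ℝ) * ((p n : ℝ) + r n) / p n) ^ ((1:ℝ)/6)) atTop (𝓝 c)) ∧
      Tendsto (fun r : ℕ => PE m W G A (1 + (r : ℤ)) * (r : ℝ) ^ ((1:ℝ)/6)) atTop (𝓝 c) ∧
      ((∃ᶠ r : ℕ in atTop, 0 < PE m W G A (1 + (r : ℤ))) → 0 < c) := by
  obtain ⟨c, hc, hT, hp⟩ := a_F2 hG hA m W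
  unfold slF at hT hp
  rw [tendsto_sup, tendsto_map'_iff, tendsto_map'_iff] at hT
  refine ⟨c, hc, ?_, ?_, ?_⟩
  · intro p r tp tr
    have tpr : Tendsto (fun n => (p n, r n)) atTop (atTop : Filter (ℕ × ℕ)) := by
      rw [← prod_atTop_atTop_eq]
      exact tp.prodMk tr
    refine (hT.1.comp tpr).congr fun n => ?_
    simp only [Function.comp_apply, slO, slN, slK]
  · refine hT.2.congr fun n => ?_
    simp only [Function.comp_apply, slO, slN, slK]
  · intro hf
    apply hp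
    rw [frequently_sup]
    right
    rw [frequently_map]
    refine hf.mono fun r hr => ?_
    simp only [slO, slN]
    exact hr

/-- either the limit is positive or the probability is eventually zero -/
theorem dich {ι : Type} {l : Filter ι} {f : ι → ℝ} {c : ℝ} (h0 : ∀ i, 0 ≤ f i)
    (h : (∃ᶠ i in l, 0 < f i) → 0 < c) : 0 < c ∨ ∀ᶠ i in l, f i = 0 := by
  by_cases hf : ∃ᶠ i in l, 0 < f i
  · exact Or.inl (h hf)
  · right
    rw [not_frequently] at hf
    filter_upwards [hf] with i hi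
    exact le_antisymm (not_lt.mp hi) (h0 i)

theorem a_half : ∀ n : ℕ, PP (Dm 0 0) {((1:ℤ), (0:ℤ))} n =
    percE.real {ω | ∃ u ∈ ({((1:ℤ), (0:ℤ))} : Set Vtx), ∃ v, col v = n ∧
      Reach ({e | ω e = true} ∩ Dw (fun _ => 0)) u v} := by
  intro n
  rw [a_PERC]
  have h2 : Dw (fun _ => 0) = Dm 0 0 := by
    ext e
    constructor
    · rintro ⟨k1, k2⟩
      exact ⟨⟨fun _ => k1, fun _ => k1⟩, fun _ => k2, fun _ => k2⟩
    · rintro ⟨⟨k1, k2⟩, k3, k4⟩
      constructor
      · rcases le_or_gt 0 (ht (src e)) with h | h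
        · exact k1 h
        · exact k2 h
      · rcases le_or_gt 0 (ht (tgt e)) with h | h
        · exact k3 h
        · exact k4 h
  rw [h2]

end Pool.Agent.U167.SA
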