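import Pool.Agent.U167.SA.Stm

/-! Project SA, AMP: from the swapping inequality and the exact formula to the sharp asymptotics. -/

set_option autoImplicit false

namespace Pool.Agent.U167.SA

open H974 Finset Filter Topology

theorem ratio_lim {ρ : ℕ → ℝ} (h0 : ∀ᶠ n in atTop, 0 < ρ n)
    (h : ∀ ε : ℝ, 0 < ε → ε < 1 → ∃ N, ∀ n1 n2, N ≤ n1 → N ≤ n2 → ρ n1 * (1 - ε) ≤ ρ n2) :
    ∃ l : ℝ, 0 < l ∧ Tendsto ρ atTop (𝓝 l) := by
  obtain ⟨N0, hN0⟩ := eventually_atTop.mp h0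
  obtain ⟨N1, hN1⟩ := h (1/2) (by norm_num) (by norm_num)
  set N := max N0 N1 with hN
  have hpos : 0 < ρ N := hN0 N (le_max_left _ _)
  have hup : ∀ n, N ≤ n → ρ n ≤ 2 * ρ N := by
    intro n hn
    have := hN1 n N ((le_max_right _ _).trans hn) (le_max_right _ _)
    linarith
  have hlo : ∀ n, N ≤ n → ρ N / 2 ≤ ρ n := by
    intro n hn
    have := hN1 N n (le_max_right _ _) ((le_max_right _ _).trans hn)
    linarith
  have hc : CauchySeq ρ := by
    rw [Metric.cauchySeq_iff]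
    intro ε hε
    set ε' := min (1/2) (ε / (4 * ρ N)) with hε'
    have he0 : 0 < ε' := lt_min (by norm_num) (by positivity)
    have he1 : ε' < 1 := lt_of_le_of_lt (min_le_left _ _) (by norm_num)
    obtain ⟨N2, hN2⟩ := h ε' he0 he1
    refine ⟨max N N2, fun m hm n hn => ?_⟩
    have hm1 : N ≤ m := (le_max_left _ _).trans hm
    have hm2 : N2 ≤ m := (le_max_right _ _).trans hm
    have hn1 : N ≤ n := (le_max_left _ _).trans hn
    have hn2 : N2 ≤ n := (le_max_right _ _).trans hn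
    have k1 := hN2 m n hm2 hn2
    have k2 := hN2 n m hn2 hm2
    have u1 := hup m hm1
    have u2 := hup n hn1
    have he2 : ε' * (4 * ρ N) ≤ ε := by
      have : ε' ≤ ε / (4 * ρ N) := min_le_right _ _
      rwa [le_div_iff₀ (by positivity)] at this
    have v1 : ε' * ρ m ≤ ε / 2 := by nlinarith
    have v2 : ε' * ρ n ≤ ε / 2 := by nlinarith
    rw [Real.dist_eq, abs_lt]
    constructor <;> nlinarith
  obtain ⟨l, hl⟩ := cauchySeq_tendsto_of_complete hc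
  refine ⟨l, ?_, hl⟩
  have : ρ N / 2 ≤ l := ge_of_tendsto hl (eventually_atTop.mpr ⟨N, hlo⟩)
  linarith

/-- the reference vertex -/
def x0 : Vtx := ((1:ℤ), (0:ℤ))

/-- `G` is `Dm a b` outside a box -/
def Out (a b : ℤ) (G : Set Edg) : Prop := ∃ r : ℕ, ∀ e ∉ boxE r, (e ∈ G ↔ e ∈ Dm a b)

theorem boxE_mono' {n m : ℕ} (h : n ≤ m) {e : Edg} (he : e ∉ boxE m) : e ∉ boxE n :=
  fun h' => he (boxE_mono h h')

theorem inB_mono {n m : ℕ} (h : n ≤ m) {v : Vtx} (hv : inB n v) : inB m v := by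
  unfold inB inR at *
  have : (n:ℤ) ≤ m := by exact_mod_cast h
  omega

section

variable (hSW : SWStm) (hB : PPBStm)

include hB in
theorem PP_nonneg (G : Set Edg) (A : Set Vtx) (n : ℤ) : 0 ≤ PP G A n := (hB.1 G A n).1

include hB in
theorem PP_le_one (G : Set Edg) (A : Set Vtx) (n : ℤ) : PP G A n ≤ 1 := (hB.1 G A n).2

include hB in
theorem PP_mono {G G' : Set Edg} {A A' : Set Vtx} {n : ℤ} (h : G ⊆ G') (h' : A ⊆ A') :
    PP G A n ≤ PP G' A' n := hB.2.2.2.1 G G' A A' n h h'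

include hB in
theorem PP_anti {G : Set Edg} {A : Set Vtx} {n n' : ℤ} (h : ∀ v ∈ A, col v ≤ n) (hn : n ≤ n') :
    PP G A n' ≤ PP G A n := hB.2.2.2.2.1 G A n n' h hn

include hB in
theorem PP_shift (k : ℤ) (G : Set Edg) (A : Set Vtx) (n : ℤ) :
    PP (shE k G) (shV k A) (n + 2*k) = PP G A n := hB.2.2.2.2.2.1 k G A n

include hSW in
/-- **ratio limit theorem** -/
theorem RL {a b : ℤ} {G G' : Set Edg} {A A' : Set Vtx} (hG : Out a b G) (hG' : Out a b G')
    (hA : ∃ r, ∀ v ∈ A, inB r v) (hA' : ∃ r, ∀ v ∈ A', inB r v)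
    (hp : ∀ᶠ n : ℕ in atTop, 0 < PP G A n) (hp' : ∀ᶠ n : ℕ in atTop, 0 < PP G' A' n) :
    ∃ l : ℝ, 0 < l ∧ Tendsto (fun n : ℕ => PP G A n / PP G' A' n) atTop (𝓝 l) := by
  obtain ⟨θ, ht0, ht1, hS⟩ := hSW
  obtain ⟨r1, h1⟩ := hG
  obtain ⟨r2, h2⟩ := hG'
  obtain ⟨r3, h3⟩ := hA
  obtain ⟨r4, h4⟩ := hA'
  obtain ⟨N0, hN0⟩ := eventually_atTop.mp (hp.and hp')
  apply ratio_lim
  · filter_upwards [hp, hp'] with n hn hn'
    positivity
  · intro ε he0 he1
    obtain ⟨K, hK⟩ := exists_pow_lt_of_lt_one he0 ht1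
    set m : ℕ := r1 + r2 + r3 + r4 + a.natAbs + b.natAbs + 1 with hm
    refine ⟨max N0 (2 * (100 * 64^K * m) + 1), fun n1 n2 hn1 hn2 => ?_⟩
    have e1 := hN0 n1 ((le_max_left _ _).trans hn1)
    have e2 := hN0 n2 ((le_max_left _ _).trans hn2)
    have f1 : 2 * (100 * 64^K * m) + 1 ≤ n1 := (le_max_right _ _).trans hn1
    have f2 : 2 * (100 * 64^K * m) + 1 ≤ n2 := (le_max_right _ _).trans hn2
    have key := hS K m (100 * 64^K * m) a b G G G' G' A A' n1 n2 (by omega)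
      (by rw [Int.abs_eq_natAbs]; exact_mod_cast (by omega : a.natAbs ≤ m))
      (by rw [Int.abs_eq_natAbs]; exact_mod_cast (by omega : b.natAbs ≤ m))
      (fun v hv => inB_mono (by omega) (h3 v hv)) (fun v hv => inB_mono (by omega) (h4 v hv))
      le_rfl (fun e _ => ⟨Iff.rfl, Iff.rfl⟩)
      (fun e he => by
        have g1 := h1 e (boxE_mono' (by omega) he)
        have g2 := h2 e (boxE_mono' (by omega) he)
        exact ⟨g1.trans g2.symm, g1.trans g2.symm⟩)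
      (fun e _ he => h1 e (boxE_mono' (by omega) he))
      (by exact_mod_cast f1) (by exact_mod_cast f2)
    have p1 := e1.1
    have p1' := e1.2
    have p2 := e2.1
    have p2' := e2.2
    rw [div_mul_eq_mul_div, div_le_div_iff₀ p1' p2']
    have : 0 ≤ PP G A n1 * PP G' A' n2 := by positivity
    nlinarith

theorem shE_Dm (k a b : ℤ) : shE k (Dm a b) = Dm (a + 2*k) (b + 2*k) := by
  ext ⟨x, y, t⟩
  unfold shE Dm DV col ht
  cases t <;> simp only [Set.mem_ofPred_eq, src_mk, tgt_false, tgt_true] <;>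
  constructor <;> rintro ⟨⟨h1, h2⟩, h3, h4⟩ <;>
  refine ⟨⟨fun h => ?_, fun h => ?_⟩, fun h => ?_, fun h => ?_⟩ <;>
  first
    | (have := h1 (by omega); omega)
    | (have := h2 (by omega); omega)
    | (have := h3 (by omega); omega)
    | (have := h4 (by omega); omega)

theorem shE_mono (k : ℤ) {G G' : Set Edg} (h : G ⊆ G') : shE k G ⊆ shE k G' :=
  fun _ he => h he

/-- monotone in the walls -/
theorem Dm_mono {a b a' b' : ℤ} (ha : a' ≤ a) (hb : b' ≤ b) : Dm a b ⊆ Dm a' b' := by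
  rintro e ⟨⟨h1, h2⟩, h3, h4⟩
  exact ⟨⟨fun h => hb.trans (h1 h), fun h => ha.trans (h2 h)⟩,
    fun h => hb.trans (h3 h), fun h => ha.trans (h4 h)⟩

theorem G1_sub : G1 ⊆ Dm 0 0 := by
  rintro e ⟨h1, h2, -⟩
  exact ⟨⟨fun _ => h1, fun _ => h1⟩, fun _ => h2, fun _ => h2⟩

theorem mem_boxE_false {r : ℕ} {x y : ℤ} : ((x, y, false) : Edg) ∈ boxE r ↔
    (-(r:ℤ) ≤ x ∧ x ≤ r) ∧ -(r:ℤ) ≤ y ∧ y < r := by
  unfold boxE
  rw [mem_RE_false]
  omega

theorem mem_boxE_true {r : ℕ} {x y : ℤ} : ((x, y, true) : Edg) ∈ boxE r ↔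
    (-(r:ℤ) ≤ x ∧ x < r) ∧ -(r:ℤ) ≤ y ∧ y ≤ r := by
  unfold boxE
  rw [mem_RE_true]
  omega

theorem G1_out : Out 0 2 G1 := by
  refine ⟨4, ?_⟩
  rintro ⟨x, y, _ | _⟩ he
  · rw [mem_boxE_false] at he
    unfold G1 Dm DV col ht
    simp only [Set.mem_ofPred_eq, src_mk, tgt_false]
    constructor
    · rintro ⟨h1, h2, h3⟩
      refine ⟨⟨fun h => ?_, fun h => ?_⟩, fun h => ?_, fun h => ?_⟩ <;> omega
    · rintro ⟨⟨h1, h2⟩, h3, h4⟩
      refine ⟨?_, ?_, ?_⟩ <;> omega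
  · rw [mem_boxE_true] at he
    unfold G1 Dm DV col ht
    simp only [Set.mem_ofPred_eq, src_mk, tgt_true]
    constructor
    · rintro ⟨h1, h2, h3⟩
      refine ⟨⟨fun h => ?_, fun h => ?_⟩, fun h => ?_, fun h => ?_⟩ <;> omega
    · rintro ⟨⟨h1, h2⟩, h3, h4⟩
      refine ⟨?_, ?_, ?_⟩ <;> omega


end

theorem x0_col : ∀ v ∈ ({x0} : Set Vtx), col v ≤ 1 := by
  intro v hv
  rw [Set.mem_singleton_iff] at hv
  subst hv
  unfold col x0
  norm_num

theorem x0_inB : ∃ r, ∀ v ∈ ({x0} : Set Vtx), inB r v := by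
  refine ⟨1, fun v hv => ?_⟩
  rw [Set.mem_singleton_iff] at hv
  subst hv
  unfold inB inR x0
  norm_num

theorem sh_x0 (k : ℤ) {v : Vtx} (hv : v ∈ shV k ({x0} : Set Vtx)) : v = (1 + k, -k) := by
  unfold shV x0 at hv
  obtain ⟨a, b⟩ := v
  simp only [Set.mem_ofPred_eq, Set.mem_singleton_iff, Prod.mk.injEq] at hv
  ext <;> simp only <;> omega

theorem sh_x0_inB (k : ℤ) {r : ℕ} (hr : k.natAbs + 1 ≤ r) : ∀ v ∈ shV k ({x0} : Set Vtx), inB r v := by
  intro v hv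
  rw [sh_x0 k hv]
  unfold inB inR
  simp only
  omega

section

variable (hSW : SWStm) (hB : PPBStm) (hE : ExStm)

include hB hE in
/-- a polynomial lower bound -/
theorem G1_low : ∃ c : ℝ, 0 < c ∧ ∀ n : ℕ, 1 ≤ n → c ≤ PP G1 {x0} n * n := by
  obtain ⟨c, hc, hT⟩ := hE
  have h1 : ∀ᶠ n : ℕ in atTop, c / 2 < PP G1 {((1:ℤ), (0:ℤ))} n * (n:ℝ)^((1:ℝ)/3) :=
    hT.eventually (lt_mem_nhds (by linarith))
  obtain ⟨N, hN⟩ := eventually_atTop.mp h1
  have h2 : ∀ n : ℕ, N ≤ n → 1 ≤ n → c / 2 ≤ PP G1 {x0} n * n := by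
    intro n hn hn1
    have h3 := hN n hn
    have h4 : (n:ℝ)^((1:ℝ)/3) ≤ n := by
      have : (1:ℝ) ≤ n := by exact_mod_cast hn1
      calc (n:ℝ)^((1:ℝ)/3) ≤ (n:ℝ)^(1:ℝ) := Real.rpow_le_rpow_of_exponent_le this (by norm_num)
        _ = n := Real.rpow_one _
    have h5 := PP_nonneg hB G1 {x0} n
    have h6 : PP G1 {x0} n * (n:ℝ)^((1:ℝ)/3) ≤ PP G1 {x0} n * n :=
      mul_le_mul_of_nonneg_left h4 h5
    have h7 : c / 2 < PP G1 {x0} n * (n:ℝ)^((1:ℝ)/3) := h3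
    linarith
  have h8 := h2 (N + 1) (by omega) (by omega)
  have h9 : 0 < PP G1 {x0} ((N + 1 : ℕ) : ℤ) := by
    by_contra h
    push Not at h
    have : (0:ℝ) ≤ ((N + 1 : ℕ) : ℝ) := by positivity
    nlinarith
  refine ⟨min (c/2) (PP G1 {x0} ((N + 1 : ℕ) : ℤ)), lt_min (by linarith) h9, fun n hn => ?_⟩
  rcases le_total N n with h | h
  · exact (min_le_left _ _).trans (h2 n h hn)
  · have h10 : PP G1 {x0} ((N + 1 : ℕ) : ℤ) ≤ PP G1 {x0} n :=
      PP_anti hB (fun v hv => (x0_col v hv).trans (by exact_mod_cast hn))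
        (by exact_mod_cast (by omega : n ≤ N + 1))
    have h11 : (1:ℝ) ≤ n := by exact_mod_cast hn
    have h12 := PP_nonneg hB G1 {x0} n
    calc _ ≤ PP G1 {x0} ((N + 1 : ℕ) : ℤ) := min_le_right _ _
      _ ≤ PP G1 {x0} n := h10
      _ ≤ PP G1 {x0} n * n := by nlinarith

include hB hE in
theorem G1_pos (n : ℤ) (hn : 1 ≤ n) : 0 < PP G1 {x0} n := by
  obtain ⟨c, hc, h⟩ := G1_low hB hE
  obtain ⟨m, rfl⟩ := Int.eq_ofNat_of_zero_le (by omega : 0 ≤ n)
  have h1 := h m (by omega)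
  by_contra h2
  push Not at h2
  have : (0:ℝ) ≤ m := by positivity
  have h3 : PP G1 {x0} (m:ℤ) * m ≤ 0 := by nlinarith
  have h4 : c ≤ 0 := h1.trans h3
  linarith

include hB hE in
theorem pos_of_G1 {G : Set Edg} (hG : G1 ⊆ G) {n : ℤ} (hn : 1 ≤ n) : 0 < PP G {x0} n :=
  (G1_pos hB hE n hn).trans_le (PP_mono hB hG le_rfl)

/-- the half-plane -/
def Hs (j : ℕ) : Set Edg := Dm (-2*(j:ℤ)) (-2*(j:ℤ))

theorem Hs_zero : Hs 0 = Dm 0 0 := by unfold Hs; norm_num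

theorem Hs_mono {i j : ℕ} (h : i ≤ j) : Hs i ⊆ Hs j := Dm_mono (by omega) (by omega)

theorem shE_Hs (j : ℕ) : shE (-(j:ℤ)) (Hs 0) = Hs j := by
  rw [Hs_zero, shE_Dm]
  unfold Hs
  congr 1 <;> ring

theorem G1_Hs (j : ℕ) : G1 ⊆ Hs j := G1_sub.trans (Hs_zero ▸ Hs_mono (Nat.zero_le j))

include hB in
/-- translation of the half-plane -/
theorem PP_Hs (j : ℕ) (n : ℤ) : PP (Hs j) (shV (-(j:ℤ)) {x0}) n = PP (Hs 0) {x0} (n + 2*j) := by
  rw [← shE_Hs, ← PP_shift hB (-(j:ℤ)) (Hs 0) {x0} (n + 2*j)]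
  congr 1
  ring

/-- the half-plane with the wall moved by `2J` outside of the box of radius `t` -/
def Ht (J t : ℕ) : Set Edg := Hs 0 ∪ (Hs J \ ↑(boxE t))

/-- the same for the lower half of the wall -/
def Lt (t : ℕ) : Set Edg := Hs 0 ∪ (Dm (-2) 0 \ ↑(boxE t))

theorem Lt_sub_Ht (t : ℕ) : Lt t ⊆ Ht 1 t := by
  apply Set.union_subset_union_right
  apply Set.sdiff_subset_sdiff_left
  exact Dm_mono (by norm_num) (by norm_num)

include hSW hB hE in
/-- polynomial upper bound -/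
theorem poly_up : ∃ C : ℝ, 0 < C ∧ ∀ j : ℕ, ∀ᶠ n : ℕ in atTop,
    PP (Hs j) {x0} n ≤ C * (j + 1) * PP (Hs 0) {x0} ((n:ℤ) + 2*j) := by
  obtain ⟨θ, ht0, ht1, hS⟩ := hSW
  obtain ⟨c, hc, hlow⟩ := G1_low hB hE
  refine ⟨30000 / (c * (1 - θ)), by have : 0 < 1 - θ := by linarith
                                    positivity, fun j => ?_⟩
  obtain ⟨m, hm⟩ : ∃ m : ℕ, m = 2 * j + 2 := ⟨_, rfl⟩
  obtain ⟨R, hR⟩ : ∃ R : ℕ, R = 6400 * m := ⟨_, rfl⟩
  obtain ⟨n', hn'⟩ : ∃ n' : ℕ, n' = 2 * R + 1 := ⟨_, rfl⟩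
  filter_upwards [eventually_ge_atTop n'] with n hn
  have key := hS 1 m R (-2*(j:ℤ)) (-2*(j:ℤ)) (Hs j) (Hs j) (Hs j) (Hs j) {x0}
    (shV (-(j:ℤ)) {x0}) n n' (by omega)
    (by rw [Int.abs_eq_natAbs]; exact_mod_cast (by omega : (-2*(j:ℤ)).natAbs ≤ m))
    (by rw [Int.abs_eq_natAbs]; exact_mod_cast (by omega : (-2*(j:ℤ)).natAbs ≤ m))
    (fun v hv => by
      rw [Set.mem_singleton_iff] at hv
      subst hv
      unfold inB inR x0
      simp only
      omega)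
    (sh_x0_inB _ (by omega))
    (by rw [hR]; norm_num) (fun e _ => ⟨Iff.rfl, Iff.rfl⟩) (fun e _ => ⟨Iff.rfl, Iff.rfl⟩)
    (fun e _ _ => Iff.rfl)
    (by omega) (by omega)
  rw [PP_Hs hB, PP_Hs hB] at key
  have h1 : 0 ≤ PP (Hs j) {x0} n := PP_nonneg hB _ _ _
  have h2 : 0 ≤ PP (Hs 0) {x0} ((n:ℤ) + 2*j) := PP_nonneg hB _ _ _
  have h3 : PP (Hs j) {x0} n' ≤ 1 := PP_le_one hB _ _ _
  have h4 : c ≤ PP (Hs 0) {x0} ((n':ℤ) + 2*j) * ((n' + 2*j : ℕ) : ℝ) := by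
    have h5 := hlow (n' + 2*j) (by omega)
    have h6 : PP G1 {x0} ((n' + 2*j : ℕ) : ℤ) ≤ PP (Hs 0) {x0} ((n':ℤ) + 2*j) := by
      have : ((n' + 2*j : ℕ) : ℤ) = (n':ℤ) + 2*j := by push_cast; ring
      rw [this]
      exact PP_mono hB (G1_Hs 0) le_rfl
    have h7 : (0:ℝ) ≤ ((n' + 2*j : ℕ) : ℝ) := by positivity
    calc c ≤ _ := h5
      _ ≤ _ := mul_le_mul_of_nonneg_right h6 h7
  have h8 : ((n' + 2*j : ℕ) : ℝ) ≤ 30000 * (j + 1) := by
    have : n' + 2*j ≤ 30000 * (j + 1) := by omega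
    exact_mod_cast this
  set p := PP (Hs 0) {x0} ((n':ℤ) + 2*j) with hp
  set w := PP (Hs j) {x0} n with hw
  set v := PP (Hs 0) {x0} ((n:ℤ) + 2*j) with hv
  have hp0 : 0 ≤ p := PP_nonneg hB _ _ _
  have h9 : w * p * (1 - θ) ≤ v := by
    have : PP (Hs j) {x0} n' * v ≤ v := by nlinarith
    rw [pow_one] at key
    nlinarith
  have h10 : c ≤ p * (30000 * (j + 1)) := h4.trans (mul_le_mul_of_nonneg_left h8 hp0)
  have h11 : 0 < 1 - θ := by linarith
  rw [div_mul_eq_mul_div, div_mul_eq_mul_div, le_div_iff₀ (by positivity)]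
  calc w * (c * (1 - θ)) ≤ w * (p * (30000 * (j + 1)) * (1 - θ)) := by
        apply mul_le_mul_of_nonneg_left _ h1
        exact mul_le_mul_of_nonneg_right h10 h11.le
    _ = 30000 * (j + 1) * (w * p * (1 - θ)) := by ring
    _ ≤ 30000 * (j + 1) * v := by
        apply mul_le_mul_of_nonneg_left h9
        positivity


theorem boxE_shift {R j : ℕ} {e : Edg} (he : e ∈ boxE R) :
    ((e.1 - (-(j:ℤ)), e.2.1 + (-(j:ℤ)), e.2.2) : Edg) ∈ boxE (R + j) := by
  obtain ⟨x, y, _ | _⟩ := e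
  · rw [mem_boxE_false] at he
    rw [mem_boxE_false]
    push_cast
    omega
  · rw [mem_boxE_true] at he
    rw [mem_boxE_true]
    push_cast
    omega

theorem shE_Ht {J R j : ℕ} : shE (-(j:ℤ)) (Ht J (R + j)) ⊆ Hs j ∪ (Hs (j+J) \ ↑(boxE R)) := by
  intro e he
  rcases he with he | ⟨he, he2⟩
  · left
    rw [← shE_Hs]
    exact he
  · right
    refine ⟨?_, fun h => he2 (boxE_shift h)⟩
    have h1 : e ∈ shE (-(j:ℤ)) (Hs J) := he
    rw [Hs, shE_Dm] at h1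
    rw [Hs]
    convert h1 using 2 <;> push_cast <;> ring

include hSW hB hE in
theorem amp_chain {J : ℕ} {lam μ : ℝ} (hm1 : 1 < μ) (hm2 : μ < lam)
    (H : ∀ t : ℕ, ∀ᶠ n : ℕ in atTop,
      lam * PP (Hs 0) {x0} ((n:ℤ)+2*J) ≤ PP (Ht J t) {x0} n) :
    ∀ i : ℕ, ∃ K : Set Edg, (∃ r : ℕ, ∀ e ∉ boxE r, (e ∈ K ↔ e ∈ Hs (J*i))) ∧ K ⊆ Hs (J*i) ∧
      ∀ᶠ n : ℕ in atTop, μ^i * PP (Hs 0) {x0} ((n:ℤ) + 2*((J*i : ℕ) : ℤ)) ≤ PP K {x0} n := by
  intro i
  induction i with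
  | zero =>
    refine ⟨Hs 0, ⟨0, fun e _ => by simp⟩, by simp, Eventually.of_forall fun n => ?_⟩
    simp
  | succ i ih =>
    rw [Nat.mul_succ]
    generalize hj : J * i = j at ih ⊢
    obtain ⟨K, ⟨r, hr⟩, hK, hev⟩ := ih
    have hSW' := hSW
    obtain ⟨θ, ht0, ht1, hS⟩ := hSW'
    have hlam : 0 < lam := by linarith
    obtain ⟨k, hk⟩ := exists_pow_lt_of_lt_one (x := 1 - μ / lam)
      (by rw [sub_pos, div_lt_one hlam]; exact hm2) ht1
    have hk2 : μ ≤ lam * (1 - θ^k) := by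
      have : μ / lam ≤ 1 - θ^k := by linarith
      rw [div_le_iff₀ hlam] at this
      linarith
    obtain ⟨m, hm⟩ : ∃ m : ℕ, m = r + 2 * j + 2 := ⟨_, rfl⟩
    obtain ⟨R, hR⟩ : ∃ R : ℕ, R = 100 * 64^k * m := ⟨_, rfl⟩
    refine ⟨K ∪ (Hs (j+J) \ ↑(boxE R)), ⟨R + r, fun e he => ?_⟩, ?_, ?_⟩
    · have e1 : e ∉ boxE R := boxE_mono' (by omega) he
      have e2 : e ∉ boxE r := boxE_mono' (by omega) he
      constructor
      · rintro (h | h)
        · exact Hs_mono (Nat.le_add_right j J) (hK h)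
        · exact h.1
      · intro h
        exact Or.inr ⟨h, fun h' => e1 (by exact_mod_cast h')⟩
    · rintro e (h | h)
      · exact Hs_mono (Nat.le_add_right j J) (hK h)
      · exact h.1
    · have v1 := (tendsto_add_atTop_nat (2*J)).eventually hev
      have v2 := (tendsto_add_atTop_nat (2*j)).eventually (H (R + j))
      filter_upwards [v1, v2, eventually_ge_atTop (2 * R + 1)] with n w1 w2 hn
      have key := hS k m R (-2*(j:ℤ)) (-2*(j:ℤ)) K (K ∪ (Hs (j+J) \ ↑(boxE R))) (Hs j)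
        (Hs j ∪ (Hs (j+J) \ ↑(boxE R))) {x0} (shV (-(j:ℤ)) {x0}) ((n:ℤ) + 2*J) n (by omega)
        (by rw [Int.abs_eq_natAbs]; exact_mod_cast (by omega : (-2*(j:ℤ)).natAbs ≤ m))
        (by rw [Int.abs_eq_natAbs]; exact_mod_cast (by omega : (-2*(j:ℤ)).natAbs ≤ m))
        (fun v hv => by
          rw [Set.mem_singleton_iff] at hv
          subst hv
          unfold inB inR x0
          simp only
          omega)
        (sh_x0_inB _ (by omega)) (by omega)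
        (fun e he => by
          constructor
          · constructor
            · exact fun h => Or.inl h
            · rintro (h | h)
              · exact h
              · exact absurd (by exact_mod_cast he) h.2
          · constructor
            · exact fun h => Or.inl h
            · rintro (h | h)
              · exact h
              · exact absurd (by exact_mod_cast he) h.2)
        (fun e he => by
          have h1 := hr e (boxE_mono' (by omega) he)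
          refine ⟨h1, ?_⟩
          simp only [Set.mem_union]
          rw [h1])
        (fun e _ he => hr e (boxE_mono' (by omega) he))
        (by omega) (by omega)
      have z1 : PP (Hs j) (shV (-(j:ℤ)) {x0}) ((n:ℤ) + 2*J) = PP (Hs 0) {x0} ((n:ℤ) + 2*J + 2*j) :=
        PP_Hs hB j _
      have z2 : PP (Ht J (R + j)) {x0} ((n:ℤ) + 2*j) ≤
          PP (Hs j ∪ (Hs (j+J) \ ↑(boxE R))) (shV (-(j:ℤ)) {x0}) n := by
        rw [← PP_shift hB (-(j:ℤ)) (Ht J (R + j)) {x0} ((n:ℤ) + 2*j)]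
        have : (n:ℤ) + 2*j + 2 * (-(j:ℤ)) = n := by ring
        rw [this]
        exact PP_mono hB shE_Ht le_rfl
      set p := PP (Hs 0) {x0} ((n:ℤ) + 2*J + 2*j) with hp
      have hp0 : 0 < p := pos_of_G1 hB hE (G1_Hs 0) (by omega)
      have w1' : μ^i * p ≤ PP K {x0} ((n:ℤ) + 2*J) := by
        have : (((n + 2*J : ℕ) : ℤ)) = (n:ℤ) + 2*J := by push_cast; ring
        rw [this] at w1
        exact w1
      have w2' : lam * p ≤ PP (Hs j ∪ (Hs (j+J) \ ↑(boxE R))) (shV (-(j:ℤ)) {x0}) n := by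
        refine le_trans ?_ z2
        have e1 : (((n + 2*j : ℕ) : ℤ)) = (n:ℤ) + 2*j := by push_cast; ring
        rw [e1] at w2
        have e2 : (n:ℤ) + 2*j + 2*J = (n:ℤ) + 2*J + 2*j := by ring
        rw [e2] at w2
        exact w2
      rw [z1] at key
      have hth : θ^k ≤ 1 := pow_le_one₀ ht0 ht1.le
      have hth0 : 0 ≤ θ^k := pow_nonneg ht0 k
      set X := PP K {x0} ((n:ℤ) + 2*J) with hX
      set Y := PP (Hs j ∪ (Hs (j+J) \ ↑(boxE R))) (shV (-(j:ℤ)) {x0}) n with hY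
      set Z := PP (K ∪ (Hs (j+J) \ ↑(boxE R))) {x0} n with hZ
      have hmj : 0 < μ^i := by positivity
      have k1 : μ^i * p * (lam * p) ≤ X * Y :=
        mul_le_mul w1' w2' (by positivity) ((by positivity : (0:ℝ) ≤ μ^i * p).trans w1')
      have k2 : X * Y * (1 - θ^k) ≤ Z * p := by nlinarith
      have k3 : μ^i * p * (lam * p) * (1 - θ^k) ≤ Z * p :=
        (mul_le_mul_of_nonneg_right k1 (by linarith)).trans k2
      have k4 : μ^i * p * (lam * (1 - θ^k)) ≤ Z := by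
        have : (μ^i * p * (lam * (1 - θ^k))) * p ≤ Z * p := by nlinarith
        exact le_of_mul_le_mul_right this hp0
      have k5 : μ^i * p * μ ≤ μ^i * p * (lam * (1 - θ^k)) :=
        mul_le_mul_of_nonneg_left hk2 (by positivity)
      have e3 : (n:ℤ) + 2 * ((j + J : ℕ) : ℤ) = (n:ℤ) + 2*J + 2*j := by push_cast; ring
      rw [e3, ← hp]
      calc μ^(i+1) * p = μ^i * p * μ := by ring
        _ ≤ _ := k5
        _ ≤ _ := k4

include hSW hB hE in
theorem amp_false {J : ℕ} {lam : ℝ} (h1 : 1 < lam)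
    (H : ∀ t : ℕ, ∀ᶠ n : ℕ in atTop,
      lam * PP (Hs 0) {x0} ((n:ℤ)+2*J) ≤ PP (Ht J t) {x0} n) :
    False := by
  obtain ⟨μ, hm1, hm2⟩ := exists_between h1
  obtain ⟨C0, hC0, hup⟩ := poly_up hSW hB hE
  obtain ⟨C, hC, hCC⟩ : ∃ C : ℝ, 0 < C ∧ C = C0 * (J + 1) := ⟨C0 * (J + 1), by positivity, rfl⟩
  have key : ∀ j : ℕ, μ^j ≤ C * (j + 1) := by
    intro j
    obtain ⟨K, -, hK, hev⟩ := amp_chain hSW hB hE hm1 hm2 H j
    obtain ⟨n, w1, w2, w3⟩ := (hev.and ((hup (J*j)).and (eventually_ge_atTop 1))).exists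
    have hp : 0 < PP (Hs 0) {x0} ((n:ℤ) + 2*((J*j : ℕ) : ℤ)) :=
      pos_of_G1 hB hE (G1_Hs 0) (by omega)
    have h3 : μ^j * PP (Hs 0) {x0} ((n:ℤ) + 2*((J*j : ℕ) : ℤ)) ≤
        C0 * (((J*j : ℕ) : ℝ) + 1) * PP (Hs 0) {x0} ((n:ℤ) + 2*((J*j : ℕ) : ℤ)) :=
      w1.trans ((PP_mono hB hK le_rfl).trans w2)
    refine (le_of_mul_le_mul_right h3 hp).trans ?_
    rw [hCC]
    push_cast
    have : (0:ℝ) ≤ J := by positivity
    have : (0:ℝ) ≤ j := by positivity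
    nlinarith
  -- exponential growth beats linear growth
  have hT : Tendsto (fun j : ℕ => ((j:ℝ))^1 / μ^j) atTop (𝓝 0) :=
    tendsto_pow_const_div_const_pow_of_one_lt 1 hm1
  have hT2 : Tendsto (fun j : ℕ => (1:ℝ) / μ^j) atTop (𝓝 0) := by
    have := tendsto_pow_const_div_const_pow_of_one_lt 0 hm1
    simpa using this
  have hT3 : Tendsto (fun j : ℕ => C * (((j:ℝ))^1 / μ^j) + C * ((1:ℝ) / μ^j)) atTop
      (𝓝 (C * 0 + C * 0)) := (hT.const_mul C).add (hT2.const_mul C)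
  have hev := hT3.eventually (gt_mem_nhds (show C * 0 + C * 0 < (1:ℝ) by norm_num))
  obtain ⟨j, hj⟩ := hev.exists
  have h4 := key j
  have hmj : 0 < μ^j := by positivity
  have h5 : C * (((j:ℝ))^1 / μ^j) + C * ((1:ℝ) / μ^j) = C * (j + 1) / μ^j := by
    field_simp
  rw [h5, div_lt_one hmj] at hj
  linarith


include hSW hB hE in
/-- far away changes of the wall do not matter -/
theorem kap_le (J : ℕ) {lam : ℝ} (h1 : 1 < lam) : ∃ t : ℕ, ∀ᶠ n : ℕ in atTop,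
    PP (Ht J t) {x0} n ≤ lam * PP (Hs 0) {x0} n := by
  obtain ⟨l2, g1, g2⟩ := exists_between h1
  by_contra hcon
  push Not at hcon
  apply amp_false hSW hB hE (J := J) g1
  intro t
  -- the ratio converges
  have hout : Out (-2*(J:ℤ)) (-2*(J:ℤ)) (Ht J t) := by
    refine ⟨t, fun e he => ?_⟩
    constructor
    · rintro (h | h)
      · exact Hs_mono (Nat.zero_le J) h
      · exact h.1
    · intro h
      exact Or.inr ⟨h, fun h' => he (by exact_mod_cast h')⟩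
  have hout2 : Out (-2*(J:ℤ)) (-2*(J:ℤ)) (Hs J) := ⟨0, fun e _ => Iff.rfl⟩
  have hp1 : ∀ᶠ n : ℕ in atTop, 0 < PP (Ht J t) {x0} n := by
    filter_upwards [eventually_ge_atTop 1] with n hn
    exact pos_of_G1 hB hE ((G1_Hs 0).trans Set.subset_union_left) (by omega)
  have hp2 : ∀ᶠ n : ℕ in atTop, 0 < PP (Hs J) (shV (-(J:ℤ)) {x0}) n := by
    filter_upwards [eventually_ge_atTop 1] with n hn
    rw [PP_Hs hB]
    exact pos_of_G1 hB hE (G1_Hs 0) (by omega)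
  obtain ⟨l, hl, hT⟩ := RL hSW hout hout2 x0_inB ⟨_, sh_x0_inB _ le_rfl⟩ hp1 hp2
  -- the limit is at least lam
  have hle : lam ≤ l := by
    by_contra hlt
    push Not at hlt
    have hev := hT.eventually (gt_mem_nhds hlt)
    apply (hcon t)
    filter_upwards [hev, hp2, eventually_ge_atTop 1] with n w1 w2 w3
    rw [div_lt_iff₀ w2, PP_Hs hB] at w1
    have h3 : PP (Hs 0) {x0} ((n:ℤ) + 2*J) ≤ PP (Hs 0) {x0} n :=
      PP_anti hB (fun v hv => (x0_col v hv).trans (by omega)) (by omega)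
    have : 0 < lam := by linarith
    nlinarith
  have hev := hT.eventually (lt_mem_nhds (g2.trans_le hle))
  filter_upwards [hev, hp2] with n w1 w2
  rw [lt_div_iff₀ w2, PP_Hs hB] at w1
  exact w1.le

end

/-- convergence from approximations up to factors close to one -/
theorem sandwich_lim {f : ℕ → ℝ} (h : ∀ lam : ℝ, 1 < lam → ∃ q : ℝ, 0 < q ∧ ∃ b : ℕ → ℝ,
    Tendsto b atTop (𝓝 q) ∧ ∀ᶠ n in atTop, b n ≤ lam * f n ∧ f n ≤ lam * b n) :
    ∃ l : ℝ, 0 < l ∧ Tendsto f atTop (𝓝 l) := by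
  apply ratio_lim
  · obtain ⟨q, hq, b, hb, hev⟩ := h 2 (by norm_num)
    filter_upwards [hb.eventually (lt_mem_nhds hq), hev] with n h1 h2
    linarith [h2.1]
  · intro ε he0 he1
    set lam : ℝ := 1 + ε / 16 with hlam
    have hl1 : 1 < lam := by linarith
    obtain ⟨q, hq, b, hb, hev⟩ := h lam hl1
    have e1 := hb.eventually (gt_mem_nhds (show q < lam * q by nlinarith))
    have e2 := hb.eventually (lt_mem_nhds (show q / lam < q by
      rw [div_lt_iff₀ (by linarith)]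
      nlinarith))
    obtain ⟨N, hN⟩ := eventually_atTop.mp (e1.and (e2.and hev))
    refine ⟨N, fun n1 n2 hn1 hn2 => ?_⟩
    obtain ⟨a1, -, -, a4⟩ := hN n1 hn1
    obtain ⟨-, b2, b3, -⟩ := hN n2 hn2
    have hl0 : 0 < lam := by linarith
    have c1 : f n1 ≤ lam^2 * q := by nlinarith
    have c2 : q ≤ lam^2 * f n2 := by
      rw [div_lt_iff₀ hl0] at b2
      nlinarith
    have c3 : lam^4 * (1 - ε) ≤ 1 := by
      have h15 : lam^4 ≤ 1 + 15 * (ε / 16) := by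
        rw [hlam]
        have hx0 : 0 ≤ ε / 16 := by linarith
        have hx1 : ε / 16 ≤ 1 := by linarith
        nlinarith [mul_nonneg hx0 (sub_nonneg.mpr hx1), pow_nonneg hx0 2, pow_nonneg hx0 3,
          mul_nonneg (pow_nonneg hx0 2) (sub_nonneg.mpr hx1),
          mul_nonneg (pow_nonneg hx0 3) (sub_nonneg.mpr hx1)]
      nlinarith
    have c4 : f n1 * (1 - ε) * lam^2 ≤ lam^2 * f n2 := by
      calc f n1 * (1 - ε) * lam^2 ≤ lam^2 * q * (1 - ε) * lam^2 := by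
            apply mul_le_mul_of_nonneg_right _ (by positivity)
            exact mul_le_mul_of_nonneg_right c1 (by linarith)
        _ = lam^4 * (1 - ε) * q := by ring
        _ ≤ 1 * q := mul_le_mul_of_nonneg_right c3 hq.le
        _ ≤ lam^2 * f n2 := by linarith
    have hl2 : 0 < lam^2 := by positivity
    have : lam^2 * (f n1 * (1 - ε)) ≤ lam^2 * f n2 := by linarith
    exact le_of_mul_le_mul_left this hl2

end Pool.Agent.U167.SA
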