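import Pool.Agent.U167.SA.F3

/-! Project SA: local events, finite sets. -/

set_option autoImplicit false

namespace Pool.Agent.U167.SA

open H974 Finset Filter Topology MeasureTheory

theorem edge_box (e : Edg) : ∃ r : ℕ, e ∈ boxE r := by
  obtain ⟨x, y, _ | _⟩ := e
  · refine ⟨x.natAbs + y.natAbs + 1, ?_⟩
    rw [mem_boxE_false]
    omega
  · refine ⟨x.natAbs + y.natAbs + 1, ?_⟩
    rw [mem_boxE_true]
    omega

theorem finite_box {S : Set Edg} (hS : S.Finite) : ∃ r : ℕ, ∀ e ∈ S, e ∈ boxE r := by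
  choose f hf using edge_box
  obtain ⟨r, hr⟩ := (hS.image f).bddAbove
  exact ⟨r, fun e he => boxE_mono (hr (Set.mem_image_of_mem f he)) (hf e)⟩

theorem finite_inB {A : Set Vtx} (hA : A.Finite) : ∃ r : ℕ, ∀ v ∈ A, inB r v := by
  obtain ⟨r, hr⟩ := (hA.image (fun v : Vtx => v.1.natAbs + v.2.natAbs)).bddAbove
  refine ⟨r, fun v hv => ?_⟩
  have : v.1.natAbs + v.2.natAbs ≤ r := hr (Set.mem_image_of_mem _ hv)
  unfold inB inR
  omega

theorem symm_box {G D : Set Edg} (h : ((G \ D) ∪ (D \ G)).Finite) :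
    ∃ r : ℕ, ∀ e ∉ boxE r, (e ∈ G ↔ e ∈ D) := by
  obtain ⟨r, hr⟩ := finite_box h
  refine ⟨r, fun e he => ?_⟩
  by_contra hcon
  apply he
  apply hr
  by_cases h1 : e ∈ G
  · exact Or.inl ⟨h1, fun h2 => hcon (iff_of_true h1 h2)⟩
  · refine Or.inr ⟨?_, h1⟩
    by_contra h2
    exact hcon (iff_of_false h1 h2)

open Classical in
theorem local_box {E : Set (Edg → Bool)}
    (hE : ∃ T : Finset Edg, ∀ ω ω' : Edg → Bool, (∀ e ∈ T, ω e = ω' e) → (ω ∈ E ↔ ω' ∈ E)) :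
    ∃ (m : ℕ) (W : Finset Edg → Prop), ∀ ω : Edg → Bool,
      ω ∈ E ↔ W ((boxE m).filter (fun e => ω e = true)) := by
  obtain ⟨T, hT⟩ := hE
  obtain ⟨m, hm⟩ := finite_box (S := (↑T : Set Edg)) T.finite_toSet
  refine ⟨m, fun η => (fun e => decide (e ∈ η)) ∈ E, fun ω => ?_⟩
  apply hT
  intro e he
  have h1 : e ∈ boxE m := hm e (by exact_mod_cast he)
  cases h : ω e
  · symm
    rw [decide_eq_false_iff_not, Finset.mem_filter]
    rintro ⟨-, h2⟩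
    rw [h] at h2
    exact Bool.false_ne_true h2
  · symm
    rw [decide_eq_true_iff, Finset.mem_filter]
    exact ⟨h1, h⟩

theorem rough_const {w : ℤ → ℤ} (h1 : ∃ J : ℤ, ∀ h, |w h| ≤ J)
    (h2 : {h : ℤ | 1 < |w (h + 1) - w h|}.Finite) :
    ∃ s0 : ℕ, (∀ h, |w h| ≤ s0) ∧ ∀ h : ℤ, (s0:ℤ) ≤ |h| → |w (h+1) - w h| ≤ 1 := by
  obtain ⟨J, hJ⟩ := h1
  obtain ⟨r, hr⟩ := (h2.image Int.natAbs).bddAbove
  refine ⟨J.natAbs + r + 1, fun h => ?_, fun h hh => ?_⟩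
  · have := hJ h
    omega
  · by_contra hcon
    push Not at hcon
    have : h.natAbs ≤ r := hr (Set.mem_image_of_mem _ hcon)
    rw [Int.abs_eq_natAbs] at hh
    omega

end Pool.Agent.U167.SA
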