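import Pool.Agent.U167.SA.Stm8

/-! Project SA (helper167): weighted form of LW2. -/

set_option autoImplicit false

namespace Pool.Agent.U167.SA

open H974 Finset Filter Topology MeasureTheory

/-- **LW2W** -/
def LW2WStm : Prop := PosStm → MeaStm → TwoStm → BndStm → IndStm → SumStm →
    ∀ α : ℝ, 0 < α → FactP D0 α → ∀ c0 : ℝ, 0 < c0 →
    Tendsto (fun n : ℕ => PE 0 (fun _ => True) D0 {((0:ℤ), (0:ℤ))} n * (n:ℝ)^((1:ℝ)/3)) atTop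
      (𝓝 c0) →
    ∀ (m : ℕ) (W : Finset Edg → Prop) (A : Set Vtx) (c : ℝ), (∃ r, ∀ v ∈ A, inB r v) →
    Tendsto (fun n : ℕ => PE m W D0 A n * (n:ℝ)^((1:ℝ)/3)) atTop (𝓝 c) →
    ∀ ε : ℝ, 0 < ε → ∃ N : ℕ, ∀ n : ℕ, N ≤ n → ∀ a : ℕ → ℝ, (∀ k, |a k| ≤ 1) →
      ∫ ω, (∑ k ∈ range n, a k * ((XE m W A n k).indicator (fun _ => (1:ℝ)) ω -
        c / c0 * (X0 n k).indicator (fun _ => (1:ℝ)) ω))^2 ∂percE ≤
      ε * (2 * (n:ℝ) + 1)^((4:ℝ)/3)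

end Pool.Agent.U167.SA
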