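import Pool.Agent.U167.SA.Fact2
import Pool.Agent.U167.SA.Stm9
import Pool.Agent.U416.SA.IND
import Pool.Agent.U402.SA.POS
import Pool.Agent.U446.SA.SLU
import Pool.Agent.U30.SA.STA
import Pool.Agent.U600.SA.SUM
import Pool.Agent.U925.SA.TWO
import Pool.Agent.U15.SA.MEA
import Pool.Agent.U61.SA.BND
import Pool.Agent.H980R2.Cont.Mom

/-! Project SA: contact patterns, assembly. -/

set_option autoImplicit false

namespace Pool.Agent.U167.SA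

open H974 Finset Filter Topology MeasureTheory

theorem d0_bd : ∀ h : ℤ, |(fun _ : ℤ => (0:ℤ)) h| ≤ ((0:ℕ):ℤ) := fun h => by simp
theorem d0_jp : ∀ h : ℤ, (((0:ℕ)):ℤ) ≤ |h| → |(fun _ : ℤ => (0:ℤ)) (h+1) - (fun _ : ℤ => (0:ℤ)) h| ≤ 1 :=
  fun h _ => by simp

theorem a_FD0 : ∃ α : ℝ, 0 < α ∧ FactP D0 α := by
  obtain ⟨α, h1, -, h3⟩ := fact_one (a_SWEW (w := fun _ => 0) (s0 := 0) d0_bd d0_jp)
  exact ⟨α, h1, h3⟩

theorem reach_line (n : ℕ) : Reach D0 ((0:ℤ), (0:ℤ)) ((n:ℤ), (0:ℤ)) := by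
  induction n with
  | zero => exact Reach.refl _ _
  | succ n ih =>
    refine ih.trans (Adj.reach ⟨((n:ℤ), (0:ℤ), true), ?_, Or.inl ⟨?_, ?_⟩⟩)
    · unfold D0 Dw col
      simp only [Set.mem_ofPred_eq, src_mk, tgt_true]
      omega
    · rfl
    · rw [tgt_true]; push_cast; rfl

theorem a_F3D (m : ℕ) (W : Finset Edg → Prop) {A : Set Vtx} (hA : ∃ r, ∀ v ∈ A, inB r v) :
    ∃ c : ℝ, 0 ≤ c ∧ Tendsto (fun n : ℕ => PE m W D0 A n * (n:ℝ)^((1:ℝ)/3)) atTop (𝓝 c) ∧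
      ((∃ᶠ n : ℕ in atTop, 0 < PE m W D0 A n) → 0 < c) :=
  a_F3 a_UNIW (w := fun _ => 0) (s0 := 0) d0_bd d0_jp (G := D0) ⟨0, fun _ _ => Iff.rfl⟩ hA m W

theorem zero_inB : ∃ r : ℕ, ∀ v ∈ ({((0:ℤ), (0:ℤ))} : Set Vtx), inB r v := by
  refine ⟨0, ?_⟩
  rintro v rfl
  unfold inB inR
  simp

theorem a_c0 : ∃ c0 : ℝ, 0 < c0 ∧ Tendsto (fun n : ℕ =>
    PE 0 (fun _ => True) D0 {((0:ℤ), (0:ℤ))} n * (n:ℝ)^((1:ℝ)/3)) atTop (𝓝 c0) := by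
  obtain ⟨c, -, h2, h3⟩ := a_F3D 0 (fun _ => True) zero_inB
  refine ⟨c, h3 (Eventually.frequently (Eventually.of_forall fun n => ?_)), h2⟩
  rw [PEt]
  refine a_PPB.2.2.2.2.2.2 _ _ _ ⟨((0:ℤ), (0:ℤ)), rfl, ((n:ℤ), (0:ℤ)), ?_, reach_line n⟩
  unfold col
  simp

theorem XE_meas (m : ℕ) (W : Finset Edg → Prop) (A : Set Vtx) (n : ℕ) (k : ℤ) :
    MeasurableSet (XE m W A n k) := (Pool.Agent.U15.SA.t_MEA m W A n k).1

open Classical in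
theorem NN_sum (m : ℕ) (W : Finset Edg → Prop) (A : Set Vtx) (n : ℕ) (ω : Edg → Bool) :
    NN m W A n ω = ∑ k ∈ range n, (XE m W A n k).indicator (fun _ => (1:ℝ)) ω := by
  unfold NN
  rw [Finset.card_filter]
  push_cast
  apply Finset.sum_congr rfl
  intro k _
  simp only [Set.indicator_apply]

theorem NN_meas (m : ℕ) (W : Finset Edg → Prop) (A : Set Vtx) (n : ℕ) :
    Measurable (NN m W A n) := by
  have : NN m W A n = fun ω => ∑ k ∈ range n, (XE m W A n k).indicator (fun _ => (1:ℝ)) ω := by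
    funext ω
    exact NN_sum m W A n ω
  rw [this]
  exact Finset.measurable_sum _ fun k _ => measurable_const.indicator (XE_meas m W A n k)

open Classical in
theorem NN_bd (m : ℕ) (W : Finset Edg → Prop) (A : Set Vtx) (n : ℕ) (ω : Edg → Bool) :
    0 ≤ NN m W A n ω ∧ NN m W A n ω ≤ n := by
  unfold NN
  refine ⟨by positivity, ?_⟩
  have := Finset.card_filter_le (range n) (fun k : ℕ => ω ∈ XE m W A n (k:ℤ))
  rw [card_range] at this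
  exact_mod_cast this

/-- unweighted form -/
theorem lw2_of (h : LW2WStm) {c0 c : ℝ} (hc0 : 0 < c0)
    (hT0 : Tendsto (fun n : ℕ => PE 0 (fun _ => True) D0 {((0:ℤ), (0:ℤ))} n * (n:ℝ)^((1:ℝ)/3))
      atTop (𝓝 c0)) (m : ℕ) (W : Finset Edg → Prop) {A : Set Vtx} (hA : ∃ r, ∀ v ∈ A, inB r v)
    (hT : Tendsto (fun n : ℕ => PE m W D0 A n * (n:ℝ)^((1:ℝ)/3)) atTop (𝓝 c)) :
    (∀ ε : ℝ, 0 < ε → ∃ N : ℕ, ∀ n : ℕ, N ≤ n → ∀ a : ℕ → ℝ, (∀ k, |a k| ≤ 1) →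
      ∫ ω, (∑ k ∈ range n, a k * ((XE m W A n k).indicator (fun _ => (1:ℝ)) ω -
        c / c0 * (X0 n k).indicator (fun _ => (1:ℝ)) ω))^2 ∂percE ≤
      ε * (2 * (n:ℝ) + 1)^((4:ℝ)/3)) ∧
    Tendsto (fun n : ℕ => (∫ ω, (NN m W A n ω - c / c0 * N0 n ω)^2 ∂percE) /
      ((2 * (n:ℝ) + 1)^((2:ℝ)/3))^2) atTop (𝓝 0) := by
  obtain ⟨α, hα, hF⟩ := a_FD0
  have hW := h Pool.Agent.U402.SA.t_POS Pool.Agent.U15.SA.t_MEA Pool.Agent.U925.SA.t_TWO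
    Pool.Agent.U61.SA.t_BND Pool.Agent.U416.SA.t_IND Pool.Agent.U600.SA.t_SUM α hα hF c0 hc0 hT0
    m W A c hA hT
  refine ⟨hW, ?_⟩
  have hnn : ∀ n : ℕ, 0 ≤ (∫ ω, (NN m W A n ω - c / c0 * N0 n ω)^2 ∂percE) /
      ((2 * (n:ℝ) + 1)^((2:ℝ)/3))^2 := fun n =>
    div_nonneg (integral_nonneg fun ω => sq_nonneg _) (by positivity)
  rw [Metric.tendsto_atTop]
  intro ε hε
  obtain ⟨N, hN⟩ := hW (ε/2) (half_pos hε)
  refine ⟨N, fun n hn => ?_⟩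
  rw [Real.dist_eq, sub_zero, abs_of_nonneg (hnn n)]
  have h1 := hN n hn (fun _ => 1) (fun _ => by simp)
  have h2 : ∀ ω, (∑ k ∈ range n, (1:ℝ) * ((XE m W A n k).indicator (fun _ => (1:ℝ)) ω -
        c / c0 * (X0 n k).indicator (fun _ => (1:ℝ)) ω)) = NN m W A n ω - c / c0 * N0 n ω := by
    intro ω
    rw [NN_sum, N0, NN_sum, Finset.mul_sum, ← Finset.sum_sub_distrib]
    exact Finset.sum_congr rfl fun k _ => one_mul _
  simp only [h2] at h1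
  have h3 : ((2 * (n:ℝ) + 1)^((2:ℝ)/3))^2 = (2 * (n:ℝ) + 1)^((4:ℝ)/3) := by
    rw [← Real.rpow_natCast, ← Real.rpow_mul (by positivity)]
    norm_num
  rw [h3]
  have h4 : 0 < (2 * (n:ℝ) + 1)^((4:ℝ)/3) := by positivity
  rw [div_lt_iff₀ h4]
  nlinarith

theorem FX_cont : Continuous FX := by
  unfold FX
  refine Continuous.div_const ?_ _
  exact intervalIntegral.continuous_primitive
    (fun a b => (by fun_prop : Continuous fun x : ℝ => Real.exp (-x^3)).intervalIntegrable a b) 0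

theorem FX_zero : FX 0 = 0 := by
  unfold FX
  simp

/-- joint law -/
theorem law_of (h : LW2WStm) {c0 : ℝ} (hc0 : 0 < c0)
    (hT0 : Tendsto (fun n : ℕ => PE 0 (fun _ => True) D0 {((0:ℤ), (0:ℤ))} n * (n:ℝ)^((1:ℝ)/3))
      atTop (𝓝 c0)) (ι : Type) [Fintype ι] [Nonempty ι] (m : ι → ℕ) (W : ι → Finset Edg → Prop)
    (A : ι → Set Vtx) (c : ι → ℝ) (hA : ∀ i, ∃ r, ∀ v ∈ A i, inB r v)
    (hT : ∀ i, Tendsto (fun n : ℕ => PE (m i) (W i) D0 (A i) n * (n:ℝ)^((1:ℝ)/3)) atTop (𝓝 (c i)))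
    (hc : ∀ i, 0 < c i) (t : ι → ℝ) (ht : ∀ i, 0 ≤ t i) :
    Tendsto (fun n : ℕ => percE.real {ω | ∀ i, NN (m i) (W i) (A i) n ω ≤
      t i * (2 * (n:ℝ) + 1)^((2:ℝ)/3)}) atTop (𝓝 (FX (⨅ i, t i / (c i / c0)))) := by
  refine t_SLU ι (fun i n => NN (m i) (W i) (A i) n) (fun n => N0 n)
    (fun i => c i / c0) (fun n => (2 * (n:ℝ) + 1)^((2:ℝ)/3)) FX (fun i => div_pos (hc i) hc0)
    (fun n => by positivity) (fun i n => NN_meas _ _ _ _) (fun n => NN_meas _ _ _ _)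
    (fun i n => ⟨n, fun ω => ?_⟩) (fun n => ⟨n, fun ω => ?_⟩) (fun n ω => (NN_bd _ _ _ _ _).1)
    FX_cont.continuousOn FX_zero Pool.Agent.U30.SA.t_STA
    (fun i => (lw2_of h hc0 hT0 (m i) (W i) (hA i) (hT i)).2) t ht
  · rw [abs_of_nonneg (NN_bd _ _ _ _ _).1]
    exact (NN_bd _ _ _ _ _).2
  · unfold N0
    rw [abs_of_nonneg (NN_bd _ _ _ _ _).1]
    exact (NN_bd _ _ _ _ _).2

end Pool.Agent.U167.SA
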