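import Pool.Agent.U167.SA.Stm3

/-!
Project SA (helper167), fourth part: half-planes with a rough boundary.
-/

set_option autoImplicit false

namespace Pool.Agent.U167.SA

open H974 Finset Filter Topology

/-- the half-plane with the rough boundary `w`: edges with both ends in the set of the vertices of
column at least `w (height)` -/
def Dw (w : ℤ → ℤ) : Set Edg := {e | w (ht (src e)) ≤ col (src e) ∧ w (ht (tgt e)) ≤ col (tgt e)}

/-- **UNIW**: as UNI, for rough boundaries. -/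
def UniStmW : Prop := ∀ (m : ℕ) (w : ℤ → ℤ), 0 < m → (∀ h, 4 * |w h| ≤ m) →
    (∀ h : ℤ, (m:ℤ) ≤ |h| → |w (h+1) - w h| ≤ 1) →
    ∀ (F : Finset Edg) (G : Set Edg),
    (∀ e ∈ boxE (4*m), e ∉ boxE (m-1) → (e ∈ G ↔ e ∈ Dw w)) → Bar m F →
    ∃ z : Vtx, ∀ u v : Vtx, inB (m-1) u → onB (4*m) v →
      Reach (↑F ∩ G ∩ ↑(boxE (4*m))) u v → Reach (↑F ∩ G ∩ ↑(boxE (4*m))) u z

/-- **KEYW** (uses UNIW): as KEY, for rough boundaries. -/
def KeyStmW : Prop := ∀ (s0 : ℕ) (w : ℤ → ℤ), (∀ h, |w h| ≤ s0) →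
    (∀ h : ℤ, (s0:ℤ) ≤ |h| → |w (h+1) - w h| ≤ 1) → KeyG (Dw w) s0 Q

end Pool.Agent.U167.SA
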