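import Pool.Agent.U167.SA.Fin
import Pool.Agent.U167.SA.Stm4

/-! Project SA: rough half-planes. -/

set_option autoImplicit false

namespace Pool.Agent.U167.SA

open H974 Finset Filter Topology

theorem shE_union (k : ℤ) (X Y : Set Edg) : shE k (X ∪ Y) = shE k X ∪ shE k Y := rfl

theorem boxE_shift' {t k : ℕ} {e : Edg} (he : e ∉ boxE (t + k)) :
    ((e.1 - (k:ℤ), e.2.1 + (k:ℤ), e.2.2) : Edg) ∉ boxE t := by
  intro h
  apply he
  obtain ⟨x, y, _ | _⟩ := e
  · rw [mem_boxE_false] at h ⊢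
    push_cast
    simp only at h
    omega
  · rw [mem_boxE_true] at h ⊢
    push_cast
    simp only at h
    omega

/-- average over the inner configurations -/
theorem PP_avg (hPerc : PercStm) (hL : LOCStm) (m : ℕ) (G : Set Edg) (A : Set Vtx) (n : ℤ) :
    PP G A n = ∑ η ∈ (boxE m).powerset, (1/2 : ℝ)^(boxE m).card * PPm m η G A n := by
  have h1 := hL m (fun _ => True) G A n
  simp only [true_and] at h1
  rw [hPerc, h1]
  apply Finset.sum_congr _ (fun _ _ => rfl)
  ext η
  simp only [Finset.mem_filter, and_true]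

section

variable (hSW : SWStm) (hB : PPBStm) (hE : ExStm)

include hSW hB hE in
theorem kap_shift (k J : ℕ) {lam : ℝ} (h1 : 1 < lam) : ∃ t : ℕ, ∀ᶠ n : ℕ in atTop,
    PP (Dm (2*k) (2*k) ∪ (Dm (-2*(J:ℤ) + 2*k) (-2*(J:ℤ) + 2*k) \ ↑(boxE t))) (shV k {x0}) n ≤
      lam * PP (Dm (2*k) (2*k)) (shV k {x0}) n := by
  obtain ⟨t0, ht0⟩ := kap_le hSW hB hE J h1
  obtain ⟨N, hN⟩ := eventually_atTop.mp ht0
  have e0 : shE (k:ℤ) (Hs 0) = Dm (2*k) (2*k) := by
    rw [Hs_zero, shE_Dm]
    simp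
  have eJ : shE (k:ℤ) (Hs J) = Dm (-2*(J:ℤ) + 2*k) (-2*(J:ℤ) + 2*k) := by
    rw [Hs, shE_Dm]
  refine ⟨t0 + k, ?_⟩
  filter_upwards [eventually_ge_atTop (N + 2*k)] with n hn
  obtain ⟨j, rfl⟩ := Nat.exists_eq_add_of_le hn
  have h2 := hN (N + j) (by omega)
  have e1 : ((N + 2*k + j : ℕ) : ℤ) = ((N + j : ℕ) : ℤ) + 2*(k:ℤ) := by push_cast; ring
  rw [e1, ← e0, ← eJ]
  have h3 : PP (shE (k:ℤ) (Hs 0)) (shV k {x0}) (((N + j : ℕ) : ℤ) + 2*(k:ℤ)) =
      PP (Hs 0) {x0} ((N + j : ℕ) : ℤ) := PP_shift hB k _ _ _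
  rw [h3]
  refine le_trans ?_ h2
  rw [← PP_shift hB k (Ht J t0) {x0} ((N + j : ℕ) : ℤ)]
  apply PP_mono hB _ le_rfl
  rintro e (h | ⟨h, h'⟩)
  · exact Or.inl h
  · exact Or.inr ⟨h, fun h'' => boxE_shift' (fun h3 => h' (by exact_mod_cast h3)) h''⟩

include hSW hB hE in
theorem F3 (hPerc : PercStm) (hP : PPMStm) (hL : LOCStm) (w : ℤ → ℤ) (J0 : ℕ)
    (hw : ∀ h, |w h| ≤ J0) (hS : SWG (Dw w)) (hS0 : ∀ a b : ℤ, SWG (Dm a b))
    {G : Set Edg} {A : Set Vtx}
    (hG : ∃ r, ∀ e ∉ boxE r, (e ∈ G ↔ e ∈ Dw w)) (hA : ∃ r, ∀ v ∈ A, inB r v) (mW : ℕ)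
    (W : Finset Edg → Prop) :
    ∃ c : ℝ, 0 ≤ c ∧ Tendsto (fun n : ℕ => PE mW W G A n * (n:ℝ)^((1:ℝ)/3)) atTop (𝓝 c) ∧
      ((∃ᶠ n : ℕ in atTop, 0 < PE mW W G A n) → 0 < c) := by
  classical
  have hPE0 : ∀ (m : ℕ) (V : Finset Edg → Prop) (G : Set Edg) (A : Set Vtx) (n : ℤ),
      0 ≤ PE m V G A n := fun m V G A n => by unfold PE; exact MeasureTheory.measureReal_nonneg
  obtain ⟨rG, hrG⟩ := hG
  obtain ⟨rA, hrA⟩ := hA
  -- the straight half-planes
  set H : Set Edg := Dm (2*(J0:ℤ)) (2*(J0:ℤ)) with hH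
  set HJ : Set Edg := Dm (-2*((2*J0 : ℕ):ℤ) + 2*(J0:ℤ)) (-2*((2*J0 : ℕ):ℤ) + 2*(J0:ℤ)) with hHJ
  have hHV : H ⊆ Dw w := by
    rintro e ⟨⟨h1, h2⟩, h3, h4⟩
    have b1 := abs_le.mp (hw (ht (src e)))
    have b2 := abs_le.mp (hw (ht (tgt e)))
    constructor
    · rcases le_or_gt 0 (ht (src e)) with h | h
      · have := h1 h; omega
      · have := h2 h; omega
    · rcases le_or_gt 0 (ht (tgt e)) with h | h
      · have := h3 h; omega
      · have := h4 h; omega
  have hVJ : Dw w ⊆ HJ := by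
    rintro e ⟨h1, h2⟩
    have b1 := abs_le.mp (hw (ht (src e)))
    have b2 := abs_le.mp (hw (ht (tgt e)))
    refine ⟨⟨fun _ => ?_, fun _ => ?_⟩, fun _ => ?_, fun _ => ?_⟩ <;> push_cast <;> omega
  -- the main comparison
  have cmp : ∀ lam : ℝ, 1 < lam → ∃ t : ℕ, rG ≤ t ∧ ∀ᶠ n : ℕ in atTop,
      PE mW W (loc t G H) A n ≤ lam * PE mW W G A n ∧
      PE mW W G A n ≤ lam * PE mW W (loc t G H) A n := by
    intro lam hlam
    obtain ⟨l1, hl1, hl2⟩ := exists_between hlam
    obtain ⟨t1, ht1⟩ := kap_shift hSW hB hE J0 (2*J0) hl1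
    obtain ⟨m0, θ, hth0, hth1, hSS⟩ := hS
    have hl1p : 0 < l1 := by linarith
    have hlamp : 0 < lam := by linarith
    obtain ⟨K, hK⟩ := exists_pow_lt_of_lt_one (x := 1 - l1 / lam)
      (by rw [sub_pos, div_lt_one hlamp]; exact hl2) hth1
    have hK2 : l1 ≤ lam * (1 - θ^K) := by
      have : l1 / lam ≤ 1 - θ^K := by linarith
      rw [div_le_iff₀ hlamp] at this
      linarith
    obtain ⟨m, hm⟩ : ∃ m : ℕ, m = m0 + t1 + rG + rA + mW + J0 + 2 := ⟨_, rfl⟩
    obtain ⟨t, ht⟩ : ∃ t : ℕ, t = 100 * 64^K * m + m := ⟨_, rfl⟩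
    refine ⟨t, by omega, ?_⟩
    have hA1 : ∀ v ∈ A, inB m v := fun v hv => inB_mono (by omega) (hrA v hv)
    have hY1 : ∀ v ∈ shV (J0:ℤ) ({x0} : Set Vtx), inB m v := sh_x0_inB _ (by omega)
    have hmt : m ≤ t := by omega
    have hGV : ∀ e ∉ boxE m, (e ∈ G ↔ e ∈ Dw w) := fun e he => hrG e (boxE_mono' (by omega) he)
    -- inclusion of the domains
    have s1 : loc t G H ⊆ G := by
      intro e he
      by_cases h : e ∈ boxE t
      · exact (loc_in h).mp he
      · exact (hGV e (boxE_mono' hmt h)).mpr (hHV ((loc_out h).mp he))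
    have s2 : G ⊆ loc t G HJ := by
      intro e he
      by_cases h : e ∈ boxE t
      · exact (loc_in h).mpr he
      · exact (loc_out h).mpr (hVJ ((hGV e (boxE_mono' hmt h)).mp he))
    have s3 : H ⊆ loc m H (loc t (Dw w) H) := by
      intro e he
      by_cases h : e ∈ boxE m
      · exact (loc_in h).mpr he
      · refine (loc_out h).mpr ?_
        by_cases h' : e ∈ boxE t
        · exact (loc_in h').mpr (hHV he)
        · exact (loc_out h').mpr he
    have s4 : loc m H (loc t (Dw w) HJ) ⊆ H ∪ (HJ \ ↑(boxE t1)) := by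
      intro e he
      by_cases h : e ∈ boxE m
      · exact Or.inl ((loc_in h).mp he)
      · have h2 := (loc_out h).mp he
        have h3 : e ∉ boxE t1 := boxE_mono' (by omega) h
        refine Or.inr ⟨?_, fun h4 => h3 (by exact_mod_cast h4)⟩
        by_cases h' : e ∈ boxE t
        · exact hVJ ((loc_in h').mp h2)
        · exact (loc_out h').mp h2
    have hrep : ∀ (X : Set Edg) (n : ℤ), PE mW W X A n =
        ∑ η ∈ (boxE m).powerset.filter (fun η => W (η ∩ boxE mW)),
          (1/2 : ℝ)^(boxE m).card * PPm m η X A n := by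
      intro X n
      rw [PE_up (show mW ≤ m by omega)]
      have := hL m (fun η => W (η ∩ boxE mW)) X A n
      unfold PE
      convert this using 2
    have hw0 : (0:ℝ) < (1/2 : ℝ)^(boxE m).card := by positivity
    have mono1 : ∀ (X X' : Set Edg) (n : ℤ), X ⊆ X' → PE mW W X A n ≤ PE mW W X' A n := by
      intro X X' n hX
      rw [hrep, hrep]
      exact Finset.sum_le_sum fun η _ =>
        mul_le_mul_of_nonneg_left (PPm_mono hP subset_rfl hX le_rfl) hw0.le
    filter_upwards [ht1, eventually_gt_atTop (2 * t), eventually_ge_atTop (2 * J0 + 1)] with n w1 w2 w3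
    set PN : ℝ := PP H (shV (J0:ℤ) {x0}) n with hPN
    have hPNpos : 0 < PN := by
      have e1 : (n:ℤ) = ((n:ℤ) - 2 * J0) + 2 * (J0:ℤ) := by ring
      have e0 : shE (J0:ℤ) (Hs 0) = H := by
        rw [Hs_zero, shE_Dm, hH]
        simp
      rw [hPN, e1, ← e0, PP_shift hB]
      exact pos_of_G1 hB hE (G1_Hs 0) (by omega)
    -- swapping, for each inner configuration
    have sw : ∀ η ∈ (boxE m).powerset, PPm m η (loc t G HJ) A n * (1 - θ^K) ≤
        l1 * PPm m η (loc t G H) A n := by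
      intro η hη
      rw [Finset.mem_powerset] at hη
      have hη2 : ∀ η2 ∈ (boxE m).powerset,
          PPm m η (loc t G HJ) A n * PPm m η2 (loc m H (loc t (Dw w) H)) (shV (J0:ℤ) {x0}) n ≤
          PPm m η (loc t G H) A n * PPm m η2 (loc m H (loc t (Dw w) HJ)) (shV (J0:ℤ) {x0}) n +
            θ^K * (PPm m η (loc t G HJ) A n *
              PPm m η2 (loc m H (loc t (Dw w) H)) (shV (J0:ℤ) {x0}) n) := by
        intro η2 hη2
        rw [Finset.mem_powerset] at hη2
        refine hSS K m (100 * 64^K * m) η η2 _ _ _ _ A _ n n (by omega) (by omega) hη hη2 hA1 hY1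
          le_rfl ?_ ?_ ?_ (by have := w2; omega) (by have := w2; omega)
        · intro e he
          have het : e ∈ boxE t := boxE_mono (by omega) he
          refine ⟨(loc_in het).trans (loc_in het).symm, ?_⟩
          by_cases h : e ∈ boxE m
          · exact (loc_in h).trans (loc_in h).symm
          · rw [loc_out h, loc_out h, loc_in het, loc_in het]
        · intro e h
          rw [loc_out h, loc_out h]
          by_cases h' : e ∈ boxE t
          · rw [loc_in h', loc_in h', loc_in h', loc_in h']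
            exact ⟨hGV e h, hGV e h⟩
          · rw [loc_out h', loc_out h', loc_out h', loc_out h']
            exact ⟨Iff.rfl, Iff.rfl⟩
        · intro e he h
          have het : e ∈ boxE t := boxE_mono (by omega) he
          rw [loc_in het]
          exact hGV e h
      have hsum : PPm m η (loc t G HJ) A n * PP (loc m H (loc t (Dw w) H)) (shV (J0:ℤ) {x0}) n ≤
          PPm m η (loc t G H) A n * PP (loc m H (loc t (Dw w) HJ)) (shV (J0:ℤ) {x0}) n +
            θ^K * (PPm m η (loc t G HJ) A n *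
              PP (loc m H (loc t (Dw w) H)) (shV (J0:ℤ) {x0}) n) := by
        rw [PP_avg hPerc hL m (loc m H (loc t (Dw w) H)),
          PP_avg hPerc hL m (loc m H (loc t (Dw w) HJ))]
        rw [Finset.mul_sum, Finset.mul_sum, Finset.mul_sum, ← Finset.sum_add_distrib]
        apply Finset.sum_le_sum
        intro η2 hη3
        have := mul_le_mul_of_nonneg_left (hη2 η2 hη3) hw0.le
        calc _ = (1/2 : ℝ)^(boxE m).card * (PPm m η (loc t G HJ) A n *
              PPm m η2 (loc m H (loc t (Dw w) H)) (shV (J0:ℤ) {x0}) n) := by ring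
          _ ≤ _ := this
          _ = _ := by ring
      have hX0 : 0 ≤ PPm m η (loc t G HJ) A n := (hP.1 _ _ _ _ _).1
      have hX1 : 0 ≤ PPm m η (loc t G H) A n := (hP.1 _ _ _ _ _).1
      have b1 : PN ≤ PP (loc m H (loc t (Dw w) H)) (shV (J0:ℤ) {x0}) n := PP_mono hB s3 le_rfl
      have b2 : PP (loc m H (loc t (Dw w) HJ)) (shV (J0:ℤ) {x0}) n ≤ l1 * PN :=
        (PP_mono hB s4 le_rfl).trans w1
      have hthK : θ^K ≤ 1 := pow_le_one₀ hth0 hth1.le
      have c1 : PPm m η (loc t G HJ) A n * (1 - θ^K) * PN ≤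
          PPm m η (loc t G HJ) A n * (1 - θ^K) *
            PP (loc m H (loc t (Dw w) H)) (shV (J0:ℤ) {x0}) n :=
        mul_le_mul_of_nonneg_left b1 (mul_nonneg hX0 (by linarith))
      have c2 : PPm m η (loc t G H) A n * PP (loc m H (loc t (Dw w) HJ)) (shV (J0:ℤ) {x0}) n ≤
          PPm m η (loc t G H) A n * (l1 * PN) := mul_le_mul_of_nonneg_left b2 hX1
      have c3 : PPm m η (loc t G HJ) A n * (1 - θ^K) * PN ≤
          (l1 * PPm m η (loc t G H) A n) * PN := by
        calc _ ≤ _ := c1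
          _ = PPm m η (loc t G HJ) A n * PP (loc m H (loc t (Dw w) H)) (shV (J0:ℤ) {x0}) n -
              θ^K * (PPm m η (loc t G HJ) A n *
              PP (loc m H (loc t (Dw w) H)) (shV (J0:ℤ) {x0}) n) := by ring
          _ ≤ PPm m η (loc t G H) A n * PP (loc m H (loc t (Dw w) HJ)) (shV (J0:ℤ) {x0}) n := by
              linarith
          _ ≤ _ := c2
          _ = _ := by ring
      exact le_of_mul_le_mul_right c3 hPNpos
    have hup : PE mW W (loc t G HJ) A n * (1 - θ^K) ≤ l1 * PE mW W (loc t G H) A n := by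
      rw [hrep, hrep, Finset.sum_mul, Finset.mul_sum]
      apply Finset.sum_le_sum
      intro η hη
      have := mul_le_mul_of_nonneg_left (sw η (Finset.mem_filter.mp hη).1) hw0.le
      calc _ = (1/2 : ℝ)^(boxE m).card * (PPm m η (loc t G HJ) A n * (1 - θ^K)) := by ring
        _ ≤ _ := this
        _ = _ := by ring
    have g1 := mono1 _ _ n s1
    have g2 := mono1 _ _ n s2
    have hth2 : 0 < 1 - θ^K := by
      have : θ^K < 1 - l1/lam := hK
      have : 0 < l1 / lam := by positivity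
      linarith
    have p0 := hPE0 mW W (loc t G H) A n
    have p1 := hPE0 mW W G A n
    constructor
    · nlinarith
    · have : PE mW W (loc t G HJ) A n * (1 - θ^K) ≤ (lam * PE mW W (loc t G H) A n) * (1 - θ^K) := by
        calc _ ≤ l1 * PE mW W (loc t G H) A n := hup
          _ ≤ lam * (1 - θ^K) * PE mW W (loc t G H) A n := mul_le_mul_of_nonneg_right hK2 p0
          _ = _ := by ring
      exact g2.trans (le_of_mul_le_mul_right this hth2)
  -- conclusion
  by_cases hfr : ∃ᶠ n : ℕ in atTop, 0 < PE mW W G A n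
  · have : ∃ c : ℝ, 0 < c ∧
        Tendsto (fun n : ℕ => PE mW W G A n * (n:ℝ)^((1:ℝ)/3)) atTop (𝓝 c) := by
      apply sandwich_lim
      intro lam hlam
      obtain ⟨t, htG, hev⟩ := cmp lam hlam
      have hout : Out (2*(J0:ℤ)) (2*(J0:ℤ)) (loc t G H) := ⟨t, fun e he => loc_out he⟩
      obtain ⟨c, hc, hT, hcp⟩ := F1 hSW hB hE hPerc hP hL _ _ (hS0 _ _) hout ⟨rA, hrA⟩ mW W
      have hfr2 : ∃ᶠ n : ℕ in atTop, 0 < PE mW W (loc t G H) A n := by
        refine (hfr.and_eventually hev).mono ?_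
        rintro n ⟨h1, -, h2⟩
        have h3 := hPE0 mW W (loc t G H) A n
        rcases h3.lt_or_eq with h4 | h4
        · exact h4
        · rw [← h4, mul_zero] at h2
          linarith
      refine ⟨c, hcp hfr2, _, hT, ?_⟩
      filter_upwards [hev] with n hn
      have hr : 0 ≤ (n:ℝ)^((1:ℝ)/3) := by positivity
      constructor
      · calc _ ≤ lam * PE mW W G A n * (n:ℝ)^((1:ℝ)/3) := mul_le_mul_of_nonneg_right hn.1 hr
          _ = _ := by ring
      · calc _ ≤ lam * PE mW W (loc t G H) A n * (n:ℝ)^((1:ℝ)/3) :=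
              mul_le_mul_of_nonneg_right hn.2 hr
          _ = _ := by ring
    obtain ⟨c, hc, hT⟩ := this
    exact ⟨c, hc.le, hT, fun _ => hc⟩
  · refine ⟨0, le_rfl, ?_, fun h => absurd h hfr⟩
    rw [not_frequently] at hfr
    refine tendsto_const_nhds.congr' ?_
    filter_upwards [hfr] with n hn
    have : PE mW W G A n = 0 := le_antisymm (not_lt.mp hn) (hPE0 _ _ _ _ _)
    rw [this, zero_mul]

end

end Pool.Agent.U167.SA
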