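import Pool.Agent.U167.SA.Stm7
import Pool.Agent.U167.SA.All

/-! Project SA: the factorization theorem from the swapping inequality. -/

set_option autoImplicit false

namespace Pool.Agent.U167.SA

open H974 Finset Filter Topology MeasureTheory

theorem PW_nonneg (m : ℕ) (W : Finset Edg → Prop) (G : Set Edg) (A T : Set Vtx)
    (L : List (Set Vtx × Set Vtx)) (V : Set (Edg → Bool)) : 0 ≤ PW m W G A T L V := measureReal_nonneg

theorem PW_up {m m1 : ℕ} (h : m ≤ m1) (W : Finset Edg → Prop) (G : Set Edg) (A T : Set Vtx)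
    (L : List (Set Vtx × Set Vtx)) (V : Set (Edg → Bool)) :
    PW m W G A T L V = PW m1 (fun η => W (η ∩ boxE m)) G A T L V := by
  unfold PW
  congr 1
  ext ω
  simp only [Set.mem_ofPred_eq]
  have : (boxE m1).filter (fun e => ω e = true) ∩ boxE m = (boxE m).filter (fun e => ω e = true) := by
    ext e
    simp only [Finset.mem_inter, Finset.mem_filter]
    constructor
    · rintro ⟨⟨-, h2⟩, h3⟩
      exact ⟨h3, h2⟩
    · rintro ⟨h1, h2⟩
      exact ⟨⟨boxE_mono h h1, h2⟩, h1⟩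
  rw [this]

/-- the column as a target -/
def Cl (n : ℤ) : Set Vtx := {v | col v = n}

theorem PW_PE (m : ℕ) (W : Finset Edg → Prop) (G : Set Edg) (A : Set Vtx) (n : ℤ) :
    PW m W G A (Cl n) [] Set.univ = PE m W G A n := by
  unfold PW PE
  congr 1
  ext ω
  simp only [Set.mem_ofPred_eq, Set.mem_univ, true_and, Ev, Cj, Jn, Set.union_empty, Cl]
  constructor
  · rintro ⟨h1, ⟨u, hu, v, hv, h⟩, -⟩
    exact ⟨h1, u, hu, v, hv, h⟩
  · rintro ⟨h1, u, hu, v, hv, h⟩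
    exact ⟨h1, ⟨u, hu, v, hv, h⟩, by simp⟩

theorem Fr_Cl {R : ℕ} {n : ℤ} (h : 2 * (R:ℤ) < n) : Fr R (Cl n) := by
  rintro v hv hin
  have h1 : col v = n := hv
  unfold col at h1
  unfold inB inR at hin
  omega

/-- power law form of the swapping inequality -/
theorem swe_pow {D : Set Edg} (h : SWE D) : ∃ (m0 : ℕ) (α : ℝ), 0 < α ∧
    ∀ m : ℕ, 0 < m → m0 ≤ m → ∃ C : ℝ, 0 ≤ C ∧ ∀ R : ℕ, 100 * m ≤ R →
    ∀ (W1 W2 : Finset Edg → Prop) (G1 G2 O1 O2 : Set Edg) (A1 A2 T1 T2 : Set Vtx)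
      (L1 L2 : List (Set Vtx × Set Vtx)) (V1 V2 : Set (Edg → Bool)),
    (∀ v ∈ A1, inB m v) → (∀ v ∈ A2, inB m v) →
    (∀ e ∈ boxE R, (e ∈ O1 ↔ e ∈ D)) → (∀ e ∈ boxE R, (e ∈ O2 ↔ e ∈ D)) →
    Fr R T1 → Fr R T2 → (∀ q ∈ L1, Fr R q.1 ∧ Fr R q.2) → (∀ q ∈ L2, Fr R q.1 ∧ Fr R q.2) →
    MeasurableSet V1 → MeasurableSet V2 → OutE R V1 → OutE R V2 →
    PW m W1 (loc m G1 O1) A1 T1 L1 V1 * PW m W2 (loc m G2 O2) A2 T2 L2 V2 ≤
      PW m W1 (loc m G1 O2) A1 T2 L2 V2 * PW m W2 (loc m G2 O1) A2 T1 L1 V1 +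
        C * (R:ℝ)^(-α) *
          (PW m W1 (loc m G1 O1) A1 T1 L1 V1 * PW m W2 (loc m G2 O2) A2 T2 L2 V2) := by
  obtain ⟨m0, θ, ht0, ht1, hS⟩ := h
  set θ' : ℝ := max θ (1/2) with hθ'
  have hθ'0 : 0 < θ' := lt_of_lt_of_le (by norm_num) (le_max_right _ _)
  have hθ'1 : θ' < 1 := max_lt ht1 (by norm_num)
  set α : ℝ := -Real.logb 64 θ' with hα
  have hα0 : 0 < α := by
    rw [hα, neg_pos]
    exact Real.logb_neg (by norm_num) hθ'0 hθ'1
  have hα1 : (64 : ℝ) ^ (-α) = θ' := by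
    rw [hα, neg_neg]
    exact Real.rpow_logb (by norm_num) (by norm_num) hθ'0
  refine ⟨m0, α, hα0, fun m hm hm0 => ⟨(64 * (100 * m : ℝ)) ^ α, by positivity, ?_⟩⟩
  intro R hR W1 W2 G1 G2 O1 O2 A1 A2 T1 T2 L1 L2 V1 V2 hA1 hA2 hO1 hO2 hT1 hT2 hL1 hL2 hm1 hm2 hV1 hV2
  obtain ⟨q, hq⟩ : ∃ q : ℕ, q = 100 * m := ⟨_, rfl⟩
  have hq0 : 0 < q := by omega
  have hRq : 1 ≤ R / q := (Nat.le_div_iff_mul_le hq0).2 (by omega)
  set K := Nat.log 64 (R / q) with hK
  have h1 : 64 ^ K ≤ R / q := Nat.pow_log_le_self 64 (by omega)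
  have h1' : 64 ^ K * q ≤ R := (Nat.le_div_iff_mul_le hq0).1 h1
  have h2 : R / q < 64 ^ (K + 1) := Nat.lt_pow_succ_log_self (by norm_num) _
  have h2' : R < 64 ^ (K + 1) * q := (Nat.div_lt_iff_lt_mul hq0).1 h2
  have hmR : m ≤ R := by omega
  have key := hS K m R W1 W2 (loc m G1 O1) (loc m G1 O2) (loc m G2 O1) (loc m G2 O2) A1 A2 T1 T2
    L1 L2 V1 V2 hm hm0 hA1 hA2 (by
      calc 100 * 64 ^ K * m = 64 ^ K * q := by rw [hq]; ring
        _ ≤ R := h1')
    (by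
      intro e he
      by_cases hem : e ∈ boxE m
      · exact ⟨(loc_in hem).trans (loc_in hem).symm, (loc_in hem).trans (loc_in hem).symm⟩
      · exact ⟨(loc_out hem).trans (((hO1 e he).trans (hO2 e he).symm).trans (loc_out hem).symm),
          (loc_out hem).trans (((hO1 e he).trans (hO2 e he).symm).trans (loc_out hem).symm)⟩)
    (fun e he => ⟨(loc_out he).trans (loc_out he).symm, (loc_out he).trans (loc_out he).symm⟩)
    (fun e he hem => (loc_out hem).trans (hO1 e he)) hT1 hT2 hL1 hL2 hm1 hm2 hV1 hV2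
  refine key.trans (add_le_add le_rfl (mul_le_mul_of_nonneg_right ?_
    (mul_nonneg (PW_nonneg _ _ _ _ _ _ _) (PW_nonneg _ _ _ _ _ _ _))))
  have hR0 : (0 : ℝ) < R := by
    have : 0 < R := by omega
    exact_mod_cast this
  calc θ ^ K ≤ θ' ^ K := pow_le_pow_left₀ ht0 (le_max_left _ _) K
    _ = ((64 : ℝ) ^ K) ^ (-α) := by
        rw [← hα1, ← Real.rpow_natCast, ← Real.rpow_mul (by norm_num), mul_comm,
          Real.rpow_mul (by norm_num), Real.rpow_natCast]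
    _ ≤ ((R : ℝ) / (64 * (100 * m))) ^ (-α) := by
        refine Real.rpow_le_rpow_of_nonpos (by positivity) ?_ (by linarith)
        rw [div_le_iff₀ (by positivity)]
        have h3 : (R : ℝ) < (64 : ℝ) ^ (K + 1) * q := by exact_mod_cast h2'
        rw [pow_succ, hq] at h3
        push_cast at h3
        nlinarith
    _ = (64 * (100 * m : ℝ)) ^ α * (R : ℝ) ^ (-α) := by
        rw [Real.div_rpow hR0.le (by positivity),
          Real.rpow_neg (by positivity : (0:ℝ) ≤ 64 * (100 * m)), div_inv_eq_mul, mul_comm]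

/-- factorization, from the one-arm asymptotics -/
theorem fact_lim {D : Set Edg} (h : SWE D) : ∃ α : ℝ, 0 < α ∧
    ∀ (s mW mW' : ℕ) (W W' : Finset Edg → Prop) (G G' : Set Edg) (A A' : Set Vtx),
    (∀ e ∉ boxE s, (e ∈ G ↔ e ∈ D)) → (∀ e ∉ boxE s, (e ∈ G' ↔ e ∈ D)) →
    (∀ v ∈ A, inB s v) → (∀ v ∈ A', inB s v) →
    ∀ (a : ℕ → ℝ) (N : ℕ → ℤ) (c c' : ℝ), (∀ n, 0 ≤ a n) → Tendsto N atTop atTop →
    Tendsto (fun n => PE mW W G A (N n) * a n) atTop (𝓝 c) →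
    Tendsto (fun n => PE mW' W' G' A' (N n) * a n) atTop (𝓝 c') → 0 < c' →
    ∃ (C : ℝ) (r0 : ℕ), 0 ≤ C ∧ ∀ r : ℕ, r0 ≤ r → ∀ (O : Set Edg) (T : Set Vtx)
      (L : List (Set Vtx × Set Vtx)) (V : Set (Edg → Bool)),
    (∀ e ∈ boxE r, (e ∈ O ↔ e ∈ D)) → Fr r T → (∀ q ∈ L, Fr r q.1 ∧ Fr r q.2) →
    MeasurableSet V → OutE r V →
    |PW mW W (loc s G O) A T L V - c / c' * PW mW' W' (loc s G' O) A' T L V| ≤
      C * (r:ℝ)^(-α) * PW mW' W' (loc s G' O) A' T L V := by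
  obtain ⟨m0, α, hα, hS⟩ := swe_pow h
  refine ⟨α, hα, ?_⟩
  intro s mW mW' W W' G G' A A' hG hG' hA hA' a N c c' ha hN hc hc' hc0
  obtain ⟨m, hm⟩ : ∃ m : ℕ, m = m0 + s + mW + mW' + 1 := ⟨_, rfl⟩
  obtain ⟨C0, hC0, hS1⟩ := hS m (by omega) (by omega)
  have hcn : 0 ≤ c := ge_of_tendsto' hc fun n => mul_nonneg (PE_nonneg _ _ _ _ _) (ha n)
  -- the radius from which the error term is at most 1/2
  have hsm : ∀ᶠ r : ℕ in atTop, C0 * (r:ℝ)^(-α) ≤ 1/2 := by
    have h1 : Tendsto (fun n : ℕ => C0 * (n:ℝ)^(-α)) atTop (𝓝 (C0 * 0)) :=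
      ((tendsto_rpow_neg_atTop hα).comp tendsto_natCast_atTop_atTop).const_mul C0
    rw [mul_zero] at h1
    exact (h1.eventually (gt_mem_nhds (by norm_num : (0:ℝ) < 1/2))).mono fun _ h => le_of_lt h
  obtain ⟨r1, hr1⟩ := eventually_atTop.mp hsm
  refine ⟨2 * C0 * (c / c'), r1 + 100 * m, by positivity, ?_⟩
  intro r hr O T L V hO hT hL hmV hV
  have hlocs : ∀ (H P : Set Edg), (∀ e ∉ boxE s, (e ∈ H ↔ e ∈ D)) → (∀ e ∈ boxE r, (e ∈ P ↔ e ∈ D)) →
      loc s H P = loc m H P := by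
    intro H P hH hP
    ext e
    by_cases hes : e ∈ boxE s
    · rw [loc_in hes, loc_in (boxE_mono (by omega) hes)]
    · by_cases hem : e ∈ boxE m
      · rw [loc_out hes, loc_in hem, hP e (boxE_mono (by omega) hem), hH e hes]
      · rw [loc_out hes, loc_out hem]
  have hself : ∀ (H : Set Edg), (∀ e ∉ boxE s, (e ∈ H ↔ e ∈ D)) → loc m H D = H := by
    intro H hH
    ext e
    by_cases hem : e ∈ boxE m
    · rw [loc_in hem]
    · rw [loc_out hem, hH e (fun h => hem (boxE_mono (by omega) h))]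
  set X := PW mW W (loc s G O) A T L V with hX
  set Y := PW mW' W' (loc s G' O) A' T L V with hY
  have eX : X = PW m (fun η => W (η ∩ boxE mW)) (loc m G O) A T L V := by
    rw [hX, hlocs G O hG hO, PW_up (by omega : mW ≤ m)]
  have eY : Y = PW m (fun η => W' (η ∩ boxE mW')) (loc m G' O) A' T L V := by
    rw [hY, hlocs G' O hG' hO, PW_up (by omega : mW' ≤ m)]
  have eXn : ∀ n, PE mW W G A (N n) =
      PW m (fun η => W (η ∩ boxE mW)) (loc m G D) A (Cl (N n)) [] Set.univ := by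
    intro n
    rw [hself G hG, PW_PE, ← PE_up (by omega : mW ≤ m)]
  have eYn : ∀ n, PE mW' W' G' A' (N n) =
      PW m (fun η => W' (η ∩ boxE mW')) (loc m G' D) A' (Cl (N n)) [] Set.univ := by
    intro n
    rw [hself G' hG', PW_PE, ← PE_up (by omega : mW' ≤ m)]
  have hX0 : 0 ≤ X := PW_nonneg _ _ _ _ _ _ _
  have hY0 : 0 ≤ Y := PW_nonneg _ _ _ _ _ _ _
  set ε := C0 * (r:ℝ)^(-α) with hε
  have hε0 : 0 ≤ ε := mul_nonneg hC0 (Real.rpow_nonneg (by positivity) _)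
  have hε1 : ε ≤ 1/2 := hr1 r (by omega)
  have hAm : ∀ v ∈ A, inB m v := fun v hv => inB_mono (by omega) (hA v hv)
  have hAm' : ∀ v ∈ A', inB m v := fun v hv => inB_mono (by omega) (hA' v hv)
  have hou : OutE r (Set.univ : Set (Edg → Bool)) := fun _ _ _ => Iff.rfl
  have hnil : ∀ q ∈ ([] : List (Set Vtx × Set Vtx)), Fr r q.1 ∧ Fr r q.2 := by simp
  have ev : ∀ᶠ n in atTop, X * (PE mW' W' G' A' (N n) * a n) ≤
      (PE mW W G A (N n) * a n) * Y + ε * (X * (PE mW' W' G' A' (N n) * a n)) ∧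
      Y * (PE mW W G A (N n) * a n) ≤
      (PE mW' W' G' A' (N n) * a n) * X + ε * (Y * (PE mW W G A (N n) * a n)) := by
    filter_upwards [hN.eventually (eventually_gt_atTop (2 * (r:ℤ)))] with n hn
    have k1 := hS1 r (by omega) (fun η => W (η ∩ boxE mW)) (fun η => W' (η ∩ boxE mW')) G G' O D
      A A' T (Cl (N n)) L [] V Set.univ hAm hAm' hO (fun _ _ => Iff.rfl) hT (Fr_Cl hn) hL hnil hmV
      MeasurableSet.univ hV hou
    have k2 := hS1 r (by omega) (fun η => W' (η ∩ boxE mW')) (fun η => W (η ∩ boxE mW)) G' G O D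
      A' A T (Cl (N n)) L [] V Set.univ hAm' hAm hO (fun _ _ => Iff.rfl) hT (Fr_Cl hn) hL hnil hmV
      MeasurableSet.univ hV hou
    rw [← eX, ← eY, ← eXn n, ← eYn n] at k1 k2
    constructor
    · have := mul_le_mul_of_nonneg_right k1 (ha n)
      calc X * (PE mW' W' G' A' (N n) * a n) = X * PE mW' W' G' A' (N n) * a n := by ring
        _ ≤ _ := this
        _ = _ := by ring
    · have := mul_le_mul_of_nonneg_right k2 (ha n)
      calc Y * (PE mW W G A (N n) * a n) = Y * PE mW W G A (N n) * a n := by ring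
        _ ≤ _ := this
        _ = _ := by ring
  have l1 : X * c' ≤ c * Y + ε * (X * c') :=
    le_of_tendsto_of_tendsto (hc'.const_mul X)
      ((hc.mul_const Y).add ((hc'.const_mul X).const_mul ε)) (ev.mono fun _ h => h.1)
  have l2 : Y * c ≤ c' * X + ε * (Y * c) :=
    le_of_tendsto_of_tendsto (hc.const_mul Y)
      ((hc'.mul_const X).add ((hc.const_mul Y).const_mul ε)) (ev.mono fun _ h => h.2)
  have l3 : X * c' ≤ 2 * (c * Y) := by
    have : 0 ≤ X * c' := by positivity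
    nlinarith
  have l4 : |X * c' - c * Y| ≤ 2 * ε * (c * Y) := by
    have h0 : 0 ≤ c * Y := by positivity
    rw [abs_le]
    constructor
    · nlinarith
    · nlinarith
  have l5 : X - c / c' * Y = (X * c' - c * Y) / c' := by field_simp
  rw [l5, abs_div, abs_of_pos hc0, div_le_iff₀ hc0]
  refine l4.trans (le_of_eq ?_)
  rw [hε]
  field_simp

end Pool.Agent.U167.SA
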