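import Pool.Agent.U167.SA.Stm8
import Pool.Agent.U433.SA.KEYXW
import Pool.Agent.U394.SA.KEYXS
import Pool.Agent.U95.SA.PXC
import Pool.Agent.U796.SA.SWXG
import Pool.Agent.U669.SA.FUB
import Pool.Agent.U758.SA.SWEG
import Pool.Agent.U83.SA.TRL
import Pool.Agent.U394.SA.REFH
import Pool.Agent.U67.SA.REFS

/-! Project SA: factorization and rates, assembly. -/

set_option autoImplicit false

namespace Pool.Agent.U167.SA

open H974 Finset Filter Topology MeasureTheory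

theorem a_SWEW {w : ℤ → ℤ} {s0 : ℕ} (h1 : ∀ h, |w h| ≤ s0)
    (h2 : ∀ h : ℤ, (s0:ℤ) ≤ |h| → |w (h+1) - w h| ≤ 1) : SWE (Dw w) :=
  Pool.Agent.U758.SA.t_SWEG Pool.Agent.U669.SA.t_FUB _
    (Pool.Agent.U796.SA.t_SWXG Pool.Agent.U99.SA.t_SWAP Pool.Agent.U95.SA.t_PXC _ s0 Q
      (Pool.Agent.U433.SA.t_KEYXW a_UNIW s0 w h1 h2) Pool.Agent.U408.SA.t_QP)

theorem a_SWES : SWE Slt :=
  Pool.Agent.U758.SA.t_SWEG Pool.Agent.U669.SA.t_FUB _
    (Pool.Agent.U796.SA.t_SWXG Pool.Agent.U99.SA.t_SWAP Pool.Agent.U95.SA.t_PXC _ 0 Q2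
      (Pool.Agent.U394.SA.t_KEYXS Pool.Agent.U789.SA.t_UNI2) Pool.Agent.U694.SA.t_QP2)

theorem FactP_mono {D : Set Edg} {α β : ℝ} (h : β ≤ α) (hF : FactP D α) : FactP D β := by
  intro s mW mW' W W' G G' A A' hG hG' hA hA' a N c c' ha hN hc hc' hc0
  obtain ⟨C, r0, hC, hr⟩ := hF s mW mW' W W' G G' A A' hG hG' hA hA' a N c c' ha hN hc hc' hc0
  refine ⟨C, r0 + 1, hC, fun r hr0 O T L V h1 h2 h3 h4 h5 => ?_⟩
  refine (hr r (by omega) O T L V h1 h2 h3 h4 h5).trans ?_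
  have h6 : (r:ℝ)^(-α) ≤ (r:ℝ)^(-β) := by
    apply Real.rpow_le_rpow_of_exponent_le
    · exact_mod_cast (by omega : 1 ≤ r)
    · linarith
  exact mul_le_mul_of_nonneg_right (mul_le_mul_of_nonneg_left h6 hC) (PW_nonneg _ _ _ _ _ _ _)

theorem fact_one {D : Set Edg} (h : SWE D) : ∃ α : ℝ, 0 < α ∧ α ≤ 1 ∧ FactP D α := by
  obtain ⟨α, hα, hF⟩ := fact_lim h
  exact ⟨min α 1, lt_min hα one_pos, min_le_right _ _, FactP_mono (min_le_left _ _) hF⟩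

theorem loc_same {D G : Set Edg} {s : ℕ} (h : ∀ e ∉ boxE s, (e ∈ G ↔ e ∈ D)) : loc s G D = G := by
  ext e
  by_cases he : e ∈ boxE s
  · rw [loc_in he]
  · rw [loc_out he, h e he]

/-- combination of the two error terms -/
theorem comb {X Y a c k k' C C' ε ε' : ℝ} (ha : 0 ≤ a) (hk : 0 < k) (hc : 0 ≤ c) (hC : 0 ≤ C)
    (hε : 0 ≤ ε) (h1 : |X - c / k * Y| ≤ C * ε * Y) (h2 : |Y * a - k| ≤ C' * ε')
    (hk' : C' * ε' ≤ k') : |X * a - c| ≤ C * (k + k') * ε + c / k * (C' * ε') := by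
  have e1 : X * a - c = (X - c / k * Y) * a + c / k * (Y * a - k) := by field_simp; ring
  have h3 : Y * a ≤ k + k' := by
    have := (abs_le.mp h2).2
    linarith
  rw [e1]
  refine (abs_add_le _ _).trans (add_le_add ?_ ?_)
  · rw [abs_mul, abs_of_nonneg ha]
    calc |X - c / k * Y| * a ≤ C * ε * Y * a := mul_le_mul_of_nonneg_right h1 ha
      _ = C * ε * (Y * a) := by ring
      _ ≤ C * ε * (k + k') := mul_le_mul_of_nonneg_left h3 (by positivity)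
      _ = _ := by ring
  · rw [abs_mul, abs_of_nonneg (by positivity : 0 ≤ c / k)]
    exact mul_le_mul_of_nonneg_left h2 (by positivity)

theorem cube_root_sub {x : ℝ} (hx : 0 < x) : |x^((1:ℝ)/3) - 1| ≤ |x - 1| := by
  rcases le_or_gt 1 x with h | h
  · have h1 : 1 ≤ x^((1:ℝ)/3) := Real.one_le_rpow h (by norm_num)
    have h2 : x^((1:ℝ)/3) ≤ x := by
      calc x^((1:ℝ)/3) ≤ x^(1:ℝ) := Real.rpow_le_rpow_of_exponent_le h (by norm_num)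
        _ = x := Real.rpow_one x
    rw [abs_of_nonneg (by linarith), abs_of_nonneg (by linarith)]
    linarith
  · have h1 : x^((1:ℝ)/3) ≤ 1 := Real.rpow_le_one hx.le h.le (by norm_num)
    have h2 : x ≤ x^((1:ℝ)/3) := by
      calc x = x^(1:ℝ) := (Real.rpow_one x).symm
        _ ≤ x^((1:ℝ)/3) := Real.rpow_le_rpow_of_exponent_ge hx h.le (by norm_num)
    rw [abs_of_nonpos (by linarith), abs_of_nonpos (by linarith)]
    linarith

/-- the amplitude of the straight half-plane -/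
noncomputable def k0 : ℝ := 9 / 4 * Real.Gamma (2/3) / Real.Gamma (1/3)

theorem k0_pos : 0 < k0 := by
  unfold k0
  have h1 := Real.Gamma_pos_of_pos (show (0:ℝ) < 2/3 by norm_num)
  have h2 := Real.Gamma_pos_of_pos (show (0:ℝ) < 1/3 by norm_num)
  positivity

theorem PEt (G : Set Edg) (A : Set Vtx) (n : ℤ) : PE 0 (fun _ => True) G A n = PP G A n := by
  rw [a_PERC]
  unfold PE
  simp only [true_and]

theorem Dw_const (c0 : ℤ) : Dw (fun _ => c0) = Dm c0 c0 := by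
  ext e
  constructor
  · rintro ⟨k1, k2⟩
    exact ⟨⟨fun _ => k1, fun _ => k1⟩, fun _ => k2, fun _ => k2⟩
  · rintro ⟨⟨k1, k2⟩, k3, k4⟩
    constructor
    · rcases le_or_gt 0 (ht (src e)) with h | h
      · exact k1 h
      · exact k2 h
    · rcases le_or_gt 0 (ht (tgt e)) with h | h
      · exact k3 h
      · exact k4 h

/-- the reference in the half-plane `col ≥ c0` -/
theorem ref_rate (c0 : ℤ) : ∃ C : ℝ, 0 ≤ C ∧ ∀ᶠ n : ℕ in atTop,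
    |PE 0 (fun _ => True) (Dw (fun _ => c0)) {((1 + c0 : ℤ), (0:ℤ))} n * (n:ℝ)^((1:ℝ)/3) - k0| ≤
      C * (n:ℝ)⁻¹ := by
  obtain ⟨C, hC⟩ := Pool.Agent.U394.SA.t_REFH a_PERC a_PPB
  have hC0 : 0 ≤ C := by
    have := (abs_nonneg _).trans (hC 1 le_rfl)
    simpa using this
  refine ⟨2 * (C + (k0 + C) * |(c0:ℝ)|), by have := k0_pos; positivity, ?_⟩
  filter_upwards [eventually_ge_atTop (2 * c0.natAbs + 2)] with n hn
  obtain ⟨k, hk⟩ : ∃ k : ℕ, (k:ℤ) + c0 = n := ⟨((n:ℤ) - c0).toNat, by omega⟩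
  have hk1 : 1 ≤ k := by omega
  have hk2 : n ≤ 2 * k := by omega
  have e1 : PE 0 (fun _ => True) (Dw (fun _ => c0)) {((1 + c0 : ℤ), (0:ℤ))} n =
      PP (Dm 0 0) {((1:ℤ), (0:ℤ))} k := by
    rw [PEt, Dw_const, ← hk, Pool.Agent.U83.SA.t_TRL]
  rw [e1]
  set y := PP (Dm 0 0) {((1:ℤ), (0:ℤ))} k with hy
  have hy0 : 0 ≤ y := (a_PPB.1 _ _ _).1
  have hck := hC k hk1
  change |y * (k:ℝ)^((1:ℝ)/3) - k0| ≤ C / k at hck
  have hkR : (1:ℝ) ≤ k := by exact_mod_cast hk1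
  have hk0 : (0:ℝ) < k := by linarith
  have hn0 : (0:ℝ) < n := by
    have : 0 < n := by omega
    exact_mod_cast this
  have hnk : (n:ℝ) ≤ 2 * k := by exact_mod_cast hk2
  have hinv : (k:ℝ)⁻¹ ≤ 2 * (n:ℝ)⁻¹ := by
    rw [← div_eq_mul_inv, inv_eq_one_div, div_le_div_iff₀ hk0 hn0]
    linarith
  have hCk : C / k ≤ C := div_le_self hC0 hkR
  have hyk : y * (k:ℝ)^((1:ℝ)/3) ≤ k0 + C := by
    have := (abs_le.mp hck).2
    linarith
  have e2 : (n:ℝ)^((1:ℝ)/3) = (k:ℝ)^((1:ℝ)/3) * ((n:ℝ)/k)^((1:ℝ)/3) := by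
    rw [← Real.mul_rpow hk0.le (by positivity)]
    congr 1
    field_simp
  have e3 : y * (n:ℝ)^((1:ℝ)/3) - k0 =
      (y * (k:ℝ)^((1:ℝ)/3) - k0) + y * (k:ℝ)^((1:ℝ)/3) * (((n:ℝ)/k)^((1:ℝ)/3) - 1) := by
    rw [e2]; ring
  rw [e3]
  refine (abs_add_le _ _).trans ?_
  have h4 : |((n:ℝ)/k)^((1:ℝ)/3) - 1| ≤ |(c0:ℝ)| * (k:ℝ)⁻¹ := by
    refine (cube_root_sub (by positivity)).trans (le_of_eq ?_)
    have e4 : (n:ℝ) = k + c0 := by exact_mod_cast hk.symm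
    rw [e4]
    have e5 : ((k:ℝ) + c0) / k - 1 = c0 * (k:ℝ)⁻¹ := by field_simp; ring
    rw [e5, abs_mul, abs_of_pos (inv_pos.mpr hk0)]
  have h5 : |y * (k:ℝ)^((1:ℝ)/3) * (((n:ℝ)/k)^((1:ℝ)/3) - 1)| ≤
      (k0 + C) * (|(c0:ℝ)| * (k:ℝ)⁻¹) := by
    rw [abs_mul, abs_of_nonneg (by positivity : 0 ≤ y * (k:ℝ)^((1:ℝ)/3))]
    have := k0_pos
    exact mul_le_mul hyk h4 (abs_nonneg _) (by positivity)
  have h6 : C / k = C * (k:ℝ)⁻¹ := div_eq_mul_inv _ _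
  have := k0_pos
  calc _ ≤ C * (k:ℝ)⁻¹ + (k0 + C) * (|(c0:ℝ)| * (k:ℝ)⁻¹) := add_le_add (h6 ▸ hck) h5
    _ = (C + (k0 + C) * |(c0:ℝ)|) * (k:ℝ)⁻¹ := by ring
    _ ≤ (C + (k0 + C) * |(c0:ℝ)|) * (2 * (n:ℝ)⁻¹) :=
        mul_le_mul_of_nonneg_left hinv (by positivity)
    _ = _ := by ring

theorem tendsto_of_rate {f : ℕ → ℝ} {c C : ℝ}
    (h : ∀ᶠ n : ℕ in atTop, |f n - c| ≤ C * (n:ℝ)⁻¹) : Tendsto f atTop (𝓝 c) := by
  have h1 : Tendsto (fun n : ℕ => C * (n:ℝ)⁻¹) atTop (𝓝 0) := by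
    have := (tendsto_inv_atTop_nhds_zero_nat (𝕜 := ℝ)).const_mul C
    rwa [mul_zero] at this
  have h2 : Tendsto (fun n => f n - c) atTop (𝓝 0) := squeeze_zero_norm' (by simpa using h) h1
  simpa using h2.add_const c

/-- power law error term in the straight half-planes -/
theorem rate_half (c0 : ℤ) {α : ℝ} (hα : 0 < α) (hα1 : α ≤ 1) (hF : FactP (Dw (fun _ => c0)) α)
    {G : Set Edg} {A : Set Vtx} (hG : ∃ r, ∀ e ∉ boxE r, (e ∈ G ↔ e ∈ Dw (fun _ => c0)))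
    (hA : ∃ r, ∀ v ∈ A, inB r v) (m : ℕ) (W : Finset Edg → Prop) {c : ℝ} (hc0 : 0 ≤ c)
    (hc : Tendsto (fun n : ℕ => PE m W G A n * (n:ℝ)^((1:ℝ)/3)) atTop (𝓝 c)) :
    ∃ C : ℝ, ∀ᶠ n : ℕ in atTop, |PE m W G A n * (n:ℝ)^((1:ℝ)/3) - c| ≤ C * (n:ℝ)^(-α) := by
  obtain ⟨rG, hG⟩ := hG
  obtain ⟨rA, hA⟩ := hA
  obtain ⟨s, hs⟩ : ∃ s : ℕ, s = rG + rA + c0.natAbs + 1 := ⟨_, rfl⟩
  obtain ⟨C', hC'0, hC'⟩ := ref_rate c0
  have hGs : ∀ e ∉ boxE s, (e ∈ G ↔ e ∈ Dw (fun _ => c0)) :=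
    fun e he => hG e (fun h => he (boxE_mono (by omega) h))
  obtain ⟨C, r0, hC, hr⟩ := hF s m 0 W (fun _ => True) G (Dw (fun _ => c0)) A
    {((1 + c0 : ℤ), (0:ℤ))} hGs (fun _ _ => Iff.rfl) (fun v hv => inB_mono (by omega) (hA v hv))
    (by
      rintro v rfl
      unfold inB inR
      simp only
      omega)
    (fun n => (n:ℝ)^((1:ℝ)/3)) (fun n => (n:ℤ)) c k0 (fun n => by positivity)
    tendsto_natCast_atTop_atTop hc (tendsto_of_rate hC') k0_pos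
  refine ⟨C * (k0 + C') * 4^α + c / k0 * C', ?_⟩
  filter_upwards [hC', eventually_ge_atTop (2 * r0 + 4)] with n h1 hn
  have hn1 : (1:ℝ) ≤ n := by exact_mod_cast (by omega : 1 ≤ n)
  have hn0 : (0:ℝ) < n := by linarith
  have h2 := hr ((n-1)/2) (by omega) (Dw (fun _ => c0)) (Cl n) [] Set.univ (fun _ _ => Iff.rfl)
    (Fr_Cl (by omega)) (by simp) MeasurableSet.univ (fun _ _ _ => Iff.rfl)
  rw [loc_same hGs, loc_same (fun _ _ => Iff.rfl), PW_PE, PW_PE] at h2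
  have hinv : (n:ℝ)⁻¹ ≤ 1 := inv_le_one_of_one_le₀ hn1
  have h3 := comb (a := (n:ℝ)^((1:ℝ)/3)) (k := k0) (k' := C') (by positivity) k0_pos hc0 hC
    (by positivity) h2 h1 (by nlinarith)
  refine h3.trans ?_
  have h4 : ((((n-1)/2 : ℕ)) : ℝ)^(-α) ≤ 4^α * (n:ℝ)^(-α) := by
    have h5 : (n:ℝ) / 4 ≤ (((n-1)/2 : ℕ) : ℝ) := by
      rw [div_le_iff₀ (by norm_num)]
      exact_mod_cast (by omega : n ≤ ((n-1)/2) * 4)
    calc ((((n-1)/2 : ℕ)) : ℝ)^(-α) ≤ ((n:ℝ)/4)^(-α) :=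
          Real.rpow_le_rpow_of_nonpos (by positivity) h5 (by linarith)
      _ = _ := by
          rw [Real.div_rpow hn0.le (by norm_num), Real.rpow_neg (by norm_num : (0:ℝ) ≤ 4),
            div_inv_eq_mul, mul_comm]
  have h6 : (n:ℝ)⁻¹ ≤ (n:ℝ)^(-α) := by
    rw [← Real.rpow_neg_one]
    exact Real.rpow_le_rpow_of_exponent_le hn1 (by linarith)
  have := k0_pos
  calc _ ≤ C * (k0 + C') * (4^α * (n:ℝ)^(-α)) + c / k0 * (C' * (n:ℝ)^(-α)) :=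
        add_le_add (mul_le_mul_of_nonneg_left h4 (by positivity))
          (mul_le_mul_of_nonneg_left (mul_le_mul_of_nonneg_left h6 hC'0) (by positivity))
    _ = _ := by ring

/-- the amplitude at the tip -/
noncomputable def k1 : ℝ := √Real.pi / Real.Gamma (1/3)

theorem k1_pos : 0 < k1 := by
  unfold k1
  have h2 := Real.Gamma_pos_of_pos (show (0:ℝ) < 1/3 by norm_num)
  have := Real.pi_pos
  positivity

/-- error term of the reference in the slit plane -/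
theorem ref_plane {C : ℝ} (hC : ∀ p r : ℕ, 1 ≤ p → 1 ≤ r →
    |PP (Slt ∩ Str p r) {((1:ℤ), (0:ℤ))} (1 + (r : ℤ)) * ((r : ℝ) * ((p:ℝ) + r) / p)^((1:ℝ)/6) -
      √Real.pi / Real.Gamma (1/3)| ≤ C / (min p r : ℕ)) (r : ℕ) (hr : 1 ≤ r) :
    |PP Slt {((1:ℤ), (0:ℤ))} (1 + (r : ℤ)) * (r : ℝ)^((1:ℝ)/6) - k1| ≤ C / r := by
  have h1 := Pool.Agent.H981R2.TP.PL.plane_tendsto r
  have h2 : Tendsto (fun p : ℕ => PP (Slt ∩ Str p r) {((1:ℤ), (0:ℤ))} (1 + (r : ℤ))) atTop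
      (𝓝 (PP Slt {((1:ℤ), (0:ℤ))} (1 + (r : ℤ)))) := by
    rw [plane_pp a_PERC]
    exact h1.congr fun p => (Pool.Agent.U566.SA.strip_pp a_PERC p r).symm
  have h3 : Tendsto (fun p : ℕ => (r:ℝ) * ((p:ℝ) + r) / p) atTop (𝓝 (r:ℝ)) := by
    have h4 : Tendsto (fun p : ℕ => (r:ℝ) * (1 + r * (p:ℝ)⁻¹)) atTop (𝓝 ((r:ℝ) * (1 + r * 0))) :=
      (((tendsto_inv_atTop_nhds_zero_nat (𝕜 := ℝ)).const_mul (r:ℝ)).const_add 1).const_mul (r:ℝ)
    rw [mul_zero, add_zero, mul_one] at h4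
    refine h4.congr' ?_
    filter_upwards [eventually_ge_atTop 1] with p hp
    have : (0:ℝ) < p := by exact_mod_cast hp
    field_simp
  have h5 : Tendsto (fun p : ℕ => |PP (Slt ∩ Str p r) {((1:ℤ), (0:ℤ))} (1 + (r : ℤ)) *
      ((r : ℝ) * ((p:ℝ) + r) / p)^((1:ℝ)/6) - k1|) atTop
      (𝓝 |PP Slt {((1:ℤ), (0:ℤ))} (1 + (r : ℤ)) * (r : ℝ)^((1:ℝ)/6) - k1|) :=
    ((h2.mul (h3.rpow_const (Or.inr (by norm_num)))).sub_const k1).abs
  refine le_of_tendsto h5 ?_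
  filter_upwards [eventually_ge_atTop r] with p hp
  have := hC p r (by omega) hr
  rwa [min_eq_right hp] at this

theorem radius_pow {α : ℝ} (hα : 0 < α) {n r : ℕ} (hn : 0 < n) (h : n ≤ r * 4) :
    (r : ℝ)^(-α) ≤ 4^α * (n:ℝ)^(-α) := by
  have hn0 : (0:ℝ) < n := by exact_mod_cast hn
  have h5 : (n:ℝ) / 4 ≤ (r : ℝ) := by
    rw [div_le_iff₀ (by norm_num)]
    exact_mod_cast h
  calc (r : ℝ)^(-α) ≤ ((n:ℝ)/4)^(-α) :=
        Real.rpow_le_rpow_of_nonpos (by positivity) h5 (by linarith)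
    _ = _ := by
        rw [Real.div_rpow hn0.le (by norm_num), Real.rpow_neg (by norm_num : (0:ℝ) ≤ 4),
          div_inv_eq_mul, mul_comm]

/-- power law error terms at the tip -/
theorem rate_slit {α : ℝ} (hα : 0 < α) (hα1 : α ≤ 1) (hF : FactP Slt α)
    {G : Set Edg} {A : Set Vtx} (hG : ∃ r, ∀ e ∉ boxE r, (e ∈ G ↔ e ∈ Slt))
    (hA : ∃ r, ∀ v ∈ A, inB r v) (m : ℕ) (W : Finset Edg → Prop) {c : ℝ} (hc0 : 0 ≤ c)
    (hc : Tendsto (fun r : ℕ => PE m W G A (1 + (r:ℤ)) * (r:ℝ)^((1:ℝ)/6)) atTop (𝓝 c)) :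
    ∃ (C : ℝ) (R : ℕ), (∀ p r : ℕ, R ≤ p → R ≤ r → |PE m W (G ∩ Str p r) A (1 + (r:ℤ)) *
        ((r : ℝ) * ((p:ℝ) + r) / p)^((1:ℝ)/6) - c| ≤ C * ((min p r : ℕ):ℝ)^(-α)) ∧
      ∀ r : ℕ, R ≤ r → |PE m W G A (1 + (r:ℤ)) * (r : ℝ)^((1:ℝ)/6) - c| ≤ C * (r:ℝ)^(-α) := by
  obtain ⟨rG, hG⟩ := hG
  obtain ⟨rA, hA⟩ := hA
  obtain ⟨s, hs⟩ : ∃ s : ℕ, s = rG + rA + 1 := ⟨_, rfl⟩
  obtain ⟨C', hC'⟩ := Pool.Agent.U67.SA.t_REFS a_PERC a_PPB
  have hC'0 : 0 ≤ C' := by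
    have := (abs_nonneg _).trans (hC' 1 1 le_rfl le_rfl)
    simpa using this
  have hpl := ref_plane hC'
  have hGs : ∀ e ∉ boxE s, (e ∈ G ↔ e ∈ Slt) :=
    fun e he => hG e (fun h => he (boxE_mono (by omega) h))
  have hN : Tendsto (fun n : ℕ => 1 + (n:ℤ)) atTop atTop :=
    tendsto_atTop_add_const_left _ _ tendsto_natCast_atTop_atTop
  obtain ⟨C, r0, hC, hr⟩ := hF s m 0 W (fun _ => True) G Slt A {((1:ℤ), (0:ℤ))} hGs
    (fun _ _ => Iff.rfl) (fun v hv => inB_mono (by omega) (hA v hv))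
    (by
      rintro v rfl
      unfold inB inR
      simp only
      omega)
    (fun n => (n:ℝ)^((1:ℝ)/6)) (fun n => 1 + (n:ℤ)) c k1 (fun n => by positivity) hN hc
    (by
      have h := t_EX4 a_PERC
      unfold ExStm4 at h
      refine h.congr fun n => ?_
      rw [PEt]) k1_pos
  have k1p := k1_pos
  refine ⟨C * (k1 + C') * 4^α + c / k1 * C', 2 * r0 + 2 * s + 8, ?_, ?_⟩
  · intro p r hp hr'
    obtain ⟨n, hn⟩ : ∃ n : ℕ, n = min p r := ⟨_, rfl⟩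
    have hnp : n ≤ p := by omega
    have hnr : n ≤ r := by omega
    have hnb : 2 * r0 + 2 * s + 8 ≤ n := by omega
    rw [← hn]
    have hn1 : (1:ℝ) ≤ n := by exact_mod_cast (by omega : 1 ≤ n)
    have hn0 : (0:ℝ) < n := by linarith
    have hbox : ∀ e ∈ boxE ((n-2)/2), e ∈ Str p r :=
      fun e he => mem_Str (R := (n-2)/2) (by omega) (by omega) he
    have h2 := hr ((n-2)/2) (by omega) (Slt ∩ Str p r) (Cl (1 + (r:ℤ))) [] Set.univ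
      (fun e he => ⟨fun h => h.1, fun h => ⟨h, hbox e he⟩⟩)
      (Fr_Cl (by omega)) (by simp) MeasurableSet.univ (fun _ _ _ => Iff.rfl)
    have e1 : loc s G (Slt ∩ Str p r) = G ∩ Str p r := by
      ext e
      by_cases he : e ∈ boxE s
      · rw [loc_in he]
        exact ⟨fun h => ⟨h, hbox e (boxE_mono (by omega) he)⟩, fun h => h.1⟩
      · rw [loc_out he]
        exact ⟨fun h => ⟨(hGs e he).mpr h.1, h.2⟩, fun h => ⟨(hGs e he).mp h.1, h.2⟩⟩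
    have e2 : loc s Slt (Slt ∩ Str p r) = Slt ∩ Str p r := by
      ext e
      by_cases he : e ∈ boxE s
      · rw [loc_in he]
        exact ⟨fun h => ⟨h, hbox e (boxE_mono (by omega) he)⟩, fun h => h.1⟩
      · rw [loc_out he]
    rw [e1, e2, PW_PE, PW_PE, PEt] at h2
    have h1 := hC' p r (by omega) (by omega)
    rw [← hn, div_eq_mul_inv C'] at h1
    have hinv : (n:ℝ)⁻¹ ≤ 1 := inv_le_one_of_one_le₀ hn1
    have h3 := comb (a := ((r : ℝ) * ((p:ℝ) + r) / p)^((1:ℝ)/6)) (k := k1) (k' := C')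
      (by positivity) k1_pos hc0 hC (by positivity) h2 h1 (by nlinarith)
    refine h3.trans ?_
    have h4 : ((((n-2)/2 : ℕ)) : ℝ)^(-α) ≤ 4^α * (n:ℝ)^(-α) :=
      radius_pow hα (by omega) (by omega)
    have h6 : (n:ℝ)⁻¹ ≤ (n:ℝ)^(-α) := by
      rw [← Real.rpow_neg_one]
      exact Real.rpow_le_rpow_of_exponent_le hn1 (by linarith)
    calc _ ≤ C * (k1 + C') * (4^α * (n:ℝ)^(-α)) + c / k1 * (C' * (n:ℝ)^(-α)) :=
          add_le_add (mul_le_mul_of_nonneg_left h4 (by positivity))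
            (mul_le_mul_of_nonneg_left (mul_le_mul_of_nonneg_left h6 hC'0) (by positivity))
      _ = _ := by ring
  · intro n hn
    have hn1 : (1:ℝ) ≤ n := by exact_mod_cast (by omega : 1 ≤ n)
    have hn0 : (0:ℝ) < n := by linarith
    have h2 := hr (n/2) (by omega) Slt (Cl (1 + (n:ℤ))) [] Set.univ
      (fun e he => Iff.rfl)
      (Fr_Cl (by omega)) (by simp) MeasurableSet.univ (fun _ _ _ => Iff.rfl)
    rw [loc_same hGs, loc_same (fun _ _ => Iff.rfl), PW_PE, PW_PE, PEt] at h2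
    have h1 := hpl n (by omega)
    rw [div_eq_mul_inv C'] at h1
    have hinv : (n:ℝ)⁻¹ ≤ 1 := inv_le_one_of_one_le₀ hn1
    have h3 := comb (a := (n : ℝ)^((1:ℝ)/6)) (k := k1) (k' := C')
      (by positivity) k1_pos hc0 hC (by positivity) h2 h1 (by nlinarith)
    refine h3.trans ?_
    have h4 : (((n/2 : ℕ)) : ℝ)^(-α) ≤ 4^α * (n:ℝ)^(-α) :=
      radius_pow hα (by omega) (by omega)
    have h6 : (n:ℝ)⁻¹ ≤ (n:ℝ)^(-α) := by
      rw [← Real.rpow_neg_one]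
      exact Real.rpow_le_rpow_of_exponent_le hn1 (by linarith)
    calc _ ≤ C * (k1 + C') * (4^α * (n:ℝ)^(-α)) + c / k1 * (C' * (n:ℝ)^(-α)) :=
          add_le_add (mul_le_mul_of_nonneg_left h4 (by positivity))
            (mul_le_mul_of_nonneg_left (mul_le_mul_of_nonneg_left h6 hC'0) (by positivity))
      _ = _ := by ring

end Pool.Agent.U167.SA
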