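import Pool.Agent.U167.SA.RLG

/-! Project SA: the ratio limit theorem for local events. -/

set_option autoImplicit false

namespace Pool.Agent.U167.SA

open H974 Finset Filter Topology

open Classical in
/-- probability of the arm together with a local event -/
noncomputable def PE (m : ℕ) (W : Finset Edg → Prop) (G : Set Edg) (A : Set Vtx) (n : ℤ) : ℝ :=
  percE.real {ω | W ((boxE m).filter (fun e => ω e = true)) ∧
      ∃ u ∈ A, ∃ v, col v = n ∧ Reach ({e | ω e = true} ∩ G) u v}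

theorem PE_up {m m1 : ℕ} (h : m ≤ m1) (W : Finset Edg → Prop) (G : Set Edg) (A : Set Vtx) (n : ℤ) :
    PE m W G A n = PE m1 (fun η => W (η ∩ boxE m)) G A n := by
  unfold PE
  congr 1
  ext ω
  simp only [Set.mem_ofPred_eq]
  have : (boxE m1).filter (fun e => ω e = true) ∩ boxE m = (boxE m).filter (fun e => ω e = true) := by
    ext e
    simp only [Finset.mem_inter, Finset.mem_filter]
    constructor
    · rintro ⟨⟨-, h2⟩, h3⟩
      exact ⟨h3, h2⟩
    · rintro ⟨h1, h2⟩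
      exact ⟨⟨boxE_mono h h1, h2⟩, h1⟩
  rw [this]

theorem PPm_mono (hP : PPMStm) {m : ℕ} {η η' : Finset Edg} {G G' : Set Edg} {A A' : Set Vtx} {n : ℤ}
    (h1 : η ⊆ η') (h2 : G ⊆ G') (h3 : A ⊆ A') : PPm m η G A n ≤ PPm m η' G' A' n := by
  refine le_of_tendsto_of_tendsto' (hP.2.2.1 m η G A n) (hP.2.2.1 m η' G' A' n) fun M => ?_
  apply Pr_mono (okq (by norm_num) (by norm_num))
  rintro F - ⟨u, hu, v, hv, hr⟩
  refine ⟨u, h3 hu, v, hv, hr.mono ?_⟩
  apply Set.inter_subset_inter _ h2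
  unfold md
  intro e he
  rw [Finset.mem_coe, Finset.mem_union] at he ⊢
  rcases he with he | he
  · exact Or.inl he
  · exact Or.inr (h1 he)

/-- `Gf i` is the domain `G` near the origin and `O i` far away -/
def Fam {ι : Type} (l : Filter ι) (O : ι → Set Edg) (Gf : ι → Set Edg) : Prop :=
  ∃ (G : Set Edg) (m2 : ℕ), ∀ m1 : ℕ, m2 ≤ m1 → ∀ᶠ i in l, Gf i = loc m1 G (O i)

/-- **ratio limits for local events** -/
theorem Fgen {D : Set Edg} (hSW : SWG D) (hP : PPMStm) (hL : LOCStm) {ι : Type} {l : Filter ι}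
    [l.NeBot] (O : ι → Set Edg) (N : ι → ℤ)
    (hO : ∀ R : ℕ, ∀ᶠ i in l, (∀ e ∈ boxE R, (e ∈ O i ↔ e ∈ D)) ∧ 2 * (R:ℤ) < N i)
    {m m' : ℕ} {W W' : Finset Edg → Prop} {Gf Gf' : ι → Set Edg} {A A' : Set Vtx}
    (hG : Fam l O Gf) (hG' : Fam l O Gf') (hA : ∃ r, ∀ v ∈ A, inB r v)
    (hA' : ∃ r, ∀ v ∈ A', inB r v) (hY' : ∀ᶠ i in l, 0 < PE m' W' (Gf' i) A' (N i)) :
    ∃ c : ℝ, 0 ≤ c ∧ Tendsto (fun i => PE m W (Gf i) A (N i) / PE m' W' (Gf' i) A' (N i)) l (𝓝 c) ∧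
      ((∃ᶠ i in l, 0 < PE m W (Gf i) A (N i)) → 0 < c) := by
  obtain ⟨m0, hR⟩ := RLG hSW hP
  obtain ⟨G, m2, hm2⟩ := hG
  obtain ⟨G', m2', hm2'⟩ := hG'
  obtain ⟨r, hr⟩ := hA
  obtain ⟨r', hr'⟩ := hA'
  obtain ⟨m1, hm1⟩ : ∃ m1 : ℕ, m1 = m0 + m2 + m2' + r + r' + m + m' := ⟨_, rfl⟩
  set w : ℝ := (1/2 : ℝ)^(boxE m1).card with hw
  have hw0 : 0 < w := by positivity
  set Y : ι → ℝ := fun i => PPm m1 (boxE m1) (loc m1 Set.univ (O i)) {v | inB m1 v} (N i) with hY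
  -- representation
  have rep : ∀ (k : ℕ) (V : Finset Edg → Prop) (B : Set Vtx) (Hf : ι → Set Edg) (H : Set Edg),
      k ≤ m1 → (∀ᶠ i in l, Hf i = loc m1 H (O i)) → ∃ T : Finset (Finset Edg),
        (∀ η ∈ T, η ⊆ boxE m1) ∧ ∀ᶠ i in l, PE k V (Hf i) B (N i) =
          ∑ η ∈ T, w * PPm m1 η (loc m1 H (O i)) B (N i) := by
    intro k V B Hf H hk hH
    classical
    refine ⟨(boxE m1).powerset.filter (fun η => V (η ∩ boxE k)), fun η hη => ?_, ?_⟩
    · rw [Finset.mem_filter, Finset.mem_powerset] at hη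
      exact hη.1
    · filter_upwards [hH] with i hi
      rw [PE_up hk, hi]
      have := hL m1 (fun η => V (η ∩ boxE k)) (loc m1 H (O i)) B (N i)
      unfold PE
      convert this using 2
  obtain ⟨T, hT1, hT2⟩ := rep m W A Gf G (by omega) (hm2 m1 (by omega))
  obtain ⟨T', hT1', hT2'⟩ := rep m' W' A' Gf' G' (by omega) (hm2' m1 (by omega))
  have hA1 : ∀ v ∈ A, inB m1 v := fun v hv => inB_mono (by omega) (hr v hv)
  have hA1' : ∀ v ∈ A', inB m1 v := fun v hv => inB_mono (by omega) (hr' v hv)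
  have hYpos : ∀ᶠ i in l, 0 < Y i := by
    filter_upwards [hY', hT2'] with i h1 h2
    rw [h2] at h1
    obtain ⟨η, hη, h3⟩ := Finset.exists_lt_of_sum_lt (s := T') (f := fun _ => (0:ℝ))
      (g := fun η => w * PPm m1 η (loc m1 G' (O i)) A' (N i)) (by simpa using h1)
    have h4 : 0 < PPm m1 η (loc m1 G' (O i)) A' (N i) := by
      by_contra h5
      push Not at h5
      have : w * PPm m1 η (loc m1 G' (O i)) A' (N i) ≤ 0 :=
        mul_nonpos_of_nonneg_of_nonpos hw0.le h5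
      exact absurd h3 (not_lt.mpr this)
    refine h4.trans_le (PPm_mono hP (hT1' η hη) ?_ hA1')
    rintro e (h | h)
    · exact Or.inl ⟨Set.mem_univ _, h.2⟩
    · exact Or.inr h
  -- limits
  have lim : ∀ (k : ℕ) (V : Finset Edg → Prop) (B : Set Vtx) (Hf : ι → Set Edg) (H : Set Edg)
      (S : Finset (Finset Edg)), (∀ v ∈ B, inB m1 v) → (∀ η ∈ S, η ⊆ boxE m1) →
      (∀ᶠ i in l, PE k V (Hf i) B (N i) = ∑ η ∈ S, w * PPm m1 η (loc m1 H (O i)) B (N i)) →
      ∃ c : ℝ, 0 ≤ c ∧ Tendsto (fun i => PE k V (Hf i) B (N i) / Y i) l (𝓝 c) ∧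
        ((∃ᶠ i in l, 0 < PE k V (Hf i) B (N i)) → 0 < c) := by
    intro k V B Hf H S hB hS hrep
    have h1 : ∀ η : Finset Edg, ∃ c : ℝ, η ∈ S → 0 ≤ c ∧ Tendsto (fun i =>
        PPm m1 η (loc m1 H (O i)) B (N i) / Y i) l (𝓝 c) ∧
        ((∃ᶠ i in l, 0 < PPm m1 η (loc m1 H (O i)) B (N i)) → 0 < c) := by
      intro η
      by_cases hη : η ∈ S
      · obtain ⟨c, hc⟩ := hR O N hO m1 (by omega) η (boxE m1) H Set.univ B {v | inB m1 v} (hS η hη)
          subset_rfl hB (fun v hv => hv) hYpos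
        exact ⟨c, fun _ => hc⟩
      · exact ⟨0, fun h => absurd h hη⟩
    choose c hc using h1
    refine ⟨∑ η ∈ S, w * c η, Finset.sum_nonneg fun η hη => mul_nonneg hw0.le (hc η hη).1, ?_, ?_⟩
    · have h2 : Tendsto (fun i => ∑ η ∈ S, w * (PPm m1 η (loc m1 H (O i)) B (N i) / Y i)) l
          (𝓝 (∑ η ∈ S, w * c η)) :=
        tendsto_finset_sum _ fun η hη => ((hc η hη).2.1).const_mul w
      refine h2.congr' ?_
      filter_upwards [hrep] with i hi
      rw [hi, Finset.sum_div]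
      exact Finset.sum_congr rfl fun η _ => by ring
    · intro hfr
      have h3 : ∃ η ∈ S, ∃ᶠ i in l, 0 < PPm m1 η (loc m1 H (O i)) B (N i) := by
        by_contra hcon
        push Not at hcon
        have h4 : ∀ᶠ i in l, ∀ η ∈ S, ¬ 0 < PPm m1 η (loc m1 H (O i)) B (N i) := by
          rw [Filter.eventually_all_finset]
          intro η hη
          exact (hcon η hη).mono fun x hx => not_lt.mpr hx
        obtain ⟨i, h5, h6, h7⟩ := (hfr.and_eventually (h4.and hrep)).exists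
        rw [h7] at h5
        have h8 : ∑ η ∈ S, w * PPm m1 η (loc m1 H (O i)) B (N i) ≤ 0 :=
          Finset.sum_nonpos fun η hη =>
            mul_nonpos_of_nonneg_of_nonpos hw0.le (not_lt.mp (h6 η hη))
        linarith
      obtain ⟨η, hη, h4⟩ := h3
      exact Finset.sum_pos' (fun η hη => mul_nonneg hw0.le (hc η hη).1)
        ⟨η, hη, mul_pos hw0 ((hc η hη).2.2 h4)⟩
  obtain ⟨c, hc0, hcT, hcp⟩ := lim m W A Gf G T hA1 hT1 hT2
  obtain ⟨c', hc0', hcT', hcp'⟩ := lim m' W' A' Gf' G' T' hA1' hT1' hT2'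
  have hc'pos : 0 < c' := hcp' hY'.frequently
  refine ⟨c / c', by positivity, ?_, fun h => div_pos (hcp h) hc'pos⟩
  refine (hcT.div hcT' hc'pos.ne').congr' ?_
  filter_upwards [hYpos] with i hi
  rw [Pi.div_apply]
  exact div_div_div_cancel_right₀ hi.ne' _ _

end Pool.Agent.U167.SA
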