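import Pool.Agent.U439.SA.LW2
import Pool.Agent.U167.SA.Stm9

/-! Project SA: weighted form of LW2 (adapted from helper439's LW2). -/

set_option autoImplicit false

namespace Pool.Agent.U167.SA

open H974 Finset Filter Topology MeasureTheory
open Pool.Agent.U439.SA (abs_lim apriori fb_nonneg inB_mono')

theorem integral_sq_w {Ω : Type*} [MeasurableSpace Ω] (μ : Measure Ω) [IsProbabilityMeasure μ]
    (X Z : ℕ → Set Ω) (hX : ∀ k, MeasurableSet (X k)) (hZ : ∀ k, MeasurableSet (Z k)) (κ : ℝ)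
    (a : ℕ → ℝ) (n : ℕ) :
    ∫ ω, (∑ k ∈ range n, a k * ((X k).indicator (fun _ => (1:ℝ)) ω -
      κ * (Z k).indicator (fun _ => (1:ℝ)) ω))^2 ∂μ =
    ∑ k ∈ range n, ∑ l ∈ range n, a k * a l * (μ.real (X k ∩ X l) - κ * μ.real (X k ∩ Z l) -
      κ * μ.real (Z k ∩ X l) + κ^2 * μ.real (Z k ∩ Z l)) := by
  have hind : ∀ S : Set Ω, MeasurableSet S → Integrable (S.indicator (fun _ => (1:ℝ))) μ :=
    fun S hS => (integrable_const _).indicator hS
  have hint : ∀ S : Set Ω, MeasurableSet S → ∫ ω, S.indicator (fun _ => (1:ℝ)) ω ∂μ = μ.real S := by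
    intro S hS
    rw [integral_indicator hS]
    simp
  have hmul : ∀ (S T : Set Ω) (ω : Ω), S.indicator (fun _ => (1:ℝ)) ω *
      T.indicator (fun _ => (1:ℝ)) ω = (S ∩ T).indicator (fun _ => (1:ℝ)) ω := by
    intro S T ω
    by_cases hS : ω ∈ S
    · by_cases hT : ω ∈ T
      · simp [hS, hT]
      · simp [hS, hT]
    · simp [hS]
  have hpt : ∀ ω, (∑ k ∈ range n, a k * ((X k).indicator (fun _ => (1:ℝ)) ω -
      κ * (Z k).indicator (fun _ => (1:ℝ)) ω))^2 =
      ∑ k ∈ range n, ∑ l ∈ range n, a k * a l * ((X k ∩ X l).indicator (fun _ => (1:ℝ)) ω -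
        κ * (X k ∩ Z l).indicator (fun _ => (1:ℝ)) ω -
        κ * (Z k ∩ X l).indicator (fun _ => (1:ℝ)) ω +
        κ^2 * (Z k ∩ Z l).indicator (fun _ => (1:ℝ)) ω) := by
    intro ω
    rw [sq, Finset.sum_mul_sum]
    refine Finset.sum_congr rfl fun k _ => Finset.sum_congr rfl fun l _ => ?_
    rw [← hmul, ← hmul, ← hmul, ← hmul]
    ring
  have i1 : ∀ k l, Integrable (fun ω => (X k ∩ X l).indicator (fun _ => (1:ℝ)) ω) μ := fun k l =>
    hind _ ((hX k).inter (hX l))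
  have i2 : ∀ k l, Integrable (fun ω => κ * (X k ∩ Z l).indicator (fun _ => (1:ℝ)) ω) μ :=
    fun k l => (hind _ ((hX k).inter (hZ l))).const_mul κ
  have i3 : ∀ k l, Integrable (fun ω => κ * (Z k ∩ X l).indicator (fun _ => (1:ℝ)) ω) μ :=
    fun k l => (hind _ ((hZ k).inter (hX l))).const_mul κ
  have i4 : ∀ k l, Integrable (fun ω => κ^2 * (Z k ∩ Z l).indicator (fun _ => (1:ℝ)) ω) μ :=
    fun k l => (hind _ ((hZ k).inter (hZ l))).const_mul (κ^2)
  have i12 : ∀ k l, Integrable (fun ω => (X k ∩ X l).indicator (fun _ => (1:ℝ)) ω -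
        κ * (X k ∩ Z l).indicator (fun _ => (1:ℝ)) ω) μ := fun k l => (i1 k l).sub (i2 k l)
  have i123 : ∀ k l, Integrable (fun ω => (X k ∩ X l).indicator (fun _ => (1:ℝ)) ω -
        κ * (X k ∩ Z l).indicator (fun _ => (1:ℝ)) ω -
        κ * (Z k ∩ X l).indicator (fun _ => (1:ℝ)) ω) μ := fun k l => (i12 k l).sub (i3 k l)
  have hT : ∀ k l, Integrable (fun ω => a k * a l * ((X k ∩ X l).indicator (fun _ => (1:ℝ)) ω -
        κ * (X k ∩ Z l).indicator (fun _ => (1:ℝ)) ω -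
        κ * (Z k ∩ X l).indicator (fun _ => (1:ℝ)) ω +
        κ^2 * (Z k ∩ Z l).indicator (fun _ => (1:ℝ)) ω)) μ := fun k l =>
    ((i123 k l).add (i4 k l)).const_mul _
  rw [integral_congr_ae (Filter.Eventually.of_forall hpt)]
  rw [integral_finsetSum _ (fun k _ => integrable_finsetSum _ fun l _ => hT k l)]
  refine Finset.sum_congr rfl fun k _ => ?_
  rw [integral_finsetSum _ (fun l _ => hT k l)]
  refine Finset.sum_congr rfl fun l _ => ?_
  rw [integral_const_mul, integral_add (i123 k l) (i4 k l), integral_sub (i12 k l) (i3 k l),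
    integral_sub (i1 k l) (i2 k l),
    integral_const_mul, integral_const_mul, integral_const_mul,
    hint _ ((hX k).inter (hX l)), hint _ ((hX k).inter (hZ l)), hint _ ((hZ k).inter (hX l)),
    hint _ ((hZ k).inter (hZ l))]

theorem t_LW2W : LW2WStm := by
  intro hPos hMea hTwo hBnd hInd hSum α hα hF c0 hc0 hlim0 m W A c hA hlim
  obtain ⟨r1, hr1⟩ := hA
  have hc : 0 ≤ c := ge_of_tendsto' hlim fun n =>
    mul_nonneg measureReal_nonneg (Real.rpow_nonneg (Nat.cast_nonneg n) _)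
  have hms : m ≤ max m r1 := le_max_left _ _
  have hAs : ∀ v ∈ A, inB (max m r1) v := fun v hv => inB_mono' (le_max_right _ _) (hr1 v hv)
  have h0s : ∀ v ∈ ({((0:ℤ), (0:ℤ))} : Set Vtx), inB (max m r1) v := by
    intro v hv
    rw [Set.mem_singleton_iff] at hv
    subst hv
    exact ⟨⟨neg_nonpos.2 (Int.natCast_nonneg _), Int.natCast_nonneg _⟩,
      ⟨neg_nonpos.2 (Int.natCast_nonneg _), Int.natCast_nonneg _⟩⟩
  generalize hs : max m r1 = s at hms hAs h0s
  have hκ0 : 0 ≤ c / c0 := div_nonneg hc hc0.le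
  have hcc : c0 / c0 = 1 := div_self hc0.ne'
  obtain ⟨C1, a1, hC1, h1⟩ := hTwo hPos hMea α hα hF c0 hc0 hlim0 s m m W W A A c c hms hms hAs hAs
    hlim hlim
  obtain ⟨C2, a2, hC2, h2⟩ := hTwo hPos hMea α hα hF c0 hc0 hlim0 s m 0 W (fun _ => True) A
    {((0:ℤ), (0:ℤ))} c c0 hms (Nat.zero_le _) hAs h0s hlim hlim0
  obtain ⟨C3, a3, hC3, h3⟩ := hTwo hPos hMea α hα hF c0 hc0 hlim0 s 0 m (fun _ => True) W
    {((0:ℤ), (0:ℤ))} A c0 c (Nat.zero_le _) hms h0s hAs hlim0 hlim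
  obtain ⟨CA, hCA, hbA⟩ := hBnd s A hAs
  obtain ⟨CZ, hCZ, hbZ⟩ := hBnd s {((0:ℤ), (0:ℤ))} h0s
  obtain ⟨hS1, hS2⟩ := hSum
  generalize hκ : c / c0 = κ at *
  set K : ℝ := max 1 (CA * CA) with hK
  set K0 : ℝ := max 1 (CZ * CZ) with hK0
  set K2 : ℝ := max 1 (CA * CZ) with hK2
  set K3 : ℝ := max 1 (CZ * CA) with hK3
  have hK1 : 1 ≤ K := le_max_left _ _
  have hK01 : 1 ≤ K0 := le_max_left _ _
  have hK21 : 1 ≤ K2 := le_max_left _ _
  have hK31 : 1 ≤ K3 := le_max_left _ _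
  have main := abs_lim (fun n => ∑ k ∈ range n, ∑ l ∈ range n,
      |percE.real (XE m W A n k ∩ XE m W A n l) -
      κ * percE.real (XE m W A n k ∩ X0 n l) - κ * percE.real (X0 n k ∩ XE m W A n l) +
      κ^2 * percE.real (X0 n k ∩ X0 n l)|)
    (fun n k l => |percE.real (XE m W A n k ∩ XE m W A n l) -
      κ * percE.real (XE m W A n k ∩ X0 n l) - κ * percE.real (X0 n k ∩ XE m W A n l) +
      κ^2 * percE.real (X0 n k ∩ X0 n l)|)
    fb (fun n k l => (rh s n k l : ℝ)) α (K + κ * K2 + κ * K3 + κ^2 * K0)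
    ((C1 + κ * C2 + κ * C3) * K0)
    (max (max (a1:ℝ) a2) a3) hα (by positivity) (by positivity) fb_nonneg (fun n => rfl)
    (fun n => Finset.sum_nonneg fun k _ => Finset.sum_nonneg fun l _ => abs_nonneg _) ?_ ?_ hS1
    (hS2 s)
  · intro ε hε
    obtain ⟨N, hN⟩ := Metric.tendsto_atTop.mp main ε hε
    refine ⟨N, fun n hn a ha => ?_⟩
    have h5 := hN n hn
    have hpos : (0:ℝ) < (2 * (n:ℝ) + 1)^((4:ℝ)/3) := by positivity
    rw [Real.dist_eq, sub_zero, abs_of_nonneg (div_nonneg (Finset.sum_nonneg fun k _ =>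
      Finset.sum_nonneg fun l _ => abs_nonneg _) hpos.le), div_lt_iff₀ hpos] at h5
    refine le_trans ?_ h5.le
    have h6 := integral_sq_w percE (fun k : ℕ => XE m W A n (k:ℤ)) (fun k : ℕ => X0 n (k:ℤ))
      (fun k => (hMea m W A n k).1) (fun k => (hMea 0 (fun _ => True) _ n k).1) κ a n
    rw [h6]
    refine Finset.sum_le_sum fun k _ => Finset.sum_le_sum fun l _ => ?_
    refine (le_abs_self _).trans ?_
    rw [abs_mul, abs_mul]
    have h7 : |a k| * |a l| ≤ 1 := mul_le_one₀ (ha k) (abs_nonneg _) (ha l)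
    exact mul_le_of_le_one_left (abs_nonneg _) h7
  · intro n k l hk hl
    have e1 := apriori hInd m m W W A A CA CA hCA hbA hbA n k l hk hl
    have e2 := apriori hInd 0 0 (fun _ => True) (fun _ => True) _ _ CZ CZ hCZ hbZ hbZ n k l hk hl
    have e3 := apriori hInd m 0 W (fun _ => True) _ _ CA CZ hCA hbA hbZ n k l hk hl
    have e4 := apriori hInd 0 m (fun _ => True) W _ _ CZ CA hCZ hbZ hbA n k l hk hl
    have p1 : 0 ≤ percE.real (XE m W A n k ∩ XE m W A n l) := measureReal_nonneg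
    have p2 : 0 ≤ percE.real (XE m W A n k ∩ X0 n l) := measureReal_nonneg
    have p3 : 0 ≤ percE.real (X0 n k ∩ XE m W A n l) := measureReal_nonneg
    have p4 : 0 ≤ percE.real (X0 n k ∩ X0 n l) := measureReal_nonneg
    have e5 : percE.real (X0 n k ∩ X0 n l) ≤ K0 * fb n k l := e2
    have e3' : percE.real (XE m W A n k ∩ X0 n l) ≤ K2 * fb n k l := e3
    have e4' : percE.real (X0 n k ∩ XE m W A n l) ≤ K3 * fb n k l := e4
    have q2 := mul_le_mul_of_nonneg_left e3' hκ0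
    have q3 := mul_le_mul_of_nonneg_left e4' hκ0
    have q4 := mul_le_mul_of_nonneg_left e5 (sq_nonneg κ)
    have z2 := mul_nonneg hκ0 p2
    have z3 := mul_nonneg hκ0 p3
    have z4 := mul_nonneg (sq_nonneg κ) p4
    have e9 : (K + κ * K2 + κ * K3 + κ^2 * K0) * fb n k l =
      K * fb n k l + κ * (K2 * fb n k l) + κ * (K3 * fb n k l) + κ^2 * (K0 * fb n k l) := by ring
    rw [e9, abs_le]
    constructor
    · linarith
    · linarith
  · intro n k l hk hl hr
    have r1' : (a1:ℤ) ≤ rh s n k l := by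
      have : (a1:ℝ) ≤ (rh s n k l : ℝ) := le_trans (le_trans (le_max_left _ _) (le_max_left _ _)) hr
      exact_mod_cast this
    have r2' : (a2:ℤ) ≤ rh s n k l := by
      have : (a2:ℝ) ≤ (rh s n k l : ℝ) := le_trans (le_trans (le_max_right _ _) (le_max_left _ _)) hr
      exact_mod_cast this
    have r3' : (a3:ℤ) ≤ rh s n k l := by
      have : (a3:ℝ) ≤ (rh s n k l : ℝ) := le_trans (le_max_right _ _) hr
      exact_mod_cast this
    have f1 := h1 n k l hk hl r1'
    have f2 := h2 n k l hk hl r2'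
    have f3 := h3 n k l hk hl r3'
    rw [hcc, mul_one] at f2
    rw [hcc, one_mul] at f3
    have f2' : |percE.real (XE m W A n k ∩ X0 n l) - κ * percE.real (X0 n k ∩ X0 n l)| ≤
      C2 * (rh s n k l : ℝ)^(-α) * percE.real (X0 n k ∩ X0 n l) := f2
    have f3' : |percE.real (X0 n k ∩ XE m W A n l) - κ * percE.real (X0 n k ∩ X0 n l)| ≤
      C3 * (rh s n k l : ℝ)^(-α) * percE.real (X0 n k ∩ X0 n l) := f3
    have e2 := apriori hInd 0 0 (fun _ => True) (fun _ => True) _ _ CZ CZ hCZ hbZ hbZ n k l hk hl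
    have e5 : percE.real (X0 n k ∩ X0 n l) ≤ K0 * fb n k l := e2
    set P := percE.real (X0 n k ∩ X0 n l) with hP
    have hrh : (0:ℝ) ≤ (rh s n k l : ℝ) := by
      have : (0:ℤ) ≤ rh s n k l := le_trans (Int.natCast_nonneg _) r1'
      exact_mod_cast this
    have hx : 0 ≤ (rh s n k l : ℝ)^(-α) := Real.rpow_nonneg hrh _
    set x := (rh s n k l : ℝ)^(-α) with hxd
    have g4 : (C1 + κ * C2 + κ * C3) * x * P ≤ (C1 + κ * C2 + κ * C3) * x * (K0 * fb n k l) :=
      mul_le_mul_of_nonneg_left e5 (mul_nonneg (by positivity) hx)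
    have g5 : (C1 + κ * C2 + κ * C3) * x * (K0 * fb n k l) =
        (C1 + κ * C2 + κ * C3) * K0 * x * fb n k l := by ring
    have dec : percE.real (XE m W A n k ∩ XE m W A n l) -
        κ * percE.real (XE m W A n k ∩ X0 n l) - κ * percE.real (X0 n k ∩ XE m W A n l) +
        κ^2 * P =
        (percE.real (XE m W A n k ∩ XE m W A n l) - κ * κ * P) -
        κ * (percE.real (XE m W A n k ∩ X0 n l) - κ * P) -
        κ * (percE.real (X0 n k ∩ XE m W A n l) - κ * P) := by ring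
    rw [dec]
    refine (abs_sub _ _).trans ?_
    have t1 := abs_sub (percE.real (XE m W A n k ∩ XE m W A n l) - κ * κ * P)
      (κ * (percE.real (XE m W A n k ∩ X0 n l) - κ * P))
    have t2 : |κ * (percE.real (XE m W A n k ∩ X0 n l) - κ * P)| ≤ κ * (C2 * x * P) := by
      rw [abs_mul, abs_of_nonneg hκ0]
      exact mul_le_mul_of_nonneg_left f2' hκ0
    have t3 : |κ * (percE.real (X0 n k ∩ XE m W A n l) - κ * P)| ≤ κ * (C3 * x * P) := by
      rw [abs_mul, abs_of_nonneg hκ0]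
      exact mul_le_mul_of_nonneg_left f3' hκ0
    have t4 : (C1 + κ * C2 + κ * C3) * x * P = C1 * x * P + κ * (C2 * x * P) + κ * (C3 * x * P) := by
      ring
    linarith

end Pool.Agent.U167.SA
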