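import Pool.Agent.U167.SA.Amp

/-! Project SA: the two limit theorems. -/

set_option autoImplicit false

namespace Pool.Agent.U167.SA

open H974 Finset Filter Topology

theorem rpow_shift (k : ℕ) : Tendsto (fun n : ℕ => (n:ℝ)^((1:ℝ)/3) / ((n:ℝ) + k)^((1:ℝ)/3)) atTop
    (𝓝 1) := by
  have h1 : Tendsto (fun n : ℕ => (n:ℝ) / ((n:ℝ) + k)) atTop (𝓝 1) :=
    tendsto_natCast_div_add_atTop (k:ℝ)
  have h2 := h1.rpow_const (p := (1:ℝ)/3) (Or.inl one_ne_zero)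
  rw [Real.one_rpow] at h2
  refine h2.congr fun n => ?_
  rw [Real.div_rpow (by positivity) (by positivity)]

theorem shE_out {k : ℕ} {a b : ℤ} {s : ℤ} (hs : s.natAbs ≤ k) {G : Set Edg} {r : ℕ}
    (h : ∀ e ∉ boxE r, (e ∈ G ↔ e ∈ Dm a b)) :
    ∀ e ∉ boxE (r + k), (e ∈ shE s G ↔ e ∈ Dm (a + 2*s) (b + 2*s)) := by
  intro e he
  rw [← shE_Dm]
  apply h (e.1 - s, e.2.1 + s, e.2.2)
  intro h'
  apply he
  obtain ⟨x, y, _ | _⟩ := e
  · rw [mem_boxE_false] at h' ⊢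
    push_cast
    simp only at h'
    omega
  · rw [mem_boxE_true] at h' ⊢
    push_cast
    simp only at h'
    omega

theorem shV_inB {k : ℕ} {s : ℤ} (hs : s.natAbs ≤ k) {A : Set Vtx} {r : ℕ}
    (h : ∀ v ∈ A, inB r v) : ∀ v ∈ shV s A, inB (r + k) v := by
  intro v hv
  have := h _ hv
  unfold inB inR at *
  simp only at this
  push_cast
  omega

section

variable (hSW : SWStm) (hB : PPBStm) (hE : ExStm)

include hSW hB hE in
/-- **the straight half-plane** -/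
theorem thmA : ∃ c : ℝ, 0 < c ∧
    Tendsto (fun n : ℕ => PP (Hs 0) {x0} n * (n:ℝ)^((1:ℝ)/3)) atTop (𝓝 c) := by
  obtain ⟨c1, hc1, hT1⟩ := id hE
  have key : ∃ l : ℝ, 0 < l ∧
      Tendsto (fun n : ℕ => PP (Hs 0) {x0} n * ((n:ℝ) + (2:ℕ))^((1:ℝ)/3)) atTop (𝓝 l) := by
    apply sandwich_lim
    intro lam hlam
    obtain ⟨t, ht⟩ := kap_le hSW hB hE 1 hlam
    have hout : Out 0 2 (shE 1 (Lt t)) := by
      refine ⟨t + 1, ?_⟩
      have := shE_out (k := 1) (s := 1) (by norm_num) (G := Lt t) (r := t) (a := -2) (b := 0) ?_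
      · simpa using this
      · intro e he
        constructor
        · rintro (h | h)
          · rw [Hs_zero] at h
            exact Dm_mono (by norm_num) le_rfl h
          · exact h.1
        · intro h
          exact Or.inr ⟨h, fun h' => he (by exact_mod_cast h')⟩
    have hsh : ∀ n : ℤ, PP (shE 1 (Lt t)) (shV 1 {x0}) (n + 2) = PP (Lt t) {x0} n := by
      intro n
      have := PP_shift hB 1 (Lt t) {x0} n
      simpa using this
    have hp1 : ∀ᶠ n : ℕ in atTop, 0 < PP (shE 1 (Lt t)) (shV 1 {x0}) n := by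
      filter_upwards [eventually_ge_atTop 3] with n hn
      have := hsh ((n:ℤ) - 2)
      rw [sub_add_cancel] at this
      rw [this]
      exact pos_of_G1 hB hE ((G1_Hs 0).trans Set.subset_union_left) (by omega)
    have hp2 : ∀ᶠ n : ℕ in atTop, 0 < PP G1 {x0} n := by
      filter_upwards [eventually_ge_atTop 1] with n hn
      exact G1_pos hB hE _ (by omega)
    obtain ⟨l, hl, hT⟩ := RL hSW hout G1_out ⟨_, sh_x0_inB _ le_rfl⟩ x0_inB hp1 hp2
    have hTl := (tendsto_add_atTop_iff_nat 2).mpr hT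
    have hTc := (tendsto_add_atTop_iff_nat 2).mpr hT1
    refine ⟨l * c1, by positivity, fun n => PP (Lt t) {x0} n * ((n:ℝ) + (2:ℕ))^((1:ℝ)/3), ?_, ?_⟩
    · refine (hTl.mul hTc).congr' ?_
      filter_upwards with n
      have e1 : ((n + 2 : ℕ) : ℤ) = (n:ℤ) + 2 := by push_cast; ring
      have e2 : ((n + 2 : ℕ) : ℝ) = (n:ℝ) + (2:ℕ) := by push_cast; ring
      have hpos : 0 < PP G1 {x0} ((n:ℤ) + 2) := G1_pos hB hE _ (by omega)
      rw [e1, e2, hsh]
      change PP (Lt t) {x0} n / PP G1 {x0} ((n:ℤ) + 2) *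
        (PP G1 {x0} ((n:ℤ) + 2) * ((n:ℝ) + (2:ℕ))^((1:ℝ)/3)) = _
      field_simp
    · filter_upwards [ht] with n hn
      have hr : 0 ≤ ((n:ℝ) + (2:ℕ))^((1:ℝ)/3) := by positivity
      have i1 : PP (Lt t) {x0} n ≤ lam * PP (Hs 0) {x0} n :=
        (PP_mono hB (Lt_sub_Ht t) le_rfl).trans hn
      have i2 : PP (Hs 0) {x0} n ≤ PP (Lt t) {x0} n := PP_mono hB Set.subset_union_left le_rfl
      have i3 := PP_nonneg hB (Lt t) {x0} n
      constructor
      · calc PP (Lt t) {x0} n * ((n:ℝ) + (2:ℕ))^((1:ℝ)/3) ≤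
            lam * PP (Hs 0) {x0} n * ((n:ℝ) + (2:ℕ))^((1:ℝ)/3) :=
              mul_le_mul_of_nonneg_right i1 hr
          _ = _ := by ring
      · calc PP (Hs 0) {x0} n * ((n:ℝ) + (2:ℕ))^((1:ℝ)/3) ≤
            PP (Lt t) {x0} n * ((n:ℝ) + (2:ℕ))^((1:ℝ)/3) := mul_le_mul_of_nonneg_right i2 hr
          _ ≤ _ := by nlinarith [mul_nonneg i3 hr]
  obtain ⟨l, hl, hT⟩ := key
  refine ⟨l, hl, ?_⟩
  have := hT.mul (rpow_shift 2)
  rw [mul_one] at this
  refine this.congr fun n => ?_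
  have : 0 < ((n:ℝ) + (2:ℕ))^((1:ℝ)/3) := by positivity
  field_simp

include hSW hB hE in
/-- **all finite modifications of all domains with a jump of the wall, all finite sets** -/
theorem thmB {a b : ℤ} {G : Set Edg} {A : Set Vtx} (hG : Out a b G) (hA : ∃ r, ∀ v ∈ A, inB r v)
    (hp : ∀ᶠ n : ℕ in atTop, 0 < PP G A n) :
    ∃ c : ℝ, 0 < c ∧ Tendsto (fun n : ℕ => PP G A n * (n:ℝ)^((1:ℝ)/3)) atTop (𝓝 c) := by
  obtain ⟨cH, hcH, hTH⟩ := thmA hSW hB hE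
  obtain ⟨k, hk⟩ : ∃ k : ℕ, k = a.natAbs + b.natAbs := ⟨_, rfl⟩
  obtain ⟨r, hr⟩ := hG
  obtain ⟨r2, hr2⟩ := hA
  have hout' := shE_out (k := k) (s := -(k:ℤ)) (by simp) hr
  obtain ⟨a', ha'⟩ : ∃ a' : ℤ, a' = a + 2 * (-(k:ℤ)) := ⟨_, rfl⟩
  obtain ⟨b', hb'⟩ : ∃ b' : ℤ, b' = b + 2 * (-(k:ℤ)) := ⟨_, rfl⟩
  rw [← ha', ← hb'] at hout'
  have hsh : ∀ n : ℤ, PP (shE (-(k:ℤ)) G) (shV (-(k:ℤ)) A) n = PP G A (n + 2*k) := by
    intro n
    rw [← PP_shift hB (-(k:ℤ)) G A (n + 2*k)]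
    congr 1
    ring
  have hp' : ∀ᶠ n : ℕ in atTop, 0 < PP (shE (-(k:ℤ)) G) (shV (-(k:ℤ)) A) n := by
    have := (tendsto_add_atTop_nat (2*k)).eventually hp
    filter_upwards [this] with n hn
    rw [hsh]
    have e1 : ((n + 2*k : ℕ) : ℤ) = (n:ℤ) + 2*k := by push_cast; ring
    rw [e1] at hn
    exact hn
  obtain ⟨J, hJ⟩ : ∃ J : ℕ, J = 3 * k := ⟨_, rfl⟩
  have hpH : ∀ᶠ n : ℕ in atTop, 0 < PP (Hs 0) {x0} n := by
    filter_upwards [eventually_ge_atTop 1] with n hn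
    exact pos_of_G1 hB hE (G1_Hs 0) (by omega)
  have key : ∃ l : ℝ, 0 < l ∧ Tendsto (fun n : ℕ =>
      PP (shE (-(k:ℤ)) G) (shV (-(k:ℤ)) A) n / PP (Hs 0) {x0} n) atTop (𝓝 l) := by
    apply sandwich_lim
    intro lam hlam
    obtain ⟨t, ht⟩ := kap_le hSW hB hE J hlam
    set D : Set Edg := Hs 0 ∪ (Dm a' b' \ ↑(boxE t)) with hD
    have hDout : Out a' b' D := by
      refine ⟨t, fun e he => ?_⟩
      constructor
      · rintro (h | h)
        · rw [Hs_zero] at h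
          exact Dm_mono (by omega) (by omega) h
        · exact h.1
      · intro h
        exact Or.inr ⟨h, fun h' => he (by exact_mod_cast h')⟩
    have hDsub : D ⊆ Ht J t := by
      apply Set.union_subset_union_right
      apply Set.sdiff_subset_sdiff_left
      exact Dm_mono (by omega) (by omega)
    have hpD : ∀ᶠ n : ℕ in atTop, 0 < PP D {x0} n := by
      filter_upwards [eventually_ge_atTop 1] with n hn
      exact pos_of_G1 hB hE ((G1_Hs 0).trans Set.subset_union_left) (by omega)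
    obtain ⟨q, hq, hTq⟩ := RL hSW ⟨_, hout'⟩ hDout ⟨_, shV_inB (k := k) (by simp) hr2⟩ x0_inB hp' hpD
    refine ⟨q, hq, _, hTq, ?_⟩
    filter_upwards [ht, hpH, hpD] with n w1 w2 w3
    have i1 : PP D {x0} n ≤ lam * PP (Hs 0) {x0} n := (PP_mono hB hDsub le_rfl).trans w1
    have i2 : PP (Hs 0) {x0} n ≤ PP D {x0} n := PP_mono hB Set.subset_union_left le_rfl
    have i3 := PP_nonneg hB (shE (-(k:ℤ)) G) (shV (-(k:ℤ)) A) n
    have hl0 : 0 < lam := by linarith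
    constructor
    · rw [div_le_iff₀ w3, mul_div_assoc', div_mul_eq_mul_div, le_div_iff₀ w2]
      have := mul_le_mul_of_nonneg_left i2 i3
      nlinarith [mul_nonneg i3 w3.le]
    · rw [div_le_iff₀ w2, mul_div_assoc', div_mul_eq_mul_div, le_div_iff₀ w3]
      have := mul_le_mul_of_nonneg_left i1 i3
      nlinarith
  obtain ⟨l, hl, hT⟩ := key
  refine ⟨l * cH, by positivity, ?_⟩
  have h1 : Tendsto (fun n : ℕ => PP G A ((n:ℤ) + 2*k) * (n:ℝ)^((1:ℝ)/3)) atTop (𝓝 (l * cH)) := by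
    refine (hT.mul hTH).congr' ?_
    filter_upwards [hpH] with n hn
    rw [hsh]
    field_simp
  have h2 : Tendsto (fun n : ℕ => ((n:ℝ) + ((2*k : ℕ) : ℝ))^((1:ℝ)/3) / (n:ℝ)^((1:ℝ)/3)) atTop
      (𝓝 1) := by
    have := (rpow_shift (2*k)).inv₀ one_ne_zero
    rw [inv_one] at this
    refine this.congr fun n => ?_
    rw [inv_div]
  have h3 := h1.mul h2
  rw [mul_one] at h3
  rw [← tendsto_add_atTop_iff_nat (2*k)]
  refine h3.congr' ?_
  filter_upwards [eventually_ge_atTop 1] with n hn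
  have e1 : ((n + 2*k : ℕ) : ℤ) = (n:ℤ) + 2*k := by push_cast; ring
  have e2 : ((n + 2*k : ℕ) : ℝ) = (n:ℝ) + ((2*k : ℕ) : ℝ) := by push_cast; ring
  have h4 : (0:ℝ) < (n:ℝ)^((1:ℝ)/3) := by
    have : (0:ℝ) < n := by exact_mod_cast hn
    positivity
  rw [e1, e2]
  field_simp

end

end Pool.Agent.U167.SA
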