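import Pool.Agent.U167.SA.Cont
import Pool.Agent.U167.SA.LW2W

/-! Project SA: first and second moments of the numbers of patterns. -/

set_option autoImplicit false

namespace Pool.Agent.U167.SA

open H974 Finset Filter Topology MeasureTheory
open Pool.Agent.H988R2.Perc (Conf Edge perc coin)

theorem perc_int (e : Edge ≃ Edge) (f : Conf → ℝ) :
    ∫ ω, f (fun i => ω (e.symm i)) ∂perc = ∫ ω, f ω ∂perc := by
  have hmap : perc.map (MeasurableEquiv.piCongrLeft (fun _ : Edge => Bool) e) = perc := by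
    unfold perc
    exact Measure.infinitePi_map_piCongrLeft (μ := fun _ : Edge => coin) e
  have hfun : (fun ω : Conf => fun i => ω (e.symm i)) =
      (MeasurableEquiv.piCongrLeft (fun _ : Edge => Bool) e) := by
    funext ω i
    obtain ⟨j, rfl⟩ := e.surjective i
    rw [MeasurableEquiv.coe_piCongrLeft, Equiv.piCongrLeft_apply_apply, e.symm_apply_apply]
  calc ∫ ω, f (fun i => ω (e.symm i)) ∂perc
      = ∫ ω, f (MeasurableEquiv.piCongrLeft (fun _ : Edge => Bool) e ω) ∂perc := by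
        rw [← hfun]
    _ = ∫ ω, f ω ∂(perc.map (MeasurableEquiv.piCongrLeft (fun _ : Edge => Bool) e)) :=
        (integral_map_equiv _ f).symm
    _ = _ := by rw [hmap]

/-- normalisation -/
noncomputable def aN (n : ℕ) : ℝ := (2 * (n:ℝ) + 1)^((2:ℝ)/3)

theorem aN_pos (n : ℕ) : 0 < aN n := by unfold aN; positivity

theorem mom_N0 (m : ℕ) : Tendsto (fun n : ℕ => ∫ ω, (N0 n ω / aN n)^m ∂percE) atTop
    (𝓝 (Real.Gamma (((m:ℝ)+1)/3) / Real.Gamma (1/3))) := by
  refine (Pool.Agent.H980R2.Cont.moments m).congr fun n => ?_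
  rw [← perc_int Pool.Agent.U30.SA.ee.symm]
  have h2 : percE = perc := rfl
  rw [h2]
  congr 1
  funext ω
  rw [Pool.Agent.U30.SA.N0_eq]
  rfl

section

variable {Ω : Type*} [MeasurableSpace Ω] {μ : Measure Ω} [IsProbabilityMeasure μ]

theorem int_of_bd {f : Ω → ℝ} (hf : Measurable f) {K : ℝ} (hK : ∀ ω, |f ω| ≤ K) : Integrable f μ :=
  Integrable.of_bound hf.aestronglyMeasurable K (Eventually.of_forall fun ω => by
    rw [Real.norm_eq_abs]; exact hK ω)

theorem int_mul_bd {f g : Ω → ℝ} (hf : Measurable f) (hg : Measurable g) {K K' : ℝ}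
    (hK : ∀ ω, |f ω| ≤ K) (hK' : ∀ ω, |g ω| ≤ K') : Integrable (fun ω => f ω * g ω) μ :=
  int_of_bd (hf.mul hg) (K := K * K') fun ω => by
    rw [abs_mul]
    exact mul_le_mul (hK ω) (hK' ω) (abs_nonneg _) ((abs_nonneg _).trans (hK ω))

/-- Cauchy-Schwarz in the limit -/
theorem cs_lim {f g : ℕ → Ω → ℝ} (hf : ∀ n, Measurable (f n)) (hg : ∀ n, Measurable (g n))
    (hfb : ∀ n, ∃ K : ℝ, ∀ ω, |f n ω| ≤ K) (hgb : ∀ n, ∃ K : ℝ, ∀ ω, |g n ω| ≤ K) {l : ℝ}
    (h1 : Tendsto (fun n => ∫ ω, (f n ω)^2 ∂μ) atTop (𝓝 l))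
    (h2 : Tendsto (fun n => ∫ ω, (g n ω)^2 ∂μ) atTop (𝓝 0)) :
    Tendsto (fun n => ∫ ω, f n ω * g n ω ∂μ) atTop (𝓝 0) := by
  rw [Metric.tendsto_atTop]
  intro ε hε
  have hl : 0 ≤ l := ge_of_tendsto' h1 fun n => integral_nonneg fun ω => sq_nonneg _
  set η : ℝ := ε / (l + 1) with hη
  have hη0 : 0 < η := by positivity
  have e1 : ∀ᶠ n in atTop, ∫ ω, (f n ω)^2 ∂μ < l + 1 := h1.eventually_lt_const (by linarith)
  have e2 : ∀ᶠ n in atTop, ∫ ω, (g n ω)^2 ∂μ < ε * η := h2.eventually_lt_const (by positivity)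
  obtain ⟨N, hN⟩ := eventually_atTop.mp (e1.and e2)
  refine ⟨N, fun n hn => ?_⟩
  obtain ⟨b1, b2⟩ := hN n hn
  obtain ⟨K, hK⟩ := hfb n
  obtain ⟨K', hK'⟩ := hgb n
  have i1 : Integrable (fun ω => (f n ω)^2) μ := by
    simpa [sq] using int_mul_bd (μ := μ) (hf n) (hf n) hK hK
  have i2 : Integrable (fun ω => (g n ω)^2) μ := by
    simpa [sq] using int_mul_bd (μ := μ) (hg n) (hg n) hK' hK'
  rw [Real.dist_eq, sub_zero]
  have h3 : ∀ ω, |f n ω * g n ω| ≤ η/2 * (f n ω)^2 + 1/(2*η) * (g n ω)^2 := by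
    intro ω
    rw [abs_mul]
    have h4 := sq_nonneg (η * |f n ω| - |g n ω|)
    have h5 : (|f n ω|)^2 = (f n ω)^2 := sq_abs _
    have h6 : (|g n ω|)^2 = (g n ω)^2 := sq_abs _
    have h7 : η/2 * (f n ω)^2 + 1/(2*η) * (g n ω)^2 - |f n ω| * |g n ω| =
        (η * |f n ω| - |g n ω|)^2 / (2*η) := by
      rw [← h5, ← h6]
      field_simp
      ring
    have h8 : 0 ≤ (η * |f n ω| - |g n ω|)^2 / (2*η) := by positivity
    linarith
  have h9 : |∫ ω, f n ω * g n ω ∂μ| ≤ ∫ ω, (η/2 * (f n ω)^2 + 1/(2*η) * (g n ω)^2) ∂μ := by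
    refine (abs_integral_le_integral_abs).trans ?_
    exact integral_mono_of_nonneg (Eventually.of_forall fun ω => abs_nonneg _)
      ((i1.const_mul _).add (i2.const_mul _)) (Eventually.of_forall h3)
  rw [integral_add (i1.const_mul _) (i2.const_mul _), integral_const_mul, integral_const_mul] at h9
  refine lt_of_le_of_lt h9 ?_
  have c1 : η/2 * ∫ ω, (f n ω)^2 ∂μ < η/2 * (l+1) := mul_lt_mul_of_pos_left b1 (by positivity)
  have c2 : 1/(2*η) * ∫ ω, (g n ω)^2 ∂μ < 1/(2*η) * (ε * η) :=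
    mul_lt_mul_of_pos_left b2 (by positivity)
  have c3 : η/2 * (l+1) = ε/2 := by rw [hη]; field_simp
  have c4 : 1/(2*η) * (ε * η) = ε/2 := by field_simp
  linarith

end

/-- first and mixed second moments -/
theorem mom_of {c0 : ℝ} (hc0 : 0 < c0)
    (hT0 : Tendsto (fun n : ℕ => PE 0 (fun _ => True) D0 {((0:ℤ), (0:ℤ))} n * (n:ℝ)^((1:ℝ)/3))
      atTop (𝓝 c0)) (m m' : ℕ) (W W' : Finset Edg → Prop) {A A' : Set Vtx} {c c' : ℝ}
    (hA : ∃ r, ∀ v ∈ A, inB r v) (hA' : ∃ r, ∀ v ∈ A', inB r v)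
    (hT : Tendsto (fun n : ℕ => PE m W D0 A n * (n:ℝ)^((1:ℝ)/3)) atTop (𝓝 c))
    (hT' : Tendsto (fun n : ℕ => PE m' W' D0 A' n * (n:ℝ)^((1:ℝ)/3)) atTop (𝓝 c')) :
    Tendsto (fun n : ℕ => (∫ ω, NN m W A n ω ∂percE) / aN n) atTop
      (𝓝 (c / c0 * (Real.Gamma (2/3) / Real.Gamma (1/3)))) ∧
    Tendsto (fun n : ℕ => (∫ ω, NN m W A n ω * NN m' W' A' n ω ∂percE) / (aN n)^2) atTop
      (𝓝 (c / c0 * (c' / c0) * (1 / Real.Gamma (1/3)))) := by
  have bd0 : ∀ n ω, |N0 n ω| ≤ n := fun n ω => by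
    unfold N0
    rw [abs_of_nonneg (NN_bd _ _ _ _ _).1]
    exact (NN_bd _ _ _ _ _).2
  have bdN : ∀ (m : ℕ) (W : Finset Edg → Prop) (A : Set Vtx) n ω, |NN m W A n ω| ≤ n :=
    fun m W A n ω => by
      rw [abs_of_nonneg (NN_bd _ _ _ _ _).1]
      exact (NN_bd _ _ _ _ _).2
  set f : ℕ → (Edg → Bool) → ℝ := fun n ω => N0 n ω / aN n with hf
  set g : ℕ → (Edg → Bool) → ℝ := fun n ω => (NN m W A n ω - c / c0 * N0 n ω) / aN n with hg
  set g' : ℕ → (Edg → Bool) → ℝ := fun n ω => (NN m' W' A' n ω - c' / c0 * N0 n ω) / aN n with hg'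
  have mf : ∀ n, Measurable (f n) := fun n => (NN_meas _ _ _ _).div_const _
  have mg : ∀ n, Measurable (g n) := fun n =>
    ((NN_meas _ _ _ _).sub ((NN_meas _ _ _ _).const_mul _)).div_const _
  have mg' : ∀ n, Measurable (g' n) := fun n =>
    ((NN_meas _ _ _ _).sub ((NN_meas _ _ _ _).const_mul _)).div_const _
  have bf : ∀ n, ∃ K : ℝ, ∀ ω, |f n ω| ≤ K := fun n => ⟨n / aN n, fun ω => by
    simp only [hf]
    rw [abs_div, abs_of_pos (aN_pos n)]
    exact div_le_div_of_nonneg_right (bd0 n ω) (aN_pos n).le⟩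
  have bgen : ∀ (m : ℕ) (W : Finset Edg → Prop) (A : Set Vtx) (κ : ℝ) n, ∃ K : ℝ, ∀ ω,
      |(NN m W A n ω - κ * N0 n ω) / aN n| ≤ K := fun m W A κ n => ⟨(n + |κ| * n) / aN n, fun ω => by
    rw [abs_div, abs_of_pos (aN_pos n)]
    refine div_le_div_of_nonneg_right ((abs_sub _ _).trans (add_le_add (bdN _ _ _ _ _) ?_))
      (aN_pos n).le
    rw [abs_mul]
    exact mul_le_mul_of_nonneg_left (bd0 n ω) (abs_nonneg _)⟩
  have bg := bgen m W A (c / c0)
  have bg' := bgen m' W' A' (c' / c0)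
  have hfm : Tendsto (fun n => ∫ ω, (f n ω)^2 ∂percE) atTop (𝓝 (1 / Real.Gamma (1/3))) := by
    have h := mom_N0 2
    have e : ((((2:ℕ):ℝ) + 1)/3) = 1 := by norm_num
    rw [e, Real.Gamma_one] at h
    exact h
  have hf1 : Tendsto (fun n => ∫ ω, f n ω ∂percE) atTop
      (𝓝 (Real.Gamma (2/3) / Real.Gamma (1/3))) := by
    have h := mom_N0 1
    have e : ((((1:ℕ):ℝ) + 1)/3) = 2/3 := by norm_num
    rw [e] at h
    simpa using h
  have hgen : ∀ (m : ℕ) (W : Finset Edg → Prop) (A : Set Vtx) (c : ℝ), (∃ r, ∀ v ∈ A, inB r v) →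
      Tendsto (fun n : ℕ => PE m W D0 A n * (n:ℝ)^((1:ℝ)/3)) atTop (𝓝 c) →
      Tendsto (fun n => ∫ ω, ((NN m W A n ω - c / c0 * N0 n ω) / aN n)^2 ∂percE) atTop (𝓝 0) := by
    intro m W A c hA hT
    refine ((lw2_of t_LW2W hc0 hT0 m W hA hT).2).congr fun n => ?_
    rw [← integral_div]
    congr 1
    funext ω
    rw [div_pow]
    rfl
  have hgm := hgen m W A c hA hT
  have hgm' := hgen m' W' A' c' hA' hT'
  have one2 : Tendsto (fun n : ℕ => ∫ ω, ((fun (_ : ℕ) (_ : Edg → Bool) => (1:ℝ)) n ω)^2 ∂percE)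
      atTop (𝓝 1) := by
    simp
  have r1 := cs_lim (μ := percE) (f := fun _ _ => (1:ℝ)) (g := g) (fun _ => measurable_const) mg
    (fun _ => ⟨1, fun _ => by simp⟩) bg one2 hgm
  have r2 := cs_lim (μ := percE) (f := f) (g := g) mf mg bf bg hfm hgm
  have r3 := cs_lim (μ := percE) (f := f) (g := g') mf mg' bf bg' hfm hgm'
  have r4 := cs_lim (μ := percE) (f := g) (g := g') mg mg' bg bg' hgm hgm'
  have iN0 : ∀ n, Integrable (f n) percE := fun n => by
    obtain ⟨K, hK⟩ := bf n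
    exact int_of_bd (mf n) hK
  have ig : ∀ n, Integrable (g n) percE := fun n => by
    obtain ⟨K, hK⟩ := bg n
    exact int_of_bd (mg n) hK
  have decN : ∀ n ω, NN m W A n ω = aN n * (c / c0 * f n ω + g n ω) := by
    intro n ω
    have := (aN_pos n).ne'
    simp only [hf, hg]
    field_simp
    ring
  have decN' : ∀ n ω, NN m' W' A' n ω = aN n * (c' / c0 * f n ω + g' n ω) := by
    intro n ω
    have := (aN_pos n).ne'
    simp only [hf, hg']
    field_simp
    ring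
  constructor
  · have h := (hf1.const_mul (c / c0)).add r1
    rw [add_zero] at h
    refine h.congr fun n => ?_
    have h1 : ∫ ω, NN m W A n ω ∂percE = aN n * (c / c0 * ∫ ω, f n ω ∂percE + ∫ ω, g n ω ∂percE) := by
      simp only [decN]
      rw [integral_const_mul, integral_add ((iN0 n).const_mul _) (ig n), integral_const_mul]
    rw [h1]
    have := (aN_pos n).ne'
    simp only [one_mul]
    field_simp
  · have h := (((hfm.const_mul (c / c0 * (c' / c0))).add (r3.const_mul (c / c0))).add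
      (r2.const_mul (c' / c0))).add r4
    simp only [mul_zero, add_zero] at h
    refine h.congr fun n => ?_
    obtain ⟨K, hK⟩ := bf n
    obtain ⟨K1, hK1⟩ := bg n
    obtain ⟨K2, hK2⟩ := bg' n
    have j1 : Integrable (fun ω => (f n ω)^2) percE := by
      simpa [sq] using int_mul_bd (μ := percE) (mf n) (mf n) hK hK
    have j2 := int_mul_bd (μ := percE) (mf n) (mg' n) hK hK2
    have j3 := int_mul_bd (μ := percE) (mf n) (mg n) hK hK1
    have j4 := int_mul_bd (μ := percE) (mg n) (mg' n) hK1 hK2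
    have h1 : ∀ ω, NN m W A n ω * NN m' W' A' n ω = (aN n)^2 * (c / c0 * (c' / c0) * (f n ω)^2 +
        c / c0 * (f n ω * g' n ω) + c' / c0 * (f n ω * g n ω) + g n ω * g' n ω) := by
      intro ω
      rw [decN, decN']
      ring
    simp only [h1]
    have k1 : Integrable (fun ω => c / c0 * (c' / c0) * (f n ω)^2) percE := j1.const_mul _
    have k2 : Integrable (fun ω => c / c0 * (f n ω * g' n ω)) percE := j2.const_mul _
    have k3 : Integrable (fun ω => c' / c0 * (f n ω * g n ω)) percE := j3.const_mul _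
    have k12 : Integrable (fun ω => c / c0 * (c' / c0) * (f n ω)^2 +
      c / c0 * (f n ω * g' n ω)) percE := k1.add k2
    have k123 : Integrable (fun ω => c / c0 * (c' / c0) * (f n ω)^2 +
      c / c0 * (f n ω * g' n ω) + c' / c0 * (f n ω * g n ω)) percE := k12.add k3
    rw [integral_const_mul, integral_add k123 j4, integral_add k12 k3,
      integral_add k1 k2, integral_const_mul, integral_const_mul,
      integral_const_mul]
    have := (aN_pos n).ne'
    field_simp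

end Pool.Agent.U167.SA
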