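import Pool.Agent.U167.SA.Stm3
import Pool.Agent.U167.SA.Main

/-! Project SA: the ratio limit theorem for local events and varying outer domains. -/

set_option autoImplicit false

namespace Pool.Agent.U167.SA

open H974 Finset Filter Topology

theorem ratio_limF {ι : Type*} {l : Filter ι} [l.NeBot] {ρ : ι → ℝ} (h0 : ∀ᶠ i in l, 0 < ρ i)
    (h : ∀ ε : ℝ, 0 < ε → ε < 1 → ∀ᶠ i in l, ∀ᶠ j in l, ρ i * (1 - ε) ≤ ρ j ∧
      ρ j * (1 - ε) ≤ ρ i) :
    ∃ c : ℝ, 0 < c ∧ Tendsto ρ l (𝓝 c) := by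
  obtain ⟨i0, hi0, hi0'⟩ := (h0.and (h (1/2) (by norm_num) (by norm_num))).exists
  have hpos : 0 < ρ i0 := hi0
  have hev : ∀ᶠ j in l, ρ j ≤ 2 * ρ i0 ∧ ρ i0 / 2 ≤ ρ j := by
    filter_upwards [hi0'] with j hj
    constructor <;> linarith [hj.1, hj.2]
  have hc : Cauchy (map ρ l) := by
    rw [Metric.cauchy_iff]
    refine ⟨inferInstance, fun ε hε => ?_⟩
    set ε' := min (1/2) (ε / (8 * ρ i0)) with hε'
    have he0 : 0 < ε' := lt_min (by norm_num) (by positivity)
    have he1 : ε' < 1 := lt_of_le_of_lt (min_le_left _ _) (by norm_num)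
    obtain ⟨i1, hi1, hi1'⟩ := (hev.and (h ε' he0 he1)).exists
    have he2 : ε' * (8 * ρ i0) ≤ ε := by
      have : ε' ≤ ε / (8 * ρ i0) := min_le_right _ _
      rwa [le_div_iff₀ (by positivity)] at this
    refine ⟨Metric.ball (ρ i1) (ε / 2), ?_, ?_⟩
    · rw [Filter.mem_map]
      filter_upwards [hi1', hev] with j hj hj2
      rw [Set.mem_preimage, Metric.mem_ball, Real.dist_eq, abs_lt]
      have v1 : ε' * ρ i1 ≤ ε / 4 := by nlinarith [hi1.1]
      have v2 : ε' * ρ j ≤ ε / 4 := by nlinarith [hj2.1]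
      constructor <;> nlinarith [hj.1, hj.2]
    · intro x hx y hy
      rw [Metric.mem_ball, Real.dist_eq] at hx hy
      rw [Real.dist_eq]
      have : |x - y| ≤ |x - ρ i1| + |y - ρ i1| := by
        have := abs_sub_le x (ρ i1) y
        rwa [abs_sub_comm (ρ i1) y] at this
      linarith
  obtain ⟨c, hc⟩ := CompleteSpace.complete hc
  refine ⟨c, ?_, hc⟩
  have h2 : ρ i0 / 2 ≤ c := ge_of_tendsto hc (hev.mono fun j hj => hj.2)
  linarith

/-- the domain `C` in the box of radius `m`, `O` outside -/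
def loc (m : ℕ) (C O : Set Edg) : Set Edg := (C ∩ ↑(boxE m)) ∪ (O \ ↑(boxE m))

theorem loc_in {m : ℕ} {C O : Set Edg} {e : Edg} (he : e ∈ boxE m) : e ∈ loc m C O ↔ e ∈ C := by
  unfold loc
  constructor
  · rintro (h | h)
    · exact h.1
    · exact absurd (by exact_mod_cast he) h.2
  · exact fun h => Or.inl ⟨h, by exact_mod_cast he⟩

theorem loc_out {m : ℕ} {C O : Set Edg} {e : Edg} (he : e ∉ boxE m) : e ∈ loc m C O ↔ e ∈ O := by
  unfold loc
  constructor
  · rintro (h | h)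
    · exact absurd (by exact_mod_cast h.2) he
    · exact h.1
  · exact fun h => Or.inr ⟨h, fun h' => he (by exact_mod_cast h')⟩

/-- **ratio limit theorem for local data and varying outer domains** -/
theorem RLG {D : Set Edg} (hSW : SWG D) (hP : PPMStm) : ∃ m0 : ℕ, ∀ {ι : Type} {l : Filter ι}
    [l.NeBot] (O : ι → Set Edg) (N : ι → ℤ),
    (∀ R : ℕ, ∀ᶠ i in l, (∀ e ∈ boxE R, (e ∈ O i ↔ e ∈ D)) ∧ 2 * (R:ℤ) < N i) →
    ∀ m : ℕ, m0 ≤ m → ∀ (η η' : Finset Edg) (C C' : Set Edg) (A A' : Set Vtx),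
    η ⊆ boxE m → η' ⊆ boxE m → (∀ v ∈ A, inB m v) → (∀ v ∈ A', inB m v) →
    (∀ᶠ i in l, 0 < PPm m η' (loc m C' (O i)) A' (N i)) →
    ∃ c : ℝ, 0 ≤ c ∧ Tendsto (fun i => PPm m η (loc m C (O i)) A (N i) /
      PPm m η' (loc m C' (O i)) A' (N i)) l (𝓝 c) ∧
      ((∃ᶠ i in l, 0 < PPm m η (loc m C (O i)) A (N i)) → 0 < c) := by
  obtain ⟨m0, θ, ht0, ht1, hS⟩ := hSW
  refine ⟨max m0 1, ?_⟩
  intro ι l _ O N hO m hm η η' C C' A A' hη hη' hA hA' hY
  have hm1 : 1 ≤ m := (le_max_right _ _).trans hm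
  have hm0 : m0 ≤ m := (le_max_left _ _).trans hm
  set X : ι → ℝ := fun i => PPm m η (loc m C (O i)) A (N i) with hX
  set Y : ι → ℝ := fun i => PPm m η' (loc m C' (O i)) A' (N i) with hYd
  have hX0 : ∀ i, 0 ≤ X i := fun i => (hP.1 _ _ _ _ _).1
  have hY0 : ∀ i, 0 ≤ Y i := fun i => (hP.1 _ _ _ _ _).1
  have key : ∀ K : ℕ, ∀ᶠ i in l, ∀ᶠ j in l, X i * Y j * (1 - θ^K) ≤ X j * Y i ∧
      X j * Y i * (1 - θ^K) ≤ X i * Y j := by
    intro K
    obtain ⟨R, hR⟩ : ∃ R : ℕ, R = 100 * 64^K * m + m := ⟨_, rfl⟩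
    filter_upwards [hO R] with i hi
    filter_upwards [hO R] with j hj
    have gen : ∀ i j, ((∀ e ∈ boxE R, (e ∈ O i ↔ e ∈ D)) ∧ 2 * (R:ℤ) < N i) →
        ((∀ e ∈ boxE R, (e ∈ O j ↔ e ∈ D)) ∧ 2 * (R:ℤ) < N j) →
        X i * Y j ≤ X j * Y i + θ^K * (X i * Y j) := by
      intro i j hi hj
      refine hS K m R η η' (loc m C (O i)) (loc m C (O j)) (loc m C' (O i)) (loc m C' (O j)) A A'
        (N i) (N j) hm1 hm0 hη hη' hA hA' (by omega) ?_ ?_ ?_ hi.2 hj.2
      · intro e he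
        by_cases h : e ∈ boxE m
        · exact ⟨(loc_in h).trans (loc_in h).symm, (loc_in h).trans (loc_in h).symm⟩
        · have h1 := (hi.1 e he).trans (hj.1 e he).symm
          exact ⟨((loc_out h).trans h1).trans (loc_out h).symm,
            ((loc_out h).trans h1).trans (loc_out h).symm⟩
      · intro e h
        exact ⟨(loc_out h).trans (loc_out h).symm, (loc_out h).trans (loc_out h).symm⟩
      · intro e he h
        exact (loc_out h).trans (hi.1 e he)
    have g1 := gen i j hi hj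
    have g2 := gen j i hj hi
    constructor
    · linarith
    · linarith
  by_cases hfr : ∃ᶠ i in l, 0 < X i
  · have hXp : ∀ᶠ i in l, 0 < X i := by
      have k1 := key 1
      obtain ⟨i, hi1, hi2, hi3⟩ := (hfr.and_eventually (k1.and hY)).exists
      filter_upwards [hi2, hY] with j hj1 hj2
      have h1 : 0 < X i * Y j * (1 - θ^1) := by
        rw [pow_one]
        have : 0 < 1 - θ := by linarith
        positivity
      have h2 : 0 < X j * Y i := h1.trans_le hj1.1
      by_contra h3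
      have h4 : X j = 0 := le_antisymm (not_lt.mp h3) (hX0 j)
      rw [h4, zero_mul] at h2
      exact lt_irrefl _ h2
    have hlim : ∃ c : ℝ, 0 < c ∧ Tendsto (fun i => X i / Y i) l (𝓝 c) := by
      apply ratio_limF
      · filter_upwards [hXp, hY] with i h1 h2
        positivity
      · intro ε he0 he1
        obtain ⟨K, hK⟩ := exists_pow_lt_of_lt_one he0 ht1
        filter_upwards [key K, hXp, hY] with i hi h1 h2
        filter_upwards [hi, hXp, hY] with j hj h3 h4
        have e1 : 0 < X i * Y j := by positivity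
        have e2 : 0 < X j * Y i := by positivity
        constructor
        · rw [div_mul_eq_mul_div, div_le_div_iff₀ h2 h4]
          nlinarith [hj.1]
        · rw [div_mul_eq_mul_div, div_le_div_iff₀ h4 h2]
          nlinarith [hj.2]
    obtain ⟨c, hc, hT⟩ := hlim
    exact ⟨c, hc.le, hT, fun _ => hc⟩
  · refine ⟨0, le_rfl, ?_, fun h => absurd h hfr⟩
    rw [not_frequently] at hfr
    refine tendsto_const_nhds.congr' ?_
    filter_upwards [hfr] with i hi
    have : X i = 0 := le_antisymm (not_lt.mp hi) (hX0 i)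
    show (0:ℝ) = X i / Y i
    rw [this, zero_div]

end Pool.Agent.U167.SA
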