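import Pool.Agent.H974R2.Circ

/-!
Project SA (helper167): sharp asymptotics of the half-plane one-arm probability of critical bond
percolation on the square lattice, for arbitrary local modifications and arbitrary finite sets.
Definitions and the statements of the packages.
-/

set_option autoImplicit false

namespace Pool.Agent.U167.SA

open H974 Finset Filter Topology

/-- column of a vertex -/
def col (v : Vtx) : ℤ := v.1 - v.2

/-- height of a vertex -/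
def ht (v : Vtx) : ℤ := v.1 + v.2

/-- the vertices with column at least `b` (at heights `≥ 0`) or at least `a` (at heights `< 0`) -/
def DV (a b : ℤ) (v : Vtx) : Prop := (0 ≤ ht v → b ≤ col v) ∧ (ht v < 0 → a ≤ col v)

/-- the edges with both ends in `DV a b`; `Dm 0 0` is the half-plane -/
def Dm (a b : ℤ) : Set Edg := {e | DV a b (src e) ∧ DV a b (tgt e)}

/-- a vertex of `A` is joined to the column `n` by open edges of `G` -/
def Hit (G : Set Edg) (A : Set Vtx) (n : ℤ) (F : Finset Edg) : Prop :=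
  ∃ u ∈ A, ∃ v, col v = n ∧ Reach (↑F ∩ G) u v

/-- finite volume probability -/
noncomputable def PM (G : Set Edg) (A : Set Vtx) (n : ℤ) (M : ℕ) : ℝ :=
  Pr (fun _ => (1/2 : ℝ)) (boxE M) (Hit G A n)

/-- infinite volume probability -/
noncomputable def PP (G : Set Edg) (A : Set Vtx) (n : ℤ) : ℝ := ⨆ M : ℕ, PM G A n M

/-- the vertices of the box of radius `r` -/
def inB (r : ℕ) (v : Vtx) : Prop := inR (-(r:ℤ)) r (-(r:ℤ)) r v

/-- `F` inside `I`, `F'` outside -/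
def mix (I F F' : Finset Edg) : Finset Edg := (F ∩ I) ∪ (F' \ I)

/-- the two crossings which form an arc around the box of radius `m` in the half-plane -/
def Bar (m : ℕ) (F : Finset Edg) : Prop :=
  TBc m (3*m) (-(3*m)) (4*m) F ∧ LRc (-(4*m)) (3*m) (-(3*m)) (-m) F

/-- the event at scale `s` -/
def Q (s : ℕ) (F : Finset Edg) : Prop :=
  Bar (4*s) F ∧ Bar (20*s) F ∧ LRc 0 (80*s+1) (-(3*s)) (-(2*s)) F

/-- its support -/
noncomputable def Rg (s : ℕ) : Finset Edg := boxE (80*s+1) \ boxE (2*s-1)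

/-- translation of edge sets by `(k,-k)` (columns move by `2k`) -/
def shE (k : ℤ) (G : Set Edg) : Set Edg := {e | (e.1 - k, e.2.1 + k, e.2.2) ∈ G}

/-- translation of vertex sets by `(k,-k)` -/
def shV (k : ℤ) (A : Set Vtx) : Set Vtx := {v | (v.1 - k, v.2 + k) ∈ A}

/-- the corner domain of the exact formula: the slit strip with left part of width one -/
def G1 : Set Edg := {e | 0 ≤ col (src e) ∧ 0 ≤ col (tgt e) ∧
  ¬ (1 ≤ ht (src e) ∧ 1 ≤ ht (tgt e) ∧ (col (src e) = 1 ∨ col (tgt e) = 1))}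

/-! ## Packages -/

/-- **SWAP**: the swapping inequality. Proof: work with `Ex p S (fun F => Ex p S (fun F' => ..))`;
for `k ≤ K` show `P2(X ∧ ∃ i < k, Good i) ≤ P2(Y ∧ ∃ i < k, Good i)`, where
`X = a11 F ∧ a22 F'`, `Y = a12 F ∧ a21 F'` and `Good i` is the conjunction of the four `Q i`, by the
measure preserving swap `(F,F') ↦ (mix (I k) F F', mix (I k) F' F)`, which keeps `Good k` and the
`Good i`, `i < k`; the rest `P2(X ∧ ∀ i < K, ¬ Good i)` is at most `P2(X) (1-δ^4)^K` by Harris and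
independence. -/
def SwapStm : Prop := ∀ (p : Edg → ℝ), Ok p → ∀ (S : Finset Edg) (K : ℕ) (I R : ℕ → Finset Edg)
    (Qe : ℕ → Finset Edg → Prop) (a11 a12 a21 a22 : Finset Edg → Prop) (δ : ℝ), 0 ≤ δ →
    (∀ i j, i < j → j < K → R i ⊆ I j) → (∀ i j, i < j → j < K → Disjoint (R i) (R j)) →
    (∀ i < K, R i ⊆ S) → (∀ i < K, ∀ F, Qe i F ↔ Qe i (F ∩ R i)) →
    (∀ i < K, ∀ F G, F ⊆ G → Qe i F → Qe i G) → (∀ i < K, δ ≤ Pr p S (Qe i)) →
    (∀ F G, F ⊆ G → a11 F → a11 G) → (∀ F G, F ⊆ G → a22 F → a22 G) →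
    (∀ i < K, ∀ F F', F ⊆ S → F' ⊆ S → Qe i F → Qe i F' → Qe i (mix (I i) F F') →
      Qe i (mix (I i) F' F) → a11 F → a22 F' → a12 (mix (I i) F F') ∧ a21 (mix (I i) F' F)) →
    Pr p S a11 * Pr p S a22 ≤
      Pr p S a12 * Pr p S a21 + (1 - δ^4)^K * (Pr p S a11 * Pr p S a22)

/-- **UNI**: under `Bar m` all paths which cross the annulus between the boxes of radius `m-1` and
`4m` in a domain which is `Dm a b` in the annulus are joined to each other. -/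
def UniStm : Prop := ∀ (m : ℕ) (a b : ℤ), 0 < m → 4 * |a| ≤ m → 4 * |b| ≤ m →
    ∀ (F : Finset Edg) (G : Set Edg),
    (∀ e ∈ boxE (4*m), e ∉ boxE (m-1) → (e ∈ G ↔ e ∈ Dm a b)) → Bar m F →
    ∃ z : Vtx, ∀ u v : Vtx, inB (m-1) u → onB (4*m) v →
      Reach (↑F ∩ G ∩ ↑(boxE (4*m))) u v → Reach (↑F ∩ G ∩ ↑(boxE (4*m))) u z

/-- **KEY** (uses UNI): the mixed configuration has the arm. -/
def KeyStm : Prop := ∀ (s : ℕ) (a b : ℤ), 0 < s → |a| ≤ s → |b| ≤ s →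
    ∀ (Gi Go Gm : Set Edg),
    (∀ e ∈ boxE (16*s), (e ∈ Gi ↔ e ∈ Gm)) → (∀ e ∉ boxE (16*s), (e ∈ Go ↔ e ∈ Gm)) →
    (∀ e ∈ boxE (80*s+1), e ∉ boxE (2*s-1) → (e ∈ Gm ↔ e ∈ Dm a b)) →
    ∀ (A B : Set Vtx), (∀ u ∈ A, inB (2*s) u) → (∀ u ∈ B, inB (2*s) u) →
    ∀ (n n' : ℤ), 160*s+2 < n → 160*s+2 < n' → ∀ (F F' : Finset Edg),
    Q s (mix (boxE (16*s)) F F') → Hit Gi A n F → Hit Go B n' F' →
      Hit Gm A n' (mix (boxE (16*s)) F F')

/-- **QP**: the events `Q s` are local, increasing and have probability bounded below. -/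
def QPStm : Prop := ∃ δ : ℝ, 0 < δ ∧ δ ≤ 1 ∧ ∀ s : ℕ, 0 < s →
    (∀ F, Q s F ↔ Q s (F ∩ Rg s)) ∧ (∀ F G, F ⊆ G → Q s F → Q s G) ∧
    ∀ S : Finset Edg, boxE (80*s+1) ⊆ S → δ ≤ Pr (fun _ => (1/2:ℝ)) S (Q s)

/-- **ASM** (uses SWAP, KEY, QP and the convergence of `PM`): the swapping inequality for the
infinite volume probabilities. Scales `s i = 64^i * m`, cuts `I i = boxE (16 * s i)`,
`R i = Rg (s i)`. -/
def SWStm : Prop := ∃ θ : ℝ, 0 ≤ θ ∧ θ < 1 ∧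
    ∀ (K m R : ℕ) (a b : ℤ) (G11 G12 G21 G22 : Set Edg) (A1 A2 : Set Vtx) (n1 n2 : ℤ),
    0 < m → |a| ≤ m → |b| ≤ m → (∀ v ∈ A1, inB m v) → (∀ v ∈ A2, inB m v) →
    100 * 64^K * m ≤ R →
    (∀ e ∈ boxE R, (e ∈ G11 ↔ e ∈ G12) ∧ (e ∈ G21 ↔ e ∈ G22)) →
    (∀ e ∉ boxE m, (e ∈ G11 ↔ e ∈ G21) ∧ (e ∈ G12 ↔ e ∈ G22)) →
    (∀ e ∈ boxE R, e ∉ boxE m → (e ∈ G11 ↔ e ∈ Dm a b)) →
    2 * (R:ℤ) < n1 → 2 * (R:ℤ) < n2 →
    PP G11 A1 n1 * PP G22 A2 n2 ≤
      PP G12 A1 n2 * PP G21 A2 n1 + θ^K * (PP G11 A1 n1 * PP G22 A2 n2)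

/-- **PPB**: elementary properties of `PP`. -/
def PPBStm : Prop :=
    (∀ G A n, 0 ≤ PP G A n ∧ PP G A n ≤ 1) ∧
    (∀ G A n, Monotone (PM G A n)) ∧
    (∀ G A n, Tendsto (PM G A n) atTop (𝓝 (PP G A n))) ∧
    (∀ (G G' : Set Edg) (A A' : Set Vtx) (n : ℤ), G ⊆ G' → A ⊆ A' → PP G A n ≤ PP G' A' n) ∧
    (∀ (G : Set Edg) (A : Set Vtx) (n n' : ℤ), (∀ v ∈ A, col v ≤ n) → n ≤ n' →
      PP G A n' ≤ PP G A n) ∧
    (∀ (k : ℤ) (G : Set Edg) (A : Set Vtx) (n : ℤ), PP (shE k G) (shV k A) (n + 2*k) = PP G A n) ∧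
    (∀ (G : Set Edg) (A : Set Vtx) (n : ℤ), (∃ u ∈ A, ∃ v, col v = n ∧ Reach G u v) →
      0 < PP G A n)

/-- configurations and fair coins -/
noncomputable def percE : MeasureTheory.Measure (Edg → Bool) :=
  MeasureTheory.Measure.infinitePi (fun _ : Edg => (PMF.uniformOfFintype Bool).toMeasure)

/-- **PERC**: `PP` is the probability in the infinite volume. -/
def PercStm : Prop := ∀ (G : Set Edg) (A : Set Vtx) (n : ℤ),
    PP G A n = percE.real {ω | ∃ u ∈ A, ∃ v, col v = n ∧ Reach ({e | ω e = true} ∩ G) u v}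

/-- **EX** (uses PERC): the exact formula; see `Pool.Agent.H981R2.TP.PL.strip_exact` (for `p = 1`,
note that its edges `(u,v,false)` are horizontal), the columns are `[0, 1+r]`, and `PP` is
decreasing in `n`. -/
def ExStm : Prop := ∃ c : ℝ, 0 < c ∧
    Tendsto (fun n : ℕ => PP G1 {((1:ℤ), (0:ℤ))} n * (n:ℝ)^((1:ℝ)/3)) atTop (𝓝 c)

end Pool.Agent.U167.SA
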