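import Pool.Agent.U167.SA.Stm

/-!
Project SA (helper167), second part: the plane slit along a half-line.
-/

set_option autoImplicit false

namespace Pool.Agent.U167.SA

open H974 Finset Filter Topology

/-- the slit plane: the edges with both ends at height at least one and an end in the column `1`
are removed; the tip is `(1,0)` -/
def Slt : Set Edg := {e | ¬ (1 ≤ ht (src e) ∧ 1 ≤ ht (tgt e) ∧ (col (src e) = 1 ∨ col (tgt e) = 1))}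

/-- four crossings around the box of radius `m` (they are cut at the slit) -/
def Bar2 (m : ℕ) (F : Finset Edg) : Prop :=
  TBc m (3*m) (-(3*m)) (4*m) F ∧ LRc (-(3*m)) (3*m) (-(3*m)) (-m) F ∧
    TBc (-(3*m)) (-m) (-(3*m)) (3*m) F ∧ LRc (-(3*m)) (4*m) m (3*m) F

/-- the event at scale `s` -/
def Q2 (s : ℕ) (F : Finset Edg) : Prop :=
  Bar2 (4*s) F ∧ Bar2 (20*s) F ∧ LRc 0 (80*s+1) (-(3*s)) (-(2*s)) F

/-- **UNI2** -/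
def UniStm2 : Prop := ∀ (m : ℕ), 4 ≤ m → ∀ (F : Finset Edg) (G : Set Edg),
    (∀ e ∈ boxE (4*m), e ∉ boxE (m-1) → (e ∈ G ↔ e ∈ Slt)) → Bar2 m F →
    ∃ z : Vtx, ∀ u v : Vtx, inB (m-1) u → onB (4*m) v →
      Reach (↑F ∩ G ∩ ↑(boxE (4*m))) u v → Reach (↑F ∩ G ∩ ↑(boxE (4*m))) u z

/-- **KEY2** (uses UNI2) -/
def KeyStm2 : Prop := ∀ (s : ℕ), 0 < s → ∀ (Gi Go Gm : Set Edg),
    (∀ e ∈ boxE (16*s), (e ∈ Gi ↔ e ∈ Gm)) → (∀ e ∉ boxE (16*s), (e ∈ Go ↔ e ∈ Gm)) →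
    (∀ e ∈ boxE (80*s+1), e ∉ boxE (2*s-1) → (e ∈ Gm ↔ e ∈ Slt)) →
    ∀ (A B : Set Vtx), (∀ u ∈ A, inB (2*s) u) → (∀ u ∈ B, inB (2*s) u) →
    ∀ (n n' : ℤ), 160*s+2 < n → 160*s+2 < n' → ∀ (F F' : Finset Edg),
    Q2 s (mix (boxE (16*s)) F F') → Hit Gi A n F → Hit Go B n' F' →
      Hit Gm A n' (mix (boxE (16*s)) F F')

/-- **QP2** -/
def QPStm2 : Prop := ∃ δ : ℝ, 0 < δ ∧ δ ≤ 1 ∧ ∀ s : ℕ, 0 < s →
    (∀ F, Q2 s F ↔ Q2 s (F ∩ Rg s)) ∧ (∀ F G, F ⊆ G → Q2 s F → Q2 s G) ∧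
    ∀ S : Finset Edg, boxE (80*s+1) ⊆ S → δ ≤ Pr (fun _ => (1/2:ℝ)) S (Q2 s)

/-- **ASM2** (uses SWAP, KEY2, QP2, PPB) -/
def SWStm2 : Prop := ∃ θ : ℝ, 0 ≤ θ ∧ θ < 1 ∧
    ∀ (K m R : ℕ) (G11 G12 G21 G22 : Set Edg) (A1 A2 : Set Vtx) (n1 n2 : ℤ),
    0 < m → (∀ v ∈ A1, inB m v) → (∀ v ∈ A2, inB m v) →
    100 * 64^K * m ≤ R →
    (∀ e ∈ boxE R, (e ∈ G11 ↔ e ∈ G12) ∧ (e ∈ G21 ↔ e ∈ G22)) →
    (∀ e ∉ boxE m, (e ∈ G11 ↔ e ∈ G21) ∧ (e ∈ G12 ↔ e ∈ G22)) →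
    (∀ e ∈ boxE R, e ∉ boxE m → (e ∈ G11 ↔ e ∈ Slt)) →
    2 * (R:ℤ) < n1 → 2 * (R:ℤ) < n2 →
    PP G11 A1 n1 * PP G22 A2 n2 ≤
      PP G12 A1 n2 * PP G21 A2 n1 + θ^K * (PP G11 A1 n1 * PP G22 A2 n2)

/-- the edges with both ends in the columns `[1-p, 1+r]` -/
def Str (p r : ℕ) : Set Edg := {e | (1 - (p:ℤ) ≤ col (src e) ∧ col (src e) ≤ 1 + r) ∧
  (1 - (p:ℤ) ≤ col (tgt e) ∧ col (tgt e) ≤ 1 + r)}

/-- **EX2** (uses PERC): the exact asymptotics at the tip in all slit strips, see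
`Pool.Agent.H981R2.TP.PL.strip_asymp`. -/
def ExStm2 : Prop := ∀ p r : ℕ → ℕ, Tendsto p atTop atTop → Tendsto r atTop atTop →
    Tendsto (fun n => PP (Slt ∩ Str (p n) (r n)) {((1:ℤ), (0:ℤ))} (1 + (r n : ℤ)) *
      ((r n : ℝ) * (p n + r n) / p n)^((1:ℝ)/6)) atTop (𝓝 (√Real.pi / Real.Gamma (1/3)))

/-- **EX3** (uses PERC): the exact asymptotics in the straight half-plane, see
`Pool.Agent.H988R2.Perc.arm_asymptotics` (H988R2/Perc/T26.lean). -/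
def ExStm3 : Prop :=
    Tendsto (fun n : ℕ => PP (Dm 0 0) {((1:ℤ), (0:ℤ))} n * (n:ℝ)^((1:ℝ)/3)) atTop
      (𝓝 (9 / 4 * Real.Gamma (2/3) / Real.Gamma (1/3)))

end Pool.Agent.U167.SA
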