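import Pool.Agent.U167.SA.Fgen

/-! Project SA (helper167): rate of convergence of the ratios. -/

set_option autoImplicit false

namespace Pool.Agent.U167.SA

open H974 Finset Filter Topology

/-- **RATE**: polynomial rate of convergence of the ratios of arm probabilities with local events -/
def RateStm : Prop := ∀ (D : Set Edg), SWG D → PPMStm → LOCStm → ∃ α : ℝ, 0 < α ∧
    ∀ (G G' : Set Edg) (A A' : Set Vtx) (m m' : ℕ) (W W' : Finset Edg → Prop),
    (∃ r, ∀ e ∉ boxE r, (e ∈ G ↔ e ∈ D)) → (∃ r, ∀ e ∉ boxE r, (e ∈ G' ↔ e ∈ D)) →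
    (∃ r, ∀ v ∈ A, inB r v) → (∃ r, ∀ v ∈ A', inB r v) →
    (∀ᶠ n : ℕ in atTop, 0 < PE m' W' G' A' n) →
    ∃ c C : ℝ, ∀ᶠ n : ℕ in atTop,
      |PE m W G A n / PE m' W' G' A' n - c| ≤ C * (n:ℝ)^(-α)

end Pool.Agent.U167.SA
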