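import Pool.Agent.U167.SA.Stm5

/-! Project SA (helper167): power law error terms. -/

set_option autoImplicit false

namespace Pool.Agent.U167.SA

open H974 Finset Filter Topology

/-- **RATEG**: RATE for varying outer domains; `ρ i` is the radius up to which `O i` is `D`. -/
def RateGStm : Prop := ∀ (D : Set Edg), SWG D → PPMStm → LOCStm → ∃ α : ℝ, 0 < α ∧
    ∀ (ι : Type) (O : ι → Set Edg) (N : ι → ℤ) (ρ : ι → ℕ),
    (∀ i, (∀ e ∈ boxE (ρ i), (e ∈ O i ↔ e ∈ D)) ∧ 2 * (ρ i : ℤ) < N i) →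
    (∀ R : ℕ, ∃ i, R ≤ ρ i) →
    ∀ (r0 m m' : ℕ) (W W' : Finset Edg → Prop) (G G' : Set Edg) (A A' : Set Vtx),
    (∀ v ∈ A, inB r0 v) → (∀ v ∈ A', inB r0 v) →
    (∃ R1 : ℕ, ∀ i, R1 ≤ ρ i → 0 < PE m' W' (loc r0 G' (O i)) A' (N i)) →
    ∃ (R2 : ℕ) (c C : ℝ), ∀ i, R2 ≤ ρ i →
      |PE m W (loc r0 G (O i)) A (N i) / PE m' W' (loc r0 G' (O i)) A' (N i) - c| ≤
        C * (ρ i : ℝ)^(-α)

/-- **REFH**: error term of the exact asymptotics in the straight half-plane -/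
def RefHStm : Prop := ∃ C : ℝ, ∀ n : ℕ, 1 ≤ n →
    |PP (Dm 0 0) {((1:ℤ), (0:ℤ))} n * (n:ℝ)^((1:ℝ)/3) - 9 / 4 * Real.Gamma (2/3) / Real.Gamma (1/3)| ≤
      C / n

/-- **REFS**: error term of the exact asymptotics at the tip in the slit strips -/
def RefSStm : Prop := ∃ C : ℝ, ∀ p r : ℕ, 1 ≤ p → 1 ≤ r →
    |PP (Slt ∩ Str p r) {((1:ℤ), (0:ℤ))} (1 + (r : ℤ)) * ((r : ℝ) * ((p:ℝ) + r) / p)^((1:ℝ)/6) -
      √Real.pi / Real.Gamma (1/3)| ≤ C / (min p r : ℕ)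

end Pool.Agent.U167.SA
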