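import Pool.Agent.U167.SA.Stm6
import Pool.Agent.U167.SA.Stm4

/-!
Project SA (helper167), seventh part: general target sets, further connections far away, events far
away; the inner and the outer configuration are fixed by removing edges (domain `G`) and by forcing
edges to be open (set `P`).
-/

set_option autoImplicit false

namespace Pool.Agent.U167.SA

open H974 Finset Filter Topology

/-- a vertex of `A` is joined to a vertex of `T` by edges of `X` -/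
def Cj (X : Set Edg) (A T : Set Vtx) : Prop := ∃ u ∈ A, ∃ v ∈ T, Reach X u v

/-- the two sets of each pair of the list are joined by edges of `X` -/
def Jn (X : Set Edg) (L : List (Set Vtx × Set Vtx)) : Prop := ∀ q ∈ L, Cj X q.1 q.2

/-- the set is outside the box of radius `R` -/
def Fr (R : ℕ) (T : Set Vtx) : Prop := ∀ v ∈ T, ¬ inB R v

/-- the event; random edges `X`, domain `G`, forced open edges `P` -/
def Ev (G P : Set Edg) (A T : Set Vtx) (L : List (Set Vtx × Set Vtx)) (X : Set Edg) : Prop :=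
  Cj ((X ∪ P) ∩ G) A T ∧ Jn ((X ∪ P) ∩ G) L

/-- its probability -/
noncomputable def PX (G P : Set Edg) (A T : Set Vtx) (L : List (Set Vtx × Set Vtx)) : ℝ :=
  percE.real {ω | Ev G P A T L {e | ω e = true}}

/-- the key property for general targets -/
def KeyX (D : Set Edg) (s0 : ℕ) (Qe : ℕ → Finset Edg → Prop) : Prop :=
    ∀ (s : ℕ), 0 < s → s0 ≤ s → ∀ (Gi Go Gm : Set Edg),
    (∀ e ∈ boxE (16*s), (e ∈ Gi ↔ e ∈ Gm)) → (∀ e ∉ boxE (16*s), (e ∈ Go ↔ e ∈ Gm)) →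
    (∀ e ∈ boxE (80*s+1), e ∉ boxE (2*s-1) → (e ∈ Gm ↔ e ∈ D)) →
    ∀ (F F' : Finset Edg), Qe s (mix (boxE (16*s)) F F') →
    (∀ (A B T T' : Set Vtx), (∀ u ∈ A, inB (2*s) u) → (∀ u ∈ B, inB (2*s) u) →
      Fr (80*s+1) T → Fr (80*s+1) T' → Cj (↑F ∩ Gi) A T → Cj (↑F' ∩ Go) B T' →
      Cj (↑(mix (boxE (16*s)) F F') ∩ Gm) A T') ∧
    (∀ (B T : Set Vtx), Fr (80*s+1) B → Fr (80*s+1) T → Cj (↑F' ∩ Go) B T →
      Cj (↑(mix (boxE (16*s)) F F') ∩ Gm) B T)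

/-- **KEYXW** -/
def KeyXWStm : Prop := UniStmW → ∀ (s0 : ℕ) (w : ℤ → ℤ), (∀ h, |w h| ≤ s0) →
    (∀ h : ℤ, (s0:ℤ) ≤ |h| → |w (h+1) - w h| ≤ 1) → KeyX (Dw w) s0 Q

/-- **KEYXS** -/
def KeyXSStm : Prop := UniStm2 → KeyX Slt 0 Q2

/-- **PXC**: convergence of the finite volume probabilities -/
def PXCStm : Prop := ∀ (G P : Set Edg) (A T : Set Vtx) (L : List (Set Vtx × Set Vtx)),
    Tendsto (fun M : ℕ => Pr (fun _ => (1/2 : ℝ)) (boxE M) (fun F => Ev G P A T L ↑F)) atTop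
      (𝓝 (PX G P A T L))

/-- the swapping inequality -/
def SWX (D : Set Edg) : Prop := ∃ (m0 : ℕ) (θ : ℝ), 0 ≤ θ ∧ θ < 1 ∧
    ∀ (K m R : ℕ) (G11 G12 G21 G22 P11 P12 P21 P22 : Set Edg) (A1 A2 T1 T2 : Set Vtx)
      (L1 L2 : List (Set Vtx × Set Vtx)),
    0 < m → m0 ≤ m → (∀ v ∈ A1, inB m v) → (∀ v ∈ A2, inB m v) → 100 * 64^K * m ≤ R →
    (∀ e ∈ boxE R, ((e ∈ G11 ↔ e ∈ G12) ∧ (e ∈ G21 ↔ e ∈ G22)) ∧
      (e ∈ P11 ↔ e ∈ P12) ∧ (e ∈ P21 ↔ e ∈ P22)) →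
    (∀ e ∉ boxE m, ((e ∈ G11 ↔ e ∈ G21) ∧ (e ∈ G12 ↔ e ∈ G22)) ∧
      (e ∈ P11 ↔ e ∈ P21) ∧ (e ∈ P12 ↔ e ∈ P22)) →
    (∀ e ∈ boxE R, e ∉ boxE m → (e ∈ G11 ↔ e ∈ D)) →
    Fr R T1 → Fr R T2 → (∀ q ∈ L1, Fr R q.1 ∧ Fr R q.2) → (∀ q ∈ L2, Fr R q.1 ∧ Fr R q.2) →
    PX G11 P11 A1 T1 L1 * PX G22 P22 A2 T2 L2 ≤
      PX G12 P12 A1 T2 L2 * PX G21 P21 A2 T1 L1 +
        θ^K * (PX G11 P11 A1 T1 L1 * PX G22 P22 A2 T2 L2)

/-- **SWXG** -/
def SWXGStm : Prop := SwapStm → PXCStm → ∀ (D : Set Edg) (s0 : ℕ) (Qe : ℕ → Finset Edg → Prop),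
    KeyX D s0 Qe → QPG Qe → SWX D

/-- the event depends on the edges outside the box of radius `R` only -/
def OutE (R : ℕ) (V : Set (Edg → Bool)) : Prop :=
  ∀ ω ω' : Edg → Bool, (∀ e ∉ boxE R, ω e = ω' e) → (ω ∈ V ↔ ω' ∈ V)

/-- the domain, given the configuration `η` in the box of radius `m` and `ω` outside the box of
radius `R` -/
def GF (m R : ℕ) (η : Finset Edg) (ω : Edg → Bool) (G : Set Edg) : Set Edg :=
  {e | e ∈ G ∧ (e ∈ boxE m → e ∈ η) ∧ (e ∉ boxE R → ω e = true)}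

/-- the forced edges -/
def PF (m R : ℕ) (η : Finset Edg) (ω : Edg → Bool) : Set Edg :=
  {e | (e ∈ boxE m ∧ e ∈ η) ∨ (e ∉ boxE R ∧ ω e = true)}

open Classical in
/-- the probability of the arm together with the local event `W`, the far event `V` and the far
connections `L` -/
noncomputable def PW (m : ℕ) (W : Finset Edg → Prop) (G : Set Edg) (A T : Set Vtx)
    (L : List (Set Vtx × Set Vtx)) (V : Set (Edg → Bool)) : ℝ :=
  percE.real {ω | W ((boxE m).filter (fun e => ω e = true)) ∧ ω ∈ V ∧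
    Ev G ∅ A T L {e | ω e = true}}

open Classical in
/-- **FUB**: decomposition over the configurations in the box of radius `m` and outside the box of
radius `R` -/
def FUBStm : Prop := ∀ (m R : ℕ), m ≤ R → ∀ (G : Set Edg) (A T : Set Vtx)
    (L : List (Set Vtx × Set Vtx)),
    (∀ η : Finset Edg, MeasureTheory.Integrable
      (fun ω => PX (GF m R η ω G) (PF m R η ω) A T L) percE) ∧
    ∀ (W : Finset Edg → Prop) (V : Set (Edg → Bool)), MeasurableSet V → OutE R V →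
      PW m W G A T L V = ∑ η ∈ (boxE m).powerset.filter W, (1/2 : ℝ)^(boxE m).card *
        ∫ ω in V, PX (GF m R η ω G) (PF m R η ω) A T L ∂percE

/-- the swapping inequality with local events and far events -/
def SWE (D : Set Edg) : Prop := ∃ (m0 : ℕ) (θ : ℝ), 0 ≤ θ ∧ θ < 1 ∧
    ∀ (K m R : ℕ) (W1 W2 : Finset Edg → Prop) (G11 G12 G21 G22 : Set Edg) (A1 A2 T1 T2 : Set Vtx)
      (L1 L2 : List (Set Vtx × Set Vtx)) (V1 V2 : Set (Edg → Bool)),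
    0 < m → m0 ≤ m → (∀ v ∈ A1, inB m v) → (∀ v ∈ A2, inB m v) → 100 * 64^K * m ≤ R →
    (∀ e ∈ boxE R, (e ∈ G11 ↔ e ∈ G12) ∧ (e ∈ G21 ↔ e ∈ G22)) →
    (∀ e ∉ boxE m, (e ∈ G11 ↔ e ∈ G21) ∧ (e ∈ G12 ↔ e ∈ G22)) →
    (∀ e ∈ boxE R, e ∉ boxE m → (e ∈ G11 ↔ e ∈ D)) →
    Fr R T1 → Fr R T2 → (∀ q ∈ L1, Fr R q.1 ∧ Fr R q.2) → (∀ q ∈ L2, Fr R q.1 ∧ Fr R q.2) →
    MeasurableSet V1 → MeasurableSet V2 → OutE R V1 → OutE R V2 →
    PW m W1 G11 A1 T1 L1 V1 * PW m W2 G22 A2 T2 L2 V2 ≤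
      PW m W1 G12 A1 T2 L2 V2 * PW m W2 G21 A2 T1 L1 V1 +
        θ^K * (PW m W1 G11 A1 T1 L1 V1 * PW m W2 G22 A2 T2 L2 V2)

/-- **SWEG** -/
def SWEGStm : Prop := FUBStm → ∀ D : Set Edg, SWX D → SWE D

/-- **TRL**: translations -/
def TrlStm : Prop := ∀ (c : ℤ) (n : ℤ),
    PP (Dm c c) {((1 + c : ℤ), (0:ℤ))} (n + c) = PP (Dm 0 0) {((1:ℤ), (0:ℤ))} n

end Pool.Agent.U167.SA
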