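import Pool.Agent.U167.SA.Fact

/-!
Project SA (helper167), eighth part: local patterns at the contacts of the flat end of a
half-infinite strip with its upper side. The strip: `col ≥ 0`, `-1 ≤ ht ≤ 2n`; the flat end is the
column `0`, its vertices are the points `(k,k)`, `0 ≤ k ≤ n`; the upper side is `ht = 2n`.
-/

set_option autoImplicit false

namespace Pool.Agent.U167.SA

open H974 Finset Filter Topology MeasureTheory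

/-- the conclusion of `fact_lim` -/
def FactP (D : Set Edg) (α : ℝ) : Prop :=
    ∀ (s mW mW' : ℕ) (W W' : Finset Edg → Prop) (G G' : Set Edg) (A A' : Set Vtx),
    (∀ e ∉ boxE s, (e ∈ G ↔ e ∈ D)) → (∀ e ∉ boxE s, (e ∈ G' ↔ e ∈ D)) →
    (∀ v ∈ A, inB s v) → (∀ v ∈ A', inB s v) →
    ∀ (a : ℕ → ℝ) (N : ℕ → ℤ) (c c' : ℝ), (∀ n, 0 ≤ a n) → Tendsto N atTop atTop →
    Tendsto (fun n => PE mW W G A (N n) * a n) atTop (𝓝 c) →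
    Tendsto (fun n => PE mW' W' G' A' (N n) * a n) atTop (𝓝 c') → 0 < c' →
    ∃ (C : ℝ) (r0 : ℕ), 0 ≤ C ∧ ∀ r : ℕ, r0 ≤ r → ∀ (O : Set Edg) (T : Set Vtx)
      (L : List (Set Vtx × Set Vtx)) (V : Set (Edg → Bool)),
    (∀ e ∈ boxE r, (e ∈ O ↔ e ∈ D)) → Fr r T → (∀ q ∈ L, Fr r q.1 ∧ Fr r q.2) →
    MeasurableSet V → OutE r V →
    |PW mW W (loc s G O) A T L V - c / c' * PW mW' W' (loc s G' O) A' T L V| ≤
      C * (r:ℝ)^(-α) * PW mW' W' (loc s G' O) A' T L V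

/-- the straight half-plane `col ≥ 0` -/
def D0 : Set Edg := Dw (fun _ => 0)

/-- the half-infinite strip `col ≥ 0`, `-1 - 2k ≤ ht ≤ 2n - 2k` -/
def StK (n : ℕ) (k : ℤ) : Set Edg :=
  {e | (0 ≤ col (src e) ∧ -1 - 2*k ≤ ht (src e) ∧ ht (src e) ≤ 2*n - 2*k) ∧
    (0 ≤ col (tgt e) ∧ -1 - 2*k ≤ ht (tgt e) ∧ ht (tgt e) ≤ 2*n - 2*k)}

/-- its upper side -/
def TpK (n : ℕ) (k : ℤ) : Set Vtx := {v | ht v = 2*n - 2*k}

/-- the configuration seen from the point `(k,k)` -/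
def tE (k : ℤ) (ω : Edg → Bool) : Edg → Bool := fun e => ω (e.1 + k, e.2.1 + k, e.2.2)

/-- the set moved by `(k,k)` -/
def tV (k : ℤ) (A : Set Vtx) : Set Vtx := {v | (v.1 - k, v.2 - k) ∈ A}

/-- the local event at the point `(k,k)` -/
def LE (m : ℕ) (W : Finset Edg → Prop) (k : ℤ) : Set (Edg → Bool) :=
  {ω | W ((boxE m).filter (fun e => tE k ω e = true))}

/-- the pattern `(m,W,A)` occurs at the point `(k,k)` -/
def XE (m : ℕ) (W : Finset Edg → Prop) (A : Set Vtx) (n : ℕ) (k : ℤ) : Set (Edg → Bool) :=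
  {ω | ω ∈ LE m W k ∧ Cj ({e | ω e = true} ∩ StK n 0) (tV k A) (TpK n 0)}

/-- the point `(k,k)` is a contact -/
def X0 (n : ℕ) (k : ℤ) : Set (Edg → Bool) := XE 0 (fun _ => True) {((0:ℤ), (0:ℤ))} n k

open Classical in
/-- the number of points of the flat end at which the pattern occurs -/
noncomputable def NN (m : ℕ) (W : Finset Edg → Prop) (A : Set Vtx) (n : ℕ) (ω : Edg → Bool) : ℝ :=
  (((Finset.range n).filter (fun k : ℕ => ω ∈ XE m W A n (k:ℤ))).card : ℝ)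

/-- the number of contacts -/
noncomputable def N0 (n : ℕ) (ω : Edg → Bool) : ℝ := NN 0 (fun _ => True) {((0:ℤ), (0:ℤ))} n ω

/-- the distance of the pair from the corners and from the diagonal -/
def rh (s n k l : ℕ) : ℤ :=
  min (min (k:ℤ) l) (min (min ((n:ℤ) - 1 - k) ((n:ℤ) - 1 - l)) (|(k:ℤ) - l| - s - 1))

/-- a priori bound of the probability of a pair of contacts -/
noncomputable def fb (n k l : ℕ) : ℝ :=
  if |(k:ℤ) - l| < 2 then 1 else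
    ((min ((((k:ℤ) - l).natAbs - 2) / 2) (n - 1 - k) : ℕ) + 1 : ℝ)^(-((1:ℝ)/3)) *
    ((min ((((k:ℤ) - l).natAbs - 2) / 2) (n - 1 - l) : ℕ) + 1 : ℝ)^(-((1:ℝ)/3))

/-- **POS**: the probability of a pair of patterns, seen from the first one -/
def PosStm : Prop := ∀ (m m' : ℕ) (W W' : Finset Edg → Prop) (A A' : Set Vtx) (n : ℕ) (k l : ℤ),
    percE.real (XE m W A n k ∩ XE m' W' A' n l) =
      PW m W (StK n k) A (TpK n k) [(tV (l - k) A', TpK n k)] (LE m' W' (l - k))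

/-- **MEA** -/
def MeaStm : Prop := ∀ (m : ℕ) (W : Finset Edg → Prop) (A : Set Vtx) (n : ℕ) (k : ℤ),
    MeasurableSet (XE m W A n k) ∧ MeasurableSet (LE m W k)

/-- **TWO** -/
def TwoStm : Prop := PosStm → MeaStm → ∀ α : ℝ, 0 < α → FactP D0 α → ∀ c0 : ℝ, 0 < c0 →
    Tendsto (fun n : ℕ => PE 0 (fun _ => True) D0 {((0:ℤ), (0:ℤ))} n * (n:ℝ)^((1:ℝ)/3)) atTop
      (𝓝 c0) →
    ∀ (s m m' : ℕ) (W W' : Finset Edg → Prop) (A A' : Set Vtx) (c c' : ℝ), m ≤ s → m' ≤ s →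
    (∀ v ∈ A, inB s v) → (∀ v ∈ A', inB s v) →
    Tendsto (fun n : ℕ => PE m W D0 A n * (n:ℝ)^((1:ℝ)/3)) atTop (𝓝 c) →
    Tendsto (fun n : ℕ => PE m' W' D0 A' n * (n:ℝ)^((1:ℝ)/3)) atTop (𝓝 c') →
    ∃ (C : ℝ) (r0 : ℕ), 0 ≤ C ∧ ∀ n k l : ℕ, k < n → l < n → (r0:ℤ) ≤ rh s n k l →
      |percE.real (XE m W A n k ∩ XE m' W' A' n l) -
        (c / c0) * (c' / c0) * percE.real (X0 n k ∩ X0 n l)| ≤
      C * (rh s n k l : ℝ)^(-α) * percE.real (X0 n k ∩ X0 n l)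

/-- **BND** -/
def BndStm : Prop := ∀ (s : ℕ) (A : Set Vtx), (∀ v ∈ A, inB s v) → ∃ C : ℝ, 0 ≤ C ∧ ∀ r : ℕ,
    PX D0 ∅ A {v | ¬ inB r v} [] ≤ C * ((r:ℝ) + 1)^(-((1:ℝ)/3))

/-- **IND** -/
def IndStm : Prop := ∀ (m m' : ℕ) (W W' : Finset Edg → Prop) (A A' : Set Vtx) (n k l r r' : ℕ),
    k < n → l < n → r ≤ n - 1 - k → r' ≤ n - 1 - l → (r:ℤ) + r' + 2 ≤ |(k:ℤ) - l| →
    percE.real (XE m W A n k ∩ XE m' W' A' n l) ≤
      PX D0 ∅ A {v | ¬ inB r v} [] * PX D0 ∅ A' {v | ¬ inB r' v} []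

/-- **SUM** -/
def SumStm : Prop :=
    (∃ C : ℝ, 0 ≤ C ∧ ∀ n : ℕ, ∑ k ∈ range n, ∑ l ∈ range n, fb n k l ≤ C * (n:ℝ)^((4:ℝ)/3)) ∧
    ∀ (s : ℕ) (ε : ℝ), 0 < ε → ∃ (δ : ℝ) (N : ℕ), 0 < δ ∧ ∀ n : ℕ, N ≤ n →
      ∑ k ∈ range n, ∑ l ∈ range n, (if (rh s n k l : ℝ) < δ * n then fb n k l else 0) ≤
        ε * (n:ℝ)^((4:ℝ)/3)

/-- the limit law -/
noncomputable def FX (t : ℝ) : ℝ := (∫ x in (0 : ℝ)..t, Real.exp (-x ^ 3)) / Real.Gamma (4 / 3)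

/-- **STA**: the starting theorem on the number of contacts -/
def StaStm : Prop := ∀ t : ℝ, 0 ≤ t →
    Tendsto (fun n : ℕ => percE.real {ω | N0 n ω ≤ t * (2 * (n:ℝ) + 1)^((2:ℝ)/3)}) atTop (𝓝 (FX t))

/-- **LW2**: the patterns are proportional to the contacts in `L²` -/
def LW2Stm : Prop := PosStm → MeaStm → TwoStm → BndStm → IndStm → SumStm →
    ∀ α : ℝ, 0 < α → FactP D0 α → ∀ c0 : ℝ, 0 < c0 →
    Tendsto (fun n : ℕ => PE 0 (fun _ => True) D0 {((0:ℤ), (0:ℤ))} n * (n:ℝ)^((1:ℝ)/3)) atTop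
      (𝓝 c0) →
    ∀ (m : ℕ) (W : Finset Edg → Prop) (A : Set Vtx) (c : ℝ), (∃ r, ∀ v ∈ A, inB r v) →
    Tendsto (fun n : ℕ => PE m W D0 A n * (n:ℝ)^((1:ℝ)/3)) atTop (𝓝 c) →
    Tendsto (fun n : ℕ => (∫ ω, (NN m W A n ω - c / c0 * N0 n ω)^2 ∂percE) /
      (2 * (n:ℝ) + 1)^((4:ℝ)/3)) atTop (𝓝 0)

/-- **SLU**: joint law -/
def SluStm : Prop := ∀ (ι : Type) [Fintype ι] [Nonempty ι] (Z : ι → ℕ → (Edg → Bool) → ℝ)
    (Y : ℕ → (Edg → Bool) → ℝ) (κ : ι → ℝ) (a : ℕ → ℝ) (F : ℝ → ℝ), (∀ i, 0 < κ i) →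
    (∀ n, 0 < a n) → (∀ i n, Measurable (Z i n)) → (∀ n, Measurable (Y n)) →
    (∀ i n, ∃ K : ℝ, ∀ ω, |Z i n ω| ≤ K) → (∀ n, ∃ K : ℝ, ∀ ω, |Y n ω| ≤ K) → (∀ n ω, 0 ≤ Y n ω) →
    ContinuousOn F (Set.Ici 0) → F 0 = 0 →
    (∀ t : ℝ, 0 ≤ t → Tendsto (fun n => percE.real {ω | Y n ω ≤ t * a n}) atTop (𝓝 (F t))) →
    (∀ i, Tendsto (fun n => (∫ ω, (Z i n ω - κ i * Y n ω)^2 ∂percE) / (a n)^2) atTop (𝓝 0)) →
    ∀ t : ι → ℝ, (∀ i, 0 ≤ t i) →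
      Tendsto (fun n => percE.real {ω | ∀ i, Z i n ω ≤ t i * a n}) atTop
        (𝓝 (F (⨅ i, t i / κ i)))

end Pool.Agent.U167.SA
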